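import Pool.Agent.Lib.MSp.MainT

/-!
# One round for the coordinates which are not yet fixed

Proof.  Let `κ = {i // |x0 i| ≠ 1}`, of cardinality `k ≥ 8`, and apply `main_round` to the data given by
the restrictions of `A` and `x0` to `κ`, with `J`, `N`, `l`.  Let `y : κ → ℝ` be the point obtained and put
`x i = y i` for `i` in `κ` and `x i = x0 i` otherwise.  Then `x - x0` vanishes outside `κ`, so
`H A (x - x0)` is the matrix of the restricted data (sum over the subtype:
`Finset.sum_subtype` or `Finset.sum_coe_sort`), and `D.b = sqrt (2400 (l+2) k)`.  The coordinates with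
`|x i| ≠ 1` all lie in `κ`, and their number is `k - card {i : κ | |y i| = 1} ≤ k - k/2`.
-/

set_option autoImplicit false
set_option linter.unusedSectionVars false

open scoped Matrix Topology
open Filter

namespace MSp

variable {m κ : Type} [Fintype m] [DecidableEq m] [Fintype κ] [DecidableEq κ]

theorem apply_round {ι : Type} [Fintype ι] [DecidableEq ι] {A : ι → Matrix m m ℝ}
    {J : Matrix m m ℝ} (hA : ∀ i, (A i)ᵀ = A i) (hA1 : ∀ i, (1 - A i * A i).PosSemidef)
    (hJ : J * Jᵀ = 1) (hJA : ∀ i, J * A i * Jᵀ = - A i) {x0 : ι → ℝ} (hx0 : ∀ i, |x0 i| ≤ 1)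
    {N : ℝ} (hN : (Fintype.card m : ℝ) ≤ N) (hN0 : 0 < N) {k : ℕ}
    (hk : (Finset.univ.filter fun i => |x0 i| ≠ 1).card = k) (hk8 : 8 ≤ k) {l : ℕ} (hl : 1 ≤ l)
    (hr : (N / (k : ℝ)) ^ 2 ≤ 10 ^ (l - 1)) :
    ∃ x : ι → ℝ, (∀ i, |x i| ≤ 1) ∧
      2 * (Finset.univ.filter fun i => |x i| ≠ 1).card ≤ k ∧
      ((3 * Real.sqrt (2400 * ((l : ℝ) + 2) * (k : ℝ))) • (1 : Matrix m m ℝ)
        - H A (x - x0)).PosSemidef ∧
      ((3 * Real.sqrt (2400 * ((l : ℝ) + 2) * (k : ℝ))) • (1 : Matrix m m ℝ)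
        + H A (x - x0)).PosSemidef := by
  classical
  have hcard : Fintype.card {i : ι // |x0 i| ≠ 1} = k := by
    rw [Fintype.card_subtype, hk]
  let D : Dat m {i : ι // |x0 i| ≠ 1} :=
    { A := fun i => A i.1
      J := J
      x0 := fun i => x0 i.1
      N := N
      l := l
      symA := fun i => hA i.1
      sqA := fun i => hA1 i.1
      orthJ := hJ
      conjJ := fun i => hJA i.1
      x0_le := fun i => hx0 i.1
      card_le := hN
      N_pos := hN0
      one_le_l := hl
      ratio := by rw [hcard]; exact hr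
      eight_le := by rw [hcard]; exact hk8 }
  obtain ⟨y, hy, hycard, hp1, hp2⟩ := main_round D
  have hb : D.b = Real.sqrt (2400 * ((l : ℝ) + 2) * (k : ℝ)) := by
    show Real.sqrt (2400 * ((l : ℝ) + 2) * (Fintype.card {i : ι // |x0 i| ≠ 1} : ℝ)) = _
    rw [hcard]
  have hHD : H D.A (y - D.x0) = H A ((fun i => if h : |x0 i| ≠ 1 then y ⟨i, h⟩ else x0 i) - x0) := by
    unfold H
    have e1 : ∀ i : ι, i ∈ (Finset.univ : Finset ι) → i ∉ (Finset.univ.filter fun i => |x0 i| ≠ 1) →
        (((fun i => if h : |x0 i| ≠ 1 then y ⟨i, h⟩ else x0 i) - x0 : ι → ℝ) i) • A i = 0 := by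
      intro i _ hi
      have hi' : ¬ |x0 i| ≠ 1 := by simpa using hi
      simp only [Pi.sub_apply]
      rw [dif_neg hi', sub_self, zero_smul]
    rw [← Finset.sum_subset (Finset.subset_univ (Finset.univ.filter fun i => |x0 i| ≠ 1)) e1]
    rw [Finset.sum_subtype (p := fun i => |x0 i| ≠ 1) (Finset.univ.filter fun i => |x0 i| ≠ 1)
      (by intro i; simp)]
    refine Finset.sum_congr rfl fun i _ => ?_
    simp only [Pi.sub_apply]
    rw [dif_pos i.2]
  refine ⟨fun i => if h : |x0 i| ≠ 1 then y ⟨i, h⟩ else x0 i, ?_, ?_, ?_, ?_⟩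
  · intro i
    dsimp only
    split_ifs with h
    · exact hy _
    · exact hx0 i
  · have hsub : (Finset.univ.filter fun i =>
        |(if h : |x0 i| ≠ 1 then y ⟨i, h⟩ else x0 i)| ≠ 1)
        ⊆ (Finset.univ.filter fun j : {i : ι // |x0 i| ≠ 1} => |y j| ≠ 1).map
            (Function.Embedding.subtype _) := by
      intro i hi
      rw [Finset.mem_filter] at hi
      by_cases h : |x0 i| ≠ 1
      · have h2 := hi.2
        rw [dif_pos h] at h2
        rw [Finset.mem_map]
        exact ⟨⟨i, h⟩, by simpa using h2, rfl⟩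
      · have h2 := hi.2
        rw [dif_neg h] at h2
        exact absurd h2 h
    have h1 := Finset.card_le_card hsub
    rw [Finset.card_map] at h1
    have h2 : (Finset.univ.filter fun j : {i : ι // |x0 i| ≠ 1} => |y j| = 1).card
        + (Finset.univ.filter fun j : {i : ι // |x0 i| ≠ 1} => |y j| ≠ 1).card
        = Fintype.card {i : ι // |x0 i| ≠ 1} := by
      rw [← Finset.card_univ]
      exact Finset.card_filter_add_card_filter_not (fun j => |y j| = 1)
    rw [hcard] at h2 hycard
    show 2 * (Finset.univ.filter fun i =>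
        |(if h : |x0 i| ≠ 1 then y ⟨i, h⟩ else x0 i)| ≠ 1).card ≤ k
    omega
  · rw [← hHD, ← hb]
    exact hp1
  · rw [← hHD, ← hb]
    exact hp2

end MSp
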