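import Pool.Agent.Lib.MSp.Psd

/-!
# Rounding few coordinates

Proof.  Let `z i = x0 i` if `|x0 i| = 1`, and otherwise `z i = 1` if `x0 i ≥ 0` and `z i = -1` if `x0 i < 0`.
Then `|z i - x0 i| ≤ 1` for the at most `k` coordinates with `|x0 i| ≠ 1` and `z i = x0 i` for the
others.  Every `A i` satisfies `-1 ≤ A i ≤ 1` (from `1 - A i * A i ≥ 0`: for unit `u`,
`(u · A u)^2 ≤ |A u|^2 ≤ 1`; or `1 - A = ((1 - A)^2 + (1 - A^2))/2` is a sum of positive
semidefinite matrices and similarly `1 + A`), so `c (±A i) ≤ |c| 1` and the sum of at most `k` such terms is at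
most `k`.
-/

set_option autoImplicit false
set_option linter.unusedSectionVars false

open scoped Matrix Topology
open Filter

namespace MSp

variable {m κ : Type} [Fintype m] [DecidableEq m] [Fintype κ] [DecidableEq κ]

namespace BaseAux

theorem psd_one_sub {A : Matrix m m ℝ} (hA : Aᵀ = A) (hA1 : (1 - A * A).PosSemidef) {c : ℝ}
    (hc : |c| ≤ 1) : ((1 : Matrix m m ℝ) - c • A).PosSemidef := by
  have hc2 : 0 ≤ 1 - c ^ 2 := by
    have h := (sq_le_one_iff_abs_le_one c).2 hc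
    linarith
  have h1 : (((1 : Matrix m m ℝ) - c • A) * ((1 : Matrix m m ℝ) - c • A)ᵀ).PosSemidef :=
    psd_mul_transpose _
  have h2 : ((1 - c ^ 2) • (1 : Matrix m m ℝ)).PosSemidef := psd_smul psd_one hc2
  have h3 : (c ^ 2 • (1 - A * A)).PosSemidef := psd_smul hA1 (sq_nonneg c)
  have h4 := psd_smul (psd_add h1 (psd_add h2 h3)) (c := 1 / 2) (by norm_num)
  have h5 : (1 / 2 : ℝ) • (((1 : Matrix m m ℝ) - c • A) * ((1 : Matrix m m ℝ) - c • A)ᵀ
      + ((1 - c ^ 2) • (1 : Matrix m m ℝ) + c ^ 2 • (1 - A * A))) = 1 - c • A := by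
    rw [Matrix.transpose_sub, Matrix.transpose_one, Matrix.transpose_smul, hA]
    simp only [mul_sub, sub_mul, one_mul, mul_one, smul_mul_assoc, mul_smul_comm]
    module
  rw [h5] at h4
  exact h4

theorem psd_card {ι : Type} [Fintype ι] [DecidableEq ι] {A : ι → Matrix m m ℝ}
    (hA : ∀ i, (A i)ᵀ = A i) (hA1 : ∀ i, (1 - A i * A i).PosSemidef) {c : ι → ℝ} {s : Finset ι}
    (h0 : ∀ i, i ∉ s → c i = 0) (h1 : ∀ i, |c i| ≤ 1) :
    ((s.card : ℝ) • (1 : Matrix m m ℝ) - ∑ i, c i • A i).PosSemidef := by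
  have h2 : (s.card : ℝ) • (1 : Matrix m m ℝ) - ∑ i, c i • A i
      = ∑ i ∈ s, ((1 : Matrix m m ℝ) - c i • A i) := by
    rw [Finset.sum_sub_distrib, Finset.sum_const, ← Nat.cast_smul_eq_nsmul ℝ]
    congr 1
    symm
    apply Finset.sum_subset (Finset.subset_univ s)
    intro i _ hi
    rw [h0 i hi, zero_smul]
  rw [h2]
  exact psd_sum s fun i _ => psd_one_sub (hA i) (hA1 i) (h1 i)

end BaseAux

open BaseAux in
theorem base_round {ι : Type} [Fintype ι] [DecidableEq ι] {A : ι → Matrix m m ℝ}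
    (hA : ∀ i, (A i)ᵀ = A i) (hA1 : ∀ i, (1 - A i * A i).PosSemidef) {x0 : ι → ℝ}
    (hx0 : ∀ i, |x0 i| ≤ 1) {k : ℕ} (hk : (Finset.univ.filter fun i => |x0 i| ≠ 1).card = k) :
    ∃ z : ι → ℝ, (∀ i, z i = 1 ∨ z i = -1) ∧
      ((k : ℝ) • (1 : Matrix m m ℝ) - H A (z - x0)).PosSemidef ∧
      ((k : ℝ) • (1 : Matrix m m ℝ) + H A (z - x0)).PosSemidef := by
  classical
  obtain ⟨z, hz1, hz2, hz3⟩ : ∃ z : ι → ℝ, (∀ i, z i = 1 ∨ z i = -1) ∧
      (∀ i, |x0 i| = 1 → z i = x0 i) ∧ ∀ i, |z i - x0 i| ≤ 1 := by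
    refine ⟨fun i => if |x0 i| = 1 then x0 i else if 0 ≤ x0 i then 1 else -1, ?_, ?_, ?_⟩
    · intro i
      by_cases h1 : |x0 i| = 1
      · simp only [h1, if_true]
        exact eq_or_eq_neg_of_abs_eq h1
      · by_cases h2 : 0 ≤ x0 i <;> simp [h1, h2]
    · intro i hi
      simp [hi]
    · intro i
      have h3 := abs_le.1 (hx0 i)
      by_cases h1 : |x0 i| = 1
      · simp [h1]
      · by_cases h2 : 0 ≤ x0 i
        · simp only [h1, if_false, h2, if_true]
          rw [abs_le]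
          constructor <;> linarith
        · simp only [h1, if_false, h2]
          push Not at h2
          rw [abs_le]
          constructor <;> linarith
  have h0 : ∀ i, i ∉ (Finset.univ.filter fun i => |x0 i| ≠ 1) → (z - x0) i = 0 := by
    intro i hi
    have h1 : |x0 i| = 1 := by
      by_contra h
      exact hi (Finset.mem_filter.2 ⟨Finset.mem_univ i, h⟩)
    rw [Pi.sub_apply, hz2 i h1, sub_self]
  have h0' : ∀ i, i ∉ (Finset.univ.filter fun i => |x0 i| ≠ 1) → (-(z - x0)) i = 0 := by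
    intro i hi
    rw [Pi.neg_apply, h0 i hi, neg_zero]
  refine ⟨z, hz1, ?_, ?_⟩
  · have h1 := psd_card hA hA1 h0 (fun i => hz3 i)
    rw [hk] at h1
    exact h1
  · have h1 := psd_card hA hA1 h0' (fun i => by
      rw [Pi.neg_apply, abs_neg]
      exact hz3 i)
    rw [hk] at h1
    have h2 : (k : ℝ) • (1 : Matrix m m ℝ) + H A (z - x0)
        = (k : ℝ) • (1 : Matrix m m ℝ) - ∑ i, (-(z - x0)) i • A i := by
      unfold H
      simp only [Pi.neg_apply, neg_smul, Finset.sum_neg_distrib, sub_neg_eq_add]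
    rw [h2]
    exact h1

end MSp
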