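import Pool.Agent.Lib.MSp.LinD

/-!
# The linear discrepancy theorem for matrices, in the form used for the volume ratio
-/

set_option autoImplicit false
set_option linter.unusedSectionVars false

open scoped Matrix Topology

namespace MSp

/-- with the explicit constant `2000` -/
theorem colouring_explicit (k d : ℕ) (hk : 1 ≤ k) (hkd : k ≤ d)
    (A : Fin k → Matrix (Fin d) (Fin d) ℝ)
    (hA : ∀ i v, ‖Matrix.toEuclideanLin (A i) v‖ ≤ ‖v‖)
    (x0 : Fin k → ℝ) (hx0 : ∀ i, |x0 i| ≤ 1) :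
    ∃ z : Fin k → ℝ, (∀ i, z i = 1 ∨ z i = -1) ∧
      ∀ v, ‖Matrix.toEuclideanLin (∑ i, (x0 i - z i) • A i) v‖
        ≤ 2000 * Real.sqrt (k * (1 + Real.log (d / k))) * ‖v‖ := by
  have hA' : ∀ i, ‖Matrix.toEuclideanCLM (𝕜 := ℝ) (A i)‖ ≤ 1 := fun i =>
    ContinuousLinearMap.opNorm_le_bound _ zero_le_one fun v => by
      rw [one_mul]; exact hA i v
  obtain ⟨z, hz, h⟩ := lin_disc d k A hA' x0 hx0
  refine ⟨z, hz, fun v => ?_⟩
  have hk0 : (0 : ℝ) < k := by exact_mod_cast hk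
  have hdk : (1 : ℝ) ≤ (d : ℝ) / k := by
    rw [le_div_iff₀ hk0, one_mul]; exact_mod_cast hkd
  have hlog : 0 ≤ Real.log ((d : ℝ) / k) := Real.log_nonneg hdk
  have h1 : 2000 * Real.sqrt (k : ℝ) * max 1 (Real.sqrt (Real.log ((d : ℝ) / (k : ℝ))))
      ≤ 2000 * Real.sqrt (k * (1 + Real.log (d / k))) := by
    rw [Real.sqrt_mul hk0.le, ← mul_assoc]
    apply mul_le_mul_of_nonneg_left _ (by positivity)
    apply max_le
    · rw [Real.one_le_sqrt]; linarith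
    · exact Real.sqrt_le_sqrt (by linarith)
  have h2 : (∑ i, (x0 i - z i) • A i) = -(∑ i, (z i - x0 i) • A i) := by
    rw [← Finset.sum_neg_distrib]
    refine Finset.sum_congr rfl fun i _ => ?_
    rw [← neg_smul]; congr 1; ring
  have h3 : ‖Matrix.toEuclideanLin (∑ i, (x0 i - z i) • A i) v‖
      = ‖Matrix.toEuclideanCLM (𝕜 := ℝ) (∑ i, (z i - x0 i) • A i) v‖ := by
    rw [h2, map_neg, LinearMap.neg_apply, norm_neg]; rfl
  rw [h3]
  exact (ContinuousLinearMap.le_of_opNorm_le _ (h.trans h1) v)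

theorem colouring : ∃ C : ℝ, 1 ≤ C ∧ ∀ k d : ℕ, 1 ≤ k → k ≤ d →
    ∀ A : Fin k → Matrix (Fin d) (Fin d) ℝ,
      (∀ i v, ‖Matrix.toEuclideanLin (A i) v‖ ≤ ‖v‖) →
      ∀ x0 : Fin k → ℝ, (∀ i, |x0 i| ≤ 1) →
        ∃ z : Fin k → ℝ, (∀ i, z i = 1 ∨ z i = -1) ∧
          ∀ v, ‖Matrix.toEuclideanLin (∑ i, (x0 i - z i) • A i) v‖
            ≤ C * Real.sqrt (k * (1 + Real.log (d / k))) * ‖v‖ :=
  ⟨2000, by norm_num, fun k d hk hkd A hA x0 hx0 => colouring_explicit k d hk hkd A hA x0 hx0⟩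

end MSp
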