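import Pool.Agent.Lib.MSp.Psd

/-!
# A lower bound from a bound for the trace of a power of the inverse

Proof.  Let `X = O diag(d) Oᵀ` (`spectral_psd`); all `d_i > 0` because `X` is positive definite
(or because it is invertible).  Then `X⁻¹ = O diag(1/d_i) Oᵀ` (`Matrix.inv_eq_right_inv`) and
`(X⁻¹)^n` has trace `∑ (1/d_i)^n`.  So for every `i`, `(b/d_i)^n ≤ B`.  If `b/d_i > B + 1` then, as
`b/d_i > 1` and `n ≥ 1`, `(b/d_i)^n ≥ b/d_i > B + 1`, a contradiction.  Hence `b/d_i ≤ B + 1`, i.e.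
`d_i ≥ b/(B+1)`, and `X - (b/(B+1)) 1 = O diag(d_i - b/(B+1)) Oᵀ` is positive semidefinite.
-/

set_option autoImplicit false
set_option linter.unusedSectionVars false

open scoped Matrix Topology
open Filter

namespace MSp

variable {m κ : Type} [Fintype m] [DecidableEq m] [Fintype κ] [DecidableEq κ]

namespace LowerAux

theorem conj_pow {O P : Matrix m m ℝ} (h : Oᵀ * O = 1) (h' : O * Oᵀ = 1) (n : ℕ) :
    (O * P * Oᵀ) ^ n = O * P ^ n * Oᵀ := by
  induction n with
  | zero => rw [pow_zero, pow_zero, Matrix.mul_one, h']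
  | succ n ih =>
    rw [pow_succ, ih, pow_succ]
    calc O * P ^ n * Oᵀ * (O * P * Oᵀ) = O * P ^ n * (Oᵀ * O) * (P * Oᵀ) := by
          simp only [Matrix.mul_assoc]
      _ = O * (P ^ n * P) * Oᵀ := by
          rw [h, Matrix.mul_one]
          simp only [Matrix.mul_assoc]

theorem trace_conj {O P : Matrix m m ℝ} (h : Oᵀ * O = 1) : (O * P * Oᵀ).trace = P.trace := by
  rw [Matrix.mul_assoc, Matrix.trace_mul_comm, Matrix.mul_assoc, h, Matrix.mul_one]

end LowerAux

open LowerAux

theorem lower_of_trace {X : Matrix m m ℝ} (hX : X.PosDef) {n : ℕ} (hn : 1 ≤ n) {B b : ℝ}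
    (hb : 0 < b) (hB : 0 ≤ B) (h : b ^ n * (X⁻¹ ^ n).trace ≤ B) :
    (X - (b / (B + 1)) • (1 : Matrix m m ℝ)).PosSemidef := by
  obtain ⟨O, d, h1, h2, h3, h4⟩ := spectral_psd hX.posSemidef
  have hmul : Matrix.diagonal d * (Oᵀ * X⁻¹ * O) = 1 := by
    have h5 : Matrix.diagonal d = Oᵀ * X * O := by
      rw [h3]
      calc Matrix.diagonal d = 1 * Matrix.diagonal d * 1 := by
            rw [Matrix.one_mul, Matrix.mul_one]
        _ = (Oᵀ * O) * Matrix.diagonal d * (Oᵀ * O) := by rw [h2]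
        _ = Oᵀ * (O * Matrix.diagonal d * Oᵀ) * O := by simp only [Matrix.mul_assoc]
    rw [h5]
    calc Oᵀ * X * O * (Oᵀ * X⁻¹ * O) = Oᵀ * X * (O * Oᵀ) * (X⁻¹ * O) := by
          simp only [Matrix.mul_assoc]
      _ = Oᵀ * (X * X⁻¹) * O := by
          rw [h1, Matrix.mul_one]
          simp only [Matrix.mul_assoc]
      _ = 1 := by rw [pd_mul_inv hX, Matrix.mul_one, h2]
  have hd : ∀ i, 0 < d i := by
    intro i
    refine lt_of_le_of_ne (h4 i) fun h0 => ?_
    have h5 := congrFun (congrFun hmul i) i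
    rw [Matrix.diagonal_mul, ← h0, zero_mul, Matrix.one_apply_eq] at h5
    exact zero_ne_one h5
  have hinv : X⁻¹ = O * Matrix.diagonal (fun i => (d i)⁻¹) * Oᵀ := by
    apply Matrix.inv_eq_right_inv
    rw [h3]
    calc O * Matrix.diagonal d * Oᵀ * (O * Matrix.diagonal (fun i => (d i)⁻¹) * Oᵀ)
        = O * Matrix.diagonal d * (Oᵀ * O) * (Matrix.diagonal (fun i => (d i)⁻¹) * Oᵀ) := by
          simp only [Matrix.mul_assoc]
      _ = O * (Matrix.diagonal d * Matrix.diagonal (fun i => (d i)⁻¹)) * Oᵀ := by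
          rw [h2, Matrix.mul_one]
          simp only [Matrix.mul_assoc]
      _ = 1 := by
          rw [Matrix.diagonal_mul_diagonal]
          have h5 : (fun i => d i * (d i)⁻¹) = fun _ => (1 : ℝ) := by
            funext i
            exact mul_inv_cancel₀ (hd i).ne'
          rw [h5, Matrix.diagonal_one, Matrix.mul_one, h1]
  have htr : (X⁻¹ ^ n).trace = ∑ i, ((d i)⁻¹) ^ n := by
    rw [hinv, conj_pow h2 h1, trace_conj h2, Matrix.diagonal_pow, Matrix.trace_diagonal]
    rfl
  have hle : ∀ i, (b / d i) ^ n ≤ B := by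
    intro i
    refine le_trans ?_ h
    rw [htr, div_eq_mul_inv, mul_pow]
    refine mul_le_mul_of_nonneg_left ?_ (pow_nonneg hb.le n)
    exact Finset.single_le_sum (f := fun i => ((d i)⁻¹) ^ n)
      (fun j _ => pow_nonneg (inv_nonneg.2 (hd j).le) n) (Finset.mem_univ i)
  have hB1 : 0 < B + 1 := by linarith
  have hlow : ∀ i, b / (B + 1) ≤ d i := by
    intro i
    by_contra hlt
    push Not at hlt
    have h5 : B + 1 < b / d i := by
      rw [lt_div_iff₀ (hd i)]
      rw [lt_div_iff₀ hB1] at hlt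
      linarith
    have h6 : b / d i ≤ (b / d i) ^ n := by
      have h7 : (1 : ℝ) ≤ b / d i := by linarith
      calc b / d i = (b / d i) ^ 1 := (pow_one _).symm
        _ ≤ (b / d i) ^ n := pow_le_pow_right₀ h7 hn
    have h8 := hle i
    linarith
  have hX' : X - (b / (B + 1)) • (1 : Matrix m m ℝ) =
      O * Matrix.diagonal (fun i => d i - b / (B + 1)) * Oᵀ := by
    have h5 : Matrix.diagonal (fun i => d i - b / (B + 1)) =
        Matrix.diagonal d - (b / (B + 1)) • (1 : Matrix m m ℝ) := by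
      rw [Matrix.smul_one_eq_diagonal, Matrix.diagonal_sub]
    rw [h5, Matrix.mul_sub, Matrix.sub_mul, ← h3, Matrix.mul_smul, Matrix.smul_mul,
      Matrix.mul_one, h1]
  rw [hX']
  refine psd_conj ?_ O
  exact Matrix.PosSemidef.diagonal fun i => sub_nonneg.2 (hlow i)

end MSp
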