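import Pool.Agent.Lib.MSp.StateB
import Pool.Agent.Lib.MSp.Lower

/-!
# The set of admissible states is compact

Proof.  Let `c = b / (3 N + 1) > 0`.  By `trR_q`, `trS_p` (and `R = X⁻¹`, `S = Y⁻¹`, `q, p ≥ 1`) and
`lower_of_trace` with `B = 3N`, every admissible state satisfies `X ≥ c` and `Y ≥ c`.

Closed: the set is closed under limits of sequences (the space is metrizable; use `IsSeqClosed.isClosed`), or
write it as follows.  Suppose admissible states `z_n = (x_n, U_n, K_n)` converge to `(x, U, K)`.  The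
conditions `|x_i| ≤ 1`, `K ≥ 0`, `1 - K ≥ 0`, `e ≥ 0` are closed (positive semidefiniteness is
symmetry together with `0 ≤ z · P z` for all `z`, all closed conditions).  `X_n → X` (continuous in
`(x, U)`) and `X_n - c ≥ 0`, so `X - c ≥ 0`, so `X` is positive definite and `det X ≠ 0`; then
`X_n⁻¹ → X⁻¹` (the inverse is continuous at invertible matrices: `Matrix.inv_def`, `Ring.inverse` of the determinant is
continuous at nonzero, `adjugate` is continuous), hence `Y_n → Y` (`EC_continuous`) and `Y - c ≥ 0`, so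
`Y` is positive definite and `Y_n⁻¹ → Y⁻¹`; finally `F(z_n) → F(z)`, so `F(z) ≤ 2`.

Bounded: `|x_i| ≤ 1`; `0 ≤ K ≤ 1` gives `|K_ij| ≤ 1`; and `H(x-x0) ≤ U ≤ 3b` with
`-3b ≤ H(x-x0)` (`U_le`, `neg_H_le`, `X ≥ 0`) gives `-3b ≤ U ≤ 3b`, so `|U_ij| ≤ 3b`: for a symmetric
matrix with `-c ≤ M ≤ c` one has `|M_ij| ≤ c`, by polarisation
`4 M_ij = (e_i+e_j)·M(e_i+e_j) - (e_i-e_j)·M(e_i-e_j)`, at most `4c` for `i ≠ j` and similarly for
`i = j`.  A closed subset of a product of compact sets of the form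
`{|x_i| ≤ 1} × {|U_ij| ≤ 3b} × {|K_ij| ≤ 1}` (`isCompact_univ_pi` and `IsCompact.prod`) is compact.
-/

set_option autoImplicit false
set_option linter.unusedSectionVars false

open scoped Matrix Topology
open Filter

namespace MSp

variable {m κ : Type} [Fintype m] [DecidableEq m] [Fintype κ] [DecidableEq κ]

namespace CptAux

theorem isClosed_psd : IsClosed {P : Matrix m m ℝ | P.PosSemidef} := by
  have e : {P : Matrix m m ℝ | P.PosSemidef} =
      {P : Matrix m m ℝ | Pᵀ = P} ∩ ⋂ z : m → ℝ, {P : Matrix m m ℝ | 0 ≤ z ⬝ᵥ P *ᵥ z} := by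
    ext P
    constructor
    · intro h
      exact ⟨psd_sym h, Set.mem_iInter.2 fun z => psd_quad h z⟩
    · rintro ⟨h1, h2⟩
      exact psd_of_quad h1 fun z => Set.mem_iInter.1 h2 z
  rw [e]
  refine IsClosed.inter ?_ (isClosed_iInter fun z => ?_)
  · exact isClosed_eq (continuous_id.matrix_transpose) continuous_id
  · refine isClosed_le continuous_const ?_
    exact continuous_const.dotProduct (continuous_id.matrix_mulVec continuous_const)

theorem quad_two (P : Matrix m m ℝ) {i j : m} (s : ℝ) :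
    (Pi.single i 1 + s • Pi.single j 1) ⬝ᵥ P *ᵥ (Pi.single i 1 + s • Pi.single j 1) =
      P i i + s * P i j + s * P j i + s ^ 2 * P j j := by
  rw [Matrix.mulVec_add, Matrix.mulVec_smul, add_dotProduct, dotProduct_add, dotProduct_add,
    smul_dotProduct, smul_dotProduct, dotProduct_smul, dotProduct_smul]
  simp only [Matrix.mulVec_single_one, single_one_dotProduct, Matrix.col_apply, smul_eq_mul]
  ring

theorem entry_le {M : Matrix m m ℝ} {c : ℝ} (h1 : (c • (1 : Matrix m m ℝ) - M).PosSemidef)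
    (h2 : (c • (1 : Matrix m m ℝ) + M).PosSemidef) (i j : m) : |M i j| ≤ c := by
  have hs : M j i = M i j := by
    have h3 := psd_sym h2
    rw [Matrix.transpose_add, Matrix.transpose_smul, Matrix.transpose_one] at h3
    have h4 := add_left_cancel h3
    have h5 := congrFun (congrFun h4 i) j
    rwa [Matrix.transpose_apply] at h5
  by_cases hij : i = j
  · subst hij
    have a1 := psd_quad h1 (Pi.single i 1)
    have a2 := psd_quad h2 (Pi.single i 1)
    simp only [Matrix.mulVec_single_one, single_one_dotProduct, Matrix.col_apply,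
      Matrix.sub_apply, Matrix.add_apply, Matrix.smul_apply, Matrix.one_apply_eq,
      smul_eq_mul, mul_one] at a1 a2
    rw [abs_le]
    constructor <;> linarith
  · have hji : j ≠ i := fun h => hij h.symm
    have a1 := psd_quad h1 (Pi.single i 1 + (1 : ℝ) • Pi.single j 1)
    have a2 := psd_quad h1 (Pi.single i 1 + (-1 : ℝ) • Pi.single j 1)
    have a3 := psd_quad h2 (Pi.single i 1 + (1 : ℝ) • Pi.single j 1)
    have a4 := psd_quad h2 (Pi.single i 1 + (-1 : ℝ) • Pi.single j 1)
    rw [quad_two] at a1 a2 a3 a4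
    simp only [Matrix.sub_apply, Matrix.add_apply, Matrix.smul_apply, Matrix.one_apply_eq,
      Matrix.one_apply_ne hij, Matrix.one_apply_ne hji, smul_eq_mul, mul_one, mul_zero, hs]
      at a1 a2 a3 a4
    rw [abs_le]
    constructor <;> linarith

theorem continuousAt_inv {P : Matrix m m ℝ} (h : P.PosDef) :
    ContinuousAt (fun Q : Matrix m m ℝ => Q⁻¹) P := by
  have hd : P.det ≠ 0 := h.det_pos.ne'
  have e : (fun Q : Matrix m m ℝ => Q⁻¹) = fun Q : Matrix m m ℝ => Q.det⁻¹ • Q.adjugate := by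
    funext Q
    rw [Matrix.inv_def, Ring.inverse_eq_inv']
  rw [e]
  have h1 : Continuous fun Q : Matrix m m ℝ => Q.det := continuous_id.matrix_det
  have h2 : Continuous fun Q : Matrix m m ℝ => Q.adjugate := continuous_id.matrix_adjugate
  exact (h1.continuousAt.inv₀ hd).smul h2.continuousAt

theorem pd_of_sub {P : Matrix m m ℝ} {c : ℝ} (hc : 0 < c)
    (h : (P - c • (1 : Matrix m m ℝ)).PosSemidef) : P.PosDef := by
  have h1 : (c • (1 : Matrix m m ℝ)).PosDef := Matrix.PosDef.one.smul hc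
  have h2 := h1.add_posSemidef h
  rwa [add_sub_cancel] at h2

end CptAux

open CptAux

theorem good_compact (D : Dat m κ) :
    IsCompact {z : (κ → ℝ) × Matrix m m ℝ × Matrix κ κ ℝ | D.Good z.1 z.2.1 z.2.2} := by
  have hN := D.N_pos
  have hb := D.b_pos
  obtain ⟨c, hc⟩ : ∃ c : ℝ, c = D.b / (3 * D.N + 1) := ⟨_, rfl⟩
  have hc0 : 0 < c := by rw [hc]; positivity
  -- continuity
  have cx : Continuous fun z : (κ → ℝ) × Matrix m m ℝ × Matrix κ κ ℝ => z.1 := continuous_fst
  have cU : Continuous fun z : (κ → ℝ) × Matrix m m ℝ × Matrix κ κ ℝ => z.2.1 :=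
    continuous_fst.comp continuous_snd
  have cK : Continuous fun z : (κ → ℝ) × Matrix m m ℝ × Matrix κ κ ℝ => z.2.2 :=
    continuous_snd.comp continuous_snd
  have cxi : ∀ i, Continuous fun z : (κ → ℝ) × Matrix m m ℝ × Matrix κ κ ℝ => z.1 i := fun i =>
    (continuous_apply i).comp cx
  have cX : Continuous fun z : (κ → ℝ) × Matrix m m ℝ × Matrix κ κ ℝ => D.X z.1 z.2.1 := by
    unfold Dat.X H
    refine cU.sub (continuous_finsetSum _ fun i _ => ?_)
    exact ((cxi i).sub continuous_const).smul continuous_const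
  have ce : Continuous fun z : (κ → ℝ) × Matrix m m ℝ × Matrix κ κ ℝ => D.e z.1 := by
    unfold Dat.e
    exact (continuous_finsetSum _ fun i _ => (cxi i).pow 2).sub continuous_const
  have ct : Continuous fun z : (κ → ℝ) × Matrix m m ℝ × Matrix κ κ ℝ => D.tau z.1 := by
    unfold Dat.tau
    exact continuous_const.sub ((continuous_const.mul ce).div_const _)
  -- the first closed set
  obtain ⟨S1, hS1⟩ : ∃ S1 : Set ((κ → ℝ) × Matrix m m ℝ × Matrix κ κ ℝ),
      S1 = {z | (z.1 ∈ Set.univ.pi fun _ => Set.Icc (-1 : ℝ) 1) ∧ z.2.2.PosSemidef ∧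
        (1 - z.2.2).PosSemidef ∧ 0 ≤ D.e z.1 ∧
        (D.X z.1 z.2.1 - c • (1 : Matrix m m ℝ)).PosSemidef} := ⟨_, rfl⟩
  have cl1 : IsClosed S1 := by
    rw [hS1]
    refine IsClosed.inter ?_ (IsClosed.inter ?_ (IsClosed.inter ?_ (IsClosed.inter ?_ ?_)))
    · exact (isClosed_set_pi fun _ _ => isClosed_Icc).preimage cx
    · exact isClosed_psd.preimage cK
    · exact isClosed_psd.preimage (continuous_const.sub cK)
    · exact isClosed_le continuous_const ce
    · exact isClosed_psd.preimage (cX.sub continuous_const)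
  have cXi : ContinuousOn (fun z : (κ → ℝ) × Matrix m m ℝ × Matrix κ κ ℝ =>
      (D.X z.1 z.2.1)⁻¹) S1 := by
    intro z hz
    rw [hS1] at hz
    have h1 := pd_of_sub hc0 hz.2.2.2.2
    have h2 : ContinuousAt (fun z : (κ → ℝ) × Matrix m m ℝ × Matrix κ κ ℝ =>
        (D.X z.1 z.2.1)⁻¹) z :=
      ContinuousAt.comp (g := fun Q : Matrix m m ℝ => Q⁻¹) (continuousAt_inv h1) cX.continuousAt
    exact h2.continuousWithinAt
  have cEC : ContinuousOn (fun z : (κ → ℝ) × Matrix m m ℝ × Matrix κ κ ℝ =>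
      EC D.A z.2.2 (D.X z.1 z.2.1)⁻¹) S1 :=
    (EC_continuous D.A).comp_continuousOn (cK.continuousOn.prodMk cXi)
  have cY : ContinuousOn (fun z : (κ → ℝ) × Matrix m m ℝ × Matrix κ κ ℝ =>
      D.Y z.1 z.2.1 z.2.2) S1 := by
    unfold Dat.Y
    exact (continuousOn_const.sub cU.continuousOn).sub
      ((continuousOn_const.mul ct.continuousOn).smul cEC)
  -- the second closed set
  obtain ⟨S2, hS2⟩ : ∃ S2 : Set ((κ → ℝ) × Matrix m m ℝ × Matrix κ κ ℝ),
      S2 = S1 ∩ (fun z => D.Y z.1 z.2.1 z.2.2 - c • (1 : Matrix m m ℝ)) ⁻¹'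
        {P : Matrix m m ℝ | P.PosSemidef} := ⟨_, rfl⟩
  have cl2 : IsClosed S2 := by
    rw [hS2]
    exact (cY.sub continuousOn_const).preimage_isClosed_of_isClosed cl1 isClosed_psd
  have h21 : S2 ⊆ S1 := by
    rw [hS2]
    exact Set.inter_subset_left
  have cYi : ContinuousOn (fun z : (κ → ℝ) × Matrix m m ℝ × Matrix κ κ ℝ =>
      (D.Y z.1 z.2.1 z.2.2)⁻¹) S2 := by
    intro z hz
    have hz1 := h21 hz
    rw [hS2] at hz
    have h1 := pd_of_sub hc0 hz.2
    have h2 : ContinuousWithinAt (fun z : (κ → ℝ) × Matrix m m ℝ × Matrix κ κ ℝ =>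
        D.Y z.1 z.2.1 z.2.2) S2 z := (cY z hz1).mono h21
    exact ContinuousAt.comp_continuousWithinAt (g := fun Q : Matrix m m ℝ => Q⁻¹)
      (continuousAt_inv h1) h2
  have cF : ContinuousOn (fun z : (κ → ℝ) × Matrix m m ℝ × Matrix κ κ ℝ =>
      D.F z.1 z.2.1 z.2.2) S2 := by
    have ctr : Continuous fun Q : Matrix m m ℝ => Q.trace := continuous_id.matrix_trace
    have ctr' : Continuous fun Q : Matrix κ κ ℝ => Q.trace := continuous_id.matrix_trace
    unfold Dat.F
    refine ContinuousOn.sub (ContinuousOn.add (ContinuousOn.add ?_ ?_) ?_) ?_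
    · exact continuousOn_const.mul (ctr.comp_continuousOn ((cXi.mono h21).pow _))
    · exact continuousOn_const.mul (ctr.comp_continuousOn (cYi.pow _))
    · exact continuousOn_const.mul
        (ctr'.comp_continuousOn (continuousOn_const.sub cK.continuousOn))
    · exact (ce.div_const _).continuousOn
  -- the admissible set
  have hset : {z : (κ → ℝ) × Matrix m m ℝ × Matrix κ κ ℝ | D.Good z.1 z.2.1 z.2.2} =
      S2 ∩ (fun z => D.F z.1 z.2.1 z.2.2) ⁻¹' Set.Iic 2 := by
    ext z
    constructor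
    · intro h
      have h' : D.Good z.1 z.2.1 z.2.2 := h
      have h1 : (D.X z.1 z.2.1 - c • (1 : Matrix m m ℝ)).PosSemidef := by
        rw [hc]
        exact lower_of_trace h'.hX (n := D.q) (by unfold Dat.q; omega) hb (by positivity)
          (trR_q D h')
      have h2 : (D.Y z.1 z.2.1 z.2.2 - c • (1 : Matrix m m ℝ)).PosSemidef := by
        rw [hc]
        exact lower_of_trace h'.hY (n := D.p) (by unfold Dat.p; omega) hb (by positivity)
          (trS_p D h')
      refine ⟨?_, h'.hF⟩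
      rw [hS2]
      refine ⟨?_, h2⟩
      rw [hS1]
      exact ⟨fun i _ => abs_le.1 (h'.hx i), h'.hK, h'.hK1, h'.he, h1⟩
    · rintro ⟨h1, h2⟩
      have h3 := h21 h1
      rw [hS2] at h1
      rw [hS1] at h3
      obtain ⟨a1, a2, a3, a4, a5⟩ := h3
      exact ⟨fun i => abs_le.2 (a1 i (Set.mem_univ i)), a2, a3, a4, pd_of_sub hc0 a5,
        pd_of_sub hc0 h1.2, h2⟩
  have hcl : IsClosed {z : (κ → ℝ) × Matrix m m ℝ × Matrix κ κ ℝ |
      D.Good z.1 z.2.1 z.2.2} := by
    rw [hset]
    exact cF.preimage_isClosed_of_isClosed cl2 isClosed_Iic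
  -- the box
  have k1 : IsCompact (Set.univ.pi fun _ : κ => Set.Icc (-1 : ℝ) 1) :=
    isCompact_univ_pi fun _ => isCompact_Icc
  have k2 : IsCompact (Set.univ.pi fun _ : m => Set.univ.pi fun _ : m =>
      Set.Icc (-(3 * D.b)) (3 * D.b)) :=
    isCompact_univ_pi fun _ => isCompact_univ_pi fun _ => isCompact_Icc
  have k3 : IsCompact (Set.univ.pi fun _ : κ => Set.univ.pi fun _ : κ => Set.Icc (-1 : ℝ) 1) :=
    isCompact_univ_pi fun _ => isCompact_univ_pi fun _ => isCompact_Icc
  have k4 : IsCompact ((Set.univ.pi fun _ : κ => Set.Icc (-1 : ℝ) 1) ×ˢ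
      (({U : Matrix m m ℝ | ∀ i j, |U i j| ≤ 3 * D.b}) ×ˢ
        ({K : Matrix κ κ ℝ | ∀ i j, |K i j| ≤ 1}))) := by
    refine k1.prod (IsCompact.prod ?_ ?_)
    · have e : {U : Matrix m m ℝ | ∀ i j, |U i j| ≤ 3 * D.b} =
          (Set.univ.pi fun _ : m => Set.univ.pi fun _ : m =>
            Set.Icc (-(3 * D.b)) (3 * D.b) : Set (m → m → ℝ)) := by
        ext U
        exact ⟨fun h i _ j _ => abs_le.1 (h i j), fun h i j =>
          abs_le.2 (h i (Set.mem_univ i) j (Set.mem_univ j))⟩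
      rw [e]
      exact k2
    · have e : {K : Matrix κ κ ℝ | ∀ i j, |K i j| ≤ 1} =
          (Set.univ.pi fun _ : κ => Set.univ.pi fun _ : κ =>
            Set.Icc (-1 : ℝ) 1 : Set (κ → κ → ℝ)) := by
        ext K
        exact ⟨fun h i _ j _ => abs_le.1 (h i j), fun h i j =>
          abs_le.2 (h i (Set.mem_univ i) j (Set.mem_univ j))⟩
      rw [e]
      exact k3
  refine k4.of_isClosed_subset hcl ?_
  intro z h
  have h' : D.Good z.1 z.2.1 z.2.2 := h
  refine ⟨fun i _ => abs_le.1 (h'.hx i), ?_, ?_⟩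
  · refine entry_le (U_le D h') ?_
    have h1 := psd_add (neg_H_le D h') h'.hX.posSemidef
    have e : (3 * D.b) • (1 : Matrix m m ℝ) + H D.A (z.1 - D.x0) + D.X z.1 z.2.1 =
        (3 * D.b) • (1 : Matrix m m ℝ) + z.2.1 := by
      unfold Dat.X
      abel
    rwa [e] at h1
  · refine entry_le ?_ ?_
    · rw [one_smul]
      exact h'.hK1
    · rw [one_smul]
      exact psd_add psd_one h'.hK

end MSp
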