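import Pool.Agent.Lib.MSp.Psd

/-!
# Spectral cut of a positive semidefinite matrix

Proof.  Let `R = O diag(d) Oᵀ` with `d ≥ 0` (`spectral_psd`).  Put
`R0 = O diag(d_i if d_i ≤ r else 0) Oᵀ` and `R1 = O diag(0 if d_i ≤ r else d_i) Oᵀ`.  All matrices in
the statement are of the form `O diag(f) Oᵀ` (powers and products: `Oᵀ O = 1`; the unit matrix
is `O Oᵀ`), and such a matrix is positive semidefinite when all `f_i ≥ 0` (`psd_conj`, `Matrix.PosSemidef.diagonal`).
The inequalities for the diagonal entries: for `0 ≤ d ≤ r`: `r - d ≥ 0`, `r d - d^2 ≥ 0`; for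
`d > r > 0`: `d^(j+1) - r^j d ≥ 0`, `d^(j+2) - r^j d^2 ≥ 0`; the others are clear.
-/

set_option autoImplicit false
set_option linter.unusedSectionVars false

open scoped Matrix Topology
open Filter

namespace MSp

variable {m κ : Type} [Fintype m] [DecidableEq m] [Fintype κ] [DecidableEq κ]

namespace CutAux

theorem dg_mul {O : Matrix m m ℝ} (hO : Oᵀ * O = 1) (f g : m → ℝ) :
    (O * Matrix.diagonal f * Oᵀ) * (O * Matrix.diagonal g * Oᵀ) =
      O * Matrix.diagonal (fun i => f i * g i) * Oᵀ := by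
  calc (O * Matrix.diagonal f * Oᵀ) * (O * Matrix.diagonal g * Oᵀ)
      = O * Matrix.diagonal f * (Oᵀ * O) * Matrix.diagonal g * Oᵀ := by
        simp only [Matrix.mul_assoc]
    _ = O * Matrix.diagonal (fun i => f i * g i) * Oᵀ := by
        rw [hO, Matrix.mul_one, Matrix.mul_assoc O, Matrix.diagonal_mul_diagonal]

theorem dg_one {O : Matrix m m ℝ} (h1 : O * Oᵀ = 1) :
    (1 : Matrix m m ℝ) = O * Matrix.diagonal (fun _ => (1 : ℝ)) * Oᵀ := by
  rw [Matrix.diagonal_one, Matrix.mul_one, h1]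

theorem dg_pow {O : Matrix m m ℝ} (h1 : O * Oᵀ = 1) (hO : Oᵀ * O = 1) (f : m → ℝ) (n : ℕ) :
    (O * Matrix.diagonal f * Oᵀ) ^ n = O * Matrix.diagonal (fun i => f i ^ n) * Oᵀ := by
  induction n with
  | zero =>
    simp only [pow_zero]
    exact dg_one h1
  | succ n ih =>
    rw [pow_succ, ih, dg_mul hO]
    congr 3

theorem dg_smul (O : Matrix m m ℝ) (c : ℝ) (f : m → ℝ) :
    c • (O * Matrix.diagonal f * Oᵀ) = O * Matrix.diagonal (fun i => c * f i) * Oᵀ := by
  have h : Matrix.diagonal (fun i => c * f i) = c • Matrix.diagonal f := by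
    rw [← Matrix.diagonal_smul]
    rfl
  rw [h, Matrix.mul_smul, Matrix.smul_mul]

theorem dg_sub (O : Matrix m m ℝ) (f g : m → ℝ) :
    O * Matrix.diagonal f * Oᵀ - O * Matrix.diagonal g * Oᵀ =
      O * Matrix.diagonal (fun i => f i - g i) * Oᵀ := by
  rw [← Matrix.diagonal_sub, Matrix.mul_sub, Matrix.sub_mul]

theorem dg_add (O : Matrix m m ℝ) (f g : m → ℝ) :
    O * Matrix.diagonal f * Oᵀ + O * Matrix.diagonal g * Oᵀ =
      O * Matrix.diagonal (fun i => f i + g i) * Oᵀ := by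
  rw [← Matrix.diagonal_add, Matrix.mul_add, Matrix.add_mul]

theorem dg_psd (O : Matrix m m ℝ) {f : m → ℝ} (hf : ∀ i, 0 ≤ f i) :
    (O * Matrix.diagonal f * Oᵀ).PosSemidef :=
  psd_conj (Matrix.PosSemidef.diagonal hf) O

end CutAux

open CutAux in
theorem cut {R : Matrix m m ℝ} (hR : R.PosSemidef) {r : ℝ} (hr : 0 < r) :
    ∃ R0 R1 : Matrix m m ℝ, R0.PosSemidef ∧ R1.PosSemidef ∧ R0 + R1 = R ∧
      (r • (1 : Matrix m m ℝ) - R0).PosSemidef ∧ (r • R - R0 * R0).PosSemidef ∧
      (R * R - R0 * R0).PosSemidef ∧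
      (∀ j : ℕ, (R ^ (j + 1) - r ^ j • R1).PosSemidef) ∧
      (∀ j : ℕ, (R ^ (j + 2) - r ^ j • (R1 * R1)).PosSemidef) := by
  obtain ⟨O, d, h1, h2, h3, h4⟩ := spectral_psd hR
  refine ⟨O * Matrix.diagonal (fun i => if d i ≤ r then d i else 0) * Oᵀ,
    O * Matrix.diagonal (fun i => if d i ≤ r then 0 else d i) * Oᵀ,
    dg_psd O fun i => ?_, dg_psd O fun i => ?_, ?_, ?_, ?_, ?_, fun j => ?_, fun j => ?_⟩
  · split_ifs
    · exact h4 i
    · exact le_rfl
  · split_ifs
    · exact le_rfl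
    · exact h4 i
  · rw [dg_add, h3]
    congr 3
    funext i
    split_ifs <;> ring
  · rw [dg_one h1, dg_smul, dg_sub]
    refine dg_psd O fun i => ?_
    split_ifs with h
    · linarith
    · linarith
  · rw [dg_mul h2, h3, dg_smul, dg_sub]
    refine dg_psd O fun i => ?_
    have := h4 i
    split_ifs with h
    · nlinarith
    · nlinarith
  · rw [dg_mul h2, h3, dg_mul h2, dg_sub]
    refine dg_psd O fun i => ?_
    have := h4 i
    split_ifs with h
    · nlinarith
    · nlinarith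
  · rw [dg_smul, h3, dg_pow h1 h2, dg_sub]
    refine dg_psd O fun i => ?_
    have h5 := h4 i
    split_ifs with h
    · have : 0 ≤ d i ^ (j + 1) := pow_nonneg h5 _
      linarith
    · push Not at h
      have h6 : r ^ j ≤ d i ^ j := pow_le_pow_left₀ hr.le h.le j
      rw [pow_succ]
      have := mul_le_mul_of_nonneg_right h6 h5
      linarith
  · rw [dg_mul h2, dg_smul, h3, dg_pow h1 h2, dg_sub]
    refine dg_psd O fun i => ?_
    have h5 := h4 i
    split_ifs with h
    · have : 0 ≤ d i ^ (j + 2) := pow_nonneg h5 _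
      linarith
    · push Not at h
      have h6 : r ^ j ≤ d i ^ j := pow_le_pow_left₀ hr.le h.le j
      rw [pow_add, pow_two]
      have := mul_le_mul_of_nonneg_right h6 (mul_nonneg h5 h5)
      linarith

end MSp
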