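import Pool.Agent.Lib.MSp.Psd

/-!
# The constants of one round
-/

set_option autoImplicit false
set_option linter.unusedSectionVars false

open scoped Matrix Topology
open Filter

namespace MSp

variable {m κ : Type} [Fintype m] [DecidableEq m] [Fintype κ] [DecidableEq κ]

namespace Dat

variable (D : Dat m κ)

theorem eight_le_k : (8 : ℝ) ≤ D.k := by
  have := D.eight_le
  unfold k
  exact_mod_cast this

theorem k_pos : 0 < D.k := by linarith [D.eight_le_k]

theorem b_sq : D.b ^ 2 = 2400 * ((D.l : ℝ) + 2) * D.k := by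
  unfold b
  rw [Real.sq_sqrt]
  have := D.k_pos
  positivity

theorem b_pos : 0 < D.b := by
  unfold b
  have := D.k_pos
  exact Real.sqrt_pos.2 (by positivity)

theorem b_four : D.b ^ 4 = (2400 * ((D.l : ℝ) + 2) * D.k) ^ 2 := by
  rw [← D.b_sq]; ring

theorem al_pos : 0 < D.al := by
  unfold al; positivity

theorem q_cast : (D.q : ℝ) = (D.l : ℝ) + 4 := by
  unfold q; push_cast; ring

theorem p_cast : (D.p : ℝ) = (D.l : ℝ) + 1 := by
  unfold p; push_cast; ring

theorem one_le_l' : (1 : ℝ) ≤ (D.l : ℝ) := by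
  exact_mod_cast D.one_le_l

theorem al_eq : D.al = ((D.q : ℝ) + 1) / 2 := by
  rw [D.q_cast]; unfold al; ring

theorem three_le_al : 3 ≤ D.al := by
  have := D.one_le_l'
  unfold al; linarith

end Dat

end MSp
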