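import Mathlib

/-!
# Definitions for the matrix Spencer theorem

Everything is about real matrices over finite types.  `H A y` is the combination of the matrices
`A i` with coefficients `y i`; `EC A C M = ∑ C_ab A_a M A_b`; `Ex2 f f0 f1 f2` says that `f` has
the second order expansion `f0 + t f1 + t^2 f2 + o(t^2)` at `0`.

`Dat` bundles the data of one round of the colouring procedure, and `Good x U K` is the set of
admissible states, on which the potential `F` is at most 2.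
-/

set_option autoImplicit false

open scoped Matrix Topology
open Filter

namespace MSp

variable {m κ : Type} [Fintype m] [DecidableEq m] [Fintype κ] [DecidableEq κ]

/-- `H A y = ∑ y_i A_i`. -/
def H (A : κ → Matrix m m ℝ) (y : κ → ℝ) : Matrix m m ℝ := ∑ i, y i • A i

/-- `EC A C M = ∑ C_ab A_a M A_b`. -/
def EC (A : κ → Matrix m m ℝ) (C : Matrix κ κ ℝ) (M : Matrix m m ℝ) : Matrix m m ℝ :=
  ∑ a, ∑ c, C a c • (A a * M * A c)

/-- second order expansion at `0`: near `0` one has `f t = f0 + t f1 + t^2 g t` with `g`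
continuous at `0` and `g 0 = f2`. -/
def Ex2 {E : Type} [TopologicalSpace E] [AddCommGroup E] [Module ℝ E]
    (f : ℝ → E) (f0 f1 f2 : E) : Prop :=
  ∃ g : ℝ → E, ContinuousAt g 0 ∧ g 0 = f2 ∧ ∀ᶠ t in 𝓝 (0 : ℝ), f t = f0 + t • f1 + t ^ 2 • g t

/-- the data of one round: `k = card κ` symmetric matrices of norm at most one, a common
orthogonal `J` with `J A_i Jᵀ = - A_i`, a starting point `x0` of the cube, a number `N` at least
the size of the matrices and a parameter `l` with `(N/k)^2 ≤ 10^(l-1)`. -/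
structure Dat (m κ : Type) [Fintype m] [DecidableEq m] [Fintype κ] [DecidableEq κ] where
  A : κ → Matrix m m ℝ
  J : Matrix m m ℝ
  x0 : κ → ℝ
  N : ℝ
  l : ℕ
  symA : ∀ i, (A i)ᵀ = A i
  sqA : ∀ i, (1 - A i * A i).PosSemidef
  orthJ : J * Jᵀ = 1
  conjJ : ∀ i, J * A i * Jᵀ = - A i
  x0_le : ∀ i, |x0 i| ≤ 1
  card_le : (Fintype.card m : ℝ) ≤ N
  N_pos : 0 < N
  one_le_l : 1 ≤ l
  ratio : (N / (Fintype.card κ : ℝ)) ^ 2 ≤ 10 ^ (l - 1)
  eight_le : 8 ≤ Fintype.card κ

namespace Dat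

variable (D : Dat m κ)

/-- number of coordinates -/
noncomputable def k (_D : Dat m κ) : ℝ := (Fintype.card κ : ℝ)

/-- exponent of the inner potential -/
def q : ℕ := D.l + 4

/-- exponent of the outer potential -/
def p : ℕ := D.l + 1

/-- `α = (q + 1) / 2` -/
noncomputable def al : ℝ := ((D.l : ℝ) + 5) / 2

/-- the scale `b`, `b^2 = 2400 (l + 2) k` -/
noncomputable def b : ℝ := Real.sqrt (2400 * ((D.l : ℝ) + 2) * D.k)

/-- the energy -/
noncomputable def e (x : κ → ℝ) : ℝ := ∑ i, x i ^ 2 - ∑ i, D.x0 i ^ 2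

/-- the remaining time -/
noncomputable def tau (x : κ → ℝ) : ℝ := 16 - 8 * D.e x / D.k

/-- the inner barrier matrix -/
noncomputable def X (x : κ → ℝ) (U : Matrix m m ℝ) : Matrix m m ℝ := U - H D.A (x - D.x0)

/-- the outer barrier matrix -/
noncomputable def Y (x : κ → ℝ) (U : Matrix m m ℝ) (K : Matrix κ κ ℝ) : Matrix m m ℝ :=
  (3 * D.b) • (1 : Matrix m m ℝ) - U - (D.al * D.tau x) • EC D.A K (D.X x U)⁻¹

/-- the potential -/
noncomputable def F (x : κ → ℝ) (U : Matrix m m ℝ) (K : Matrix κ κ ℝ) : ℝ :=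
  D.b ^ D.q / D.N * ((D.X x U)⁻¹ ^ D.q).trace + D.b ^ D.p / D.N * ((D.Y x U K)⁻¹ ^ D.p).trace
    + 96 / D.k * (1 - K).trace - D.e x / D.k

/-- the admissible states -/
structure Good (x : κ → ℝ) (U : Matrix m m ℝ) (K : Matrix κ κ ℝ) : Prop where
  hx : ∀ i, |x i| ≤ 1
  hK : K.PosSemidef
  hK1 : (1 - K).PosSemidef
  he : 0 ≤ D.e x
  hX : (D.X x U).PosDef
  hY : (D.Y x U K).PosDef
  hF : D.F x U K ≤ 2

/-- `R = X⁻¹` -/
noncomputable def R (x : κ → ℝ) (U : Matrix m m ℝ) : Matrix m m ℝ := (D.X x U)⁻¹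

/-- `S = Y⁻¹` -/
noncomputable def S (x : κ → ℝ) (U : Matrix m m ℝ) (K : Matrix κ κ ℝ) : Matrix m m ℝ :=
  (D.Y x U K)⁻¹

/-- the first order change of `U + α τ E_K(R)` when `x` moves along `v` -/
noncomputable def Nz (x : κ → ℝ) (U : Matrix m m ℝ) (K : Matrix κ κ ℝ) (v : κ → ℝ) :
    Matrix m m ℝ :=
  (D.al * D.tau x) • EC D.A K (D.R x U * H D.A v * D.R x U)

/-- the second order change of `U + α τ E_K(R)` when `x` moves along `v` and `U` moves by
`t^2 V` -/
noncomputable def Dr (x : κ → ℝ) (U : Matrix m m ℝ) (K : Matrix κ κ ℝ) (v : κ → ℝ)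
    (V : Matrix m m ℝ) : Matrix m m ℝ :=
  V - (8 * D.al / D.k) • EC D.A K (D.R x U)
    + (D.al * D.tau x) • EC D.A K (D.R x U * H D.A v * D.R x U * H D.A v * D.R x U)
    - (D.al * D.tau x) • EC D.A K (D.R x U * V * D.R x U)

/-- the bound for the second order coefficient of the potential along `x + t v`, `U + t^2 V` -/
noncomputable def c2 (x : κ → ℝ) (U : Matrix m m ℝ) (K : Matrix κ κ ℝ) (v : κ → ℝ)
    (V : Matrix m m ℝ) : ℝ :=
  D.b ^ D.q / D.N * (-(D.q : ℝ) * (D.R x U ^ (D.q + 1) * V).trace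
      + (D.q : ℝ) * ((D.q : ℝ) + 1) / 2
        * (D.R x U ^ (D.q + 1) * H D.A v * D.R x U * H D.A v).trace)
    + D.b ^ D.p / D.N * ((D.p : ℝ) * (D.S x U K ^ (D.p + 1) * D.Dr x U K v V).trace
      + (D.p : ℝ) * ((D.p : ℝ) + 1) / 2
        * (D.S x U K ^ (D.p + 1) * D.Nz x U K v * D.S x U K * D.Nz x U K v).trace)
    - 1 / D.k

end Dat

end MSp
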