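import Pool.Agent.Lib.MSp.Psd

/-!
# The symmetric dilation of a matrix

Proofs.  `dil_sym`, `dil_J_orth`, `dil_J_conj`: block computation (`Matrix.fromBlocks_multiply`,
`Matrix.fromBlocks_transpose`, `Matrix.fromBlocks_neg`).
`dil_sq`: `(dil M)^2 = fromBlocks (M Mᵀ) 0 0 (Mᵀ M)`.  From `‖M‖ ≤ 1` (norm of the operator
`Matrix.toEuclideanCLM M` on `EuclideanSpace ℝ (Fin d)`) one gets `|M u| ≤ |u|` and `|Mᵀ u| ≤ |u|` for all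
`u` (for `Mᵀ`: `|Mᵀ u|^2 = u · M Mᵀ u ≤ |u| |M (Mᵀ u)| ≤ |u| |Mᵀ u|`), hence the quadratic form of
`1 - (dil M)^2` at `(u, u')` is `|u|^2 - |Mᵀ u|^2 + |u'|^2 - |M u'|^2 ≥ 0` (`psd_of_quad`).
`norm_of_dil`: for `u, u' : Fin d → ℝ` the quadratic form of `c 1 - dil M` at `(u, u')` is
`c |u|^2 + c |u'|^2 - 2 u · M u' ≥ 0`.  With `u = M u' t`: `2 t |M u'|^2 ≤ c |u'|^2 + c t^2 |M u'|^2`;
for `c > 0` take `t = 1/c`: `|M u'|^2 ≤ c^2 |u'|^2`; for `c = 0` take `t = 1`: `M u' = 0`.  So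
`|M u'| ≤ c |u'|` and `ContinuousLinearMap.opNorm_le_bound`.
-/

set_option autoImplicit false
set_option linter.unusedSectionVars false

open scoped Matrix Topology
open Filter

namespace MSp

variable {m κ : Type} [Fintype m] [DecidableEq m] [Fintype κ] [DecidableEq κ]

/-- the symmetric dilation -/
def dil {d : ℕ} (M : Matrix (Fin d) (Fin d) ℝ) : Matrix (Fin d ⊕ Fin d) (Fin d ⊕ Fin d) ℝ :=
  Matrix.fromBlocks 0 M Mᵀ 0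

/-- the reflection which changes the sign of the dilations -/
def dilJ (d : ℕ) : Matrix (Fin d ⊕ Fin d) (Fin d ⊕ Fin d) ℝ :=
  Matrix.fromBlocks 1 0 0 (-1)

theorem dil_sym {d : ℕ} (M : Matrix (Fin d) (Fin d) ℝ) : (dil M)ᵀ = dil M := by
  simp [dil, Matrix.fromBlocks_transpose]

theorem dil_J_orth (d : ℕ) : dilJ d * (dilJ d)ᵀ = 1 := by
  simp [dilJ, Matrix.fromBlocks_transpose, Matrix.fromBlocks_multiply]

theorem dil_J_conj {d : ℕ} (M : Matrix (Fin d) (Fin d) ℝ) :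
    dilJ d * dil M * (dilJ d)ᵀ = - dil M := by
  simp [dilJ, dil, Matrix.fromBlocks_transpose, Matrix.fromBlocks_multiply, Matrix.fromBlocks_neg]

theorem dil_sum {d n : ℕ} (c : Fin n → ℝ) (M : Fin n → Matrix (Fin d) (Fin d) ℝ) :
    H (fun i => dil (M i)) c = dil (∑ i, c i • M i) := by
  ext a b
  rcases a with a | a <;> rcases b with b | b <;>
    simp [H, dil, Matrix.sum_apply, Matrix.transpose_apply]

private theorem normsq {d : ℕ} (x : EuclideanSpace ℝ (Fin d)) :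
    ‖x‖ ^ 2 = x.ofLp ⬝ᵥ x.ofLp := by
  rw [EuclideanSpace.norm_sq_eq]
  simp [dotProduct, pow_two]

private theorem quad_le {d : ℕ} {M : Matrix (Fin d) (Fin d) ℝ}
    (h : ‖Matrix.toEuclideanCLM (𝕜 := ℝ) M‖ ≤ 1) (u : Fin d → ℝ) :
    (M *ᵥ u) ⬝ᵥ (M *ᵥ u) ≤ u ⬝ᵥ u := by
  have h1 := (Matrix.toEuclideanCLM (𝕜 := ℝ) M).le_of_opNorm_le h (WithLp.toLp 2 u)
  rw [one_mul] at h1
  have h2 := pow_le_pow_left₀ (norm_nonneg _) h1 2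
  rw [normsq, normsq] at h2
  simpa [Matrix.ofLp_toEuclideanCLM] using h2

private theorem quad_le' {d : ℕ} {M : Matrix (Fin d) (Fin d) ℝ}
    (h : ‖Matrix.toEuclideanCLM (𝕜 := ℝ) M‖ ≤ 1) (u : Fin d → ℝ) :
    (Mᵀ *ᵥ u) ⬝ᵥ (Mᵀ *ᵥ u) ≤ u ⬝ᵥ u := by
  -- `|u - M (Mᵀ u)|² ≥ 0`
  have h1 := quad_le h (Mᵀ *ᵥ u)
  have h2 : (Mᵀ *ᵥ u) ⬝ᵥ (Mᵀ *ᵥ u) = u ⬝ᵥ (M *ᵥ (Mᵀ *ᵥ u)) := by
    rw [Matrix.dotProduct_mulVec, ← Matrix.mulVec_transpose]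
    simp [dotProduct_comm]
  have h3 : 0 ≤ (u - M *ᵥ (Mᵀ *ᵥ u)) ⬝ᵥ (u - M *ᵥ (Mᵀ *ᵥ u)) := by
    simpa using dotProduct_star_self_nonneg (u - M *ᵥ (Mᵀ *ᵥ u))
  rw [sub_dotProduct, dotProduct_sub, dotProduct_sub,
    dotProduct_comm (M *ᵥ (Mᵀ *ᵥ u)) u, ← h2] at h3
  linarith

theorem dil_sq {d : ℕ} {M : Matrix (Fin d) (Fin d) ℝ}
    (h : ‖Matrix.toEuclideanCLM (𝕜 := ℝ) M‖ ≤ 1) : (1 - dil M * dil M).PosSemidef := by
  refine psd_of_quad ?_ fun z => ?_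
  · rw [Matrix.transpose_sub, Matrix.transpose_mul, dil_sym, Matrix.transpose_one]
  · have e : dil M * dil M = Matrix.fromBlocks (M * Mᵀ) 0 0 (Mᵀ * M) := by
      simp [dil, Matrix.fromBlocks_multiply]
    obtain ⟨u, v, rfl⟩ : ∃ u v : Fin d → ℝ, z = Sum.elim u v :=
      ⟨z ∘ Sum.inl, z ∘ Sum.inr, (Sum.elim_comp_inl_inr z).symm⟩
    rw [Matrix.sub_mulVec, Matrix.one_mulVec, e, Matrix.fromBlocks_mulVec, dotProduct_sub]
    simp only [Sum.elim_comp_inl, Sum.elim_comp_inr, Matrix.zero_mulVec, add_zero, zero_add,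
      sumElim_dotProduct_sumElim]
    have h1 := quad_le h v
    have h2 := quad_le' h u
    have h3 : (Mᵀ *ᵥ u) ⬝ᵥ (Mᵀ *ᵥ u) = u ⬝ᵥ ((M * Mᵀ) *ᵥ u) := by
      rw [← Matrix.mulVec_mulVec, Matrix.dotProduct_mulVec u M, ← Matrix.mulVec_transpose]
    have h4 : (M *ᵥ v) ⬝ᵥ (M *ᵥ v) = v ⬝ᵥ ((Mᵀ * M) *ᵥ v) := by
      rw [← Matrix.mulVec_mulVec, Matrix.dotProduct_mulVec v Mᵀ, ← Matrix.mulVec_transpose,
        Matrix.transpose_transpose]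
    rw [← h3, ← h4]
    linarith

theorem norm_of_dil {d : ℕ} {M : Matrix (Fin d) (Fin d) ℝ} {c : ℝ} (hc : 0 ≤ c)
    (h : (c • (1 : Matrix (Fin d ⊕ Fin d) (Fin d ⊕ Fin d) ℝ) - dil M).PosSemidef) :
    ‖Matrix.toEuclideanCLM (𝕜 := ℝ) M‖ ≤ c := by
  have key : ∀ (t : ℝ) (v : Fin d → ℝ),
      2 * t * ((M *ᵥ v) ⬝ᵥ (M *ᵥ v)) ≤ c * (v ⬝ᵥ v) + c * t ^ 2 * ((M *ᵥ v) ⬝ᵥ (M *ᵥ v)) := by
    intro t v
    have h1 := psd_quad h (Sum.elim (t • M *ᵥ v) v)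
    have h2 : Mᵀ *ᵥ (M *ᵥ v) ⬝ᵥ v = (M *ᵥ v) ⬝ᵥ (M *ᵥ v) := by
      rw [Matrix.mulVec_transpose, ← Matrix.dotProduct_mulVec]
    rw [Matrix.sub_mulVec, Matrix.smul_mulVec, Matrix.one_mulVec, dil,
      Matrix.fromBlocks_mulVec, dotProduct_sub] at h1
    simp only [Sum.elim_comp_inl, Sum.elim_comp_inr, Matrix.zero_mulVec, add_zero, smul_zero,
      zero_add, sumElim_dotProduct_sumElim, dotProduct_smul, smul_dotProduct, Matrix.mulVec_smul,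
      smul_eq_mul] at h1
    rw [dotProduct_comm v (Mᵀ *ᵥ (M *ᵥ v)), h2] at h1
    linarith [h1]
  refine ContinuousLinearMap.opNorm_le_bound _ hc fun x => ?_
  rw [← sq_le_sq₀ (norm_nonneg _) (by positivity), mul_pow, normsq, normsq,
    Matrix.ofLp_toEuclideanCLM]
  rcases hc.eq_or_lt with rfl | hc
  · have := key 1 x.ofLp
    simp only [zero_mul, mul_one, add_zero] at this
    have h0 : (0:ℝ) ^ 2 = 0 := by norm_num
    rw [h0, zero_mul]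
    linarith
  · have := key (1 / c) x.ofLp
    have h2 : c * (1 / c) ^ 2 = 1 / c := by field_simp
    rw [h2] at this
    have h3 : (1 / c) * ((M *ᵥ x.ofLp) ⬝ᵥ (M *ᵥ x.ofLp)) ≤ c * (x.ofLp ⬝ᵥ x.ofLp) := by linarith
    have h4 := mul_le_mul_of_nonneg_left h3 hc.le
    have h5 : c * (1 / c * ((M *ᵥ x.ofLp) ⬝ᵥ (M *ᵥ x.ofLp))) =
        (M *ᵥ x.ofLp) ⬝ᵥ (M *ᵥ x.ofLp) := by field_simp
    rw [h5] at h4
    calc _ ≤ _ := h4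
      _ = _ := by ring

end MSp
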