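import Pool.Agent.Lib.MSp.StateB

/-!
# The average second order change of the outer barrier

Names: `R = D.R x U` (positive definite), `Hj = H D.A (v j)`, `E = ∑_i Hj R Hj`, `EK = EC D.A K`,
`V = (al/w) E`, `tau = D.tau x`.

Proof.  Summing the definition of `Dr` over `j` (`w` terms; `EC` is linear, `EC_sum_right`,
`EC_smul_right`): `∑_j Dr_j = al E - (8 al w/k) EK(R) + al tau EK(R E R) - al^2 tau EK(R E R)`.
`E = EC D.A (∑_j v_j v_jᵀ) R` (`EC_vecMulVec`, `EC_sum_left`), so `E ≤ 2 EK(R)` by `EC_mono_left` and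
`hKv`; moreover `2 ≤ 8 w / k` and `EK(R) ≥ 0`.  Therefore `al E ≤ (8 al w/k) EK(R)` and
`∑_j tr (T Dr_j) ≤ (al tau - al^2 tau) tr (T EK(R E R)) = - al (al-1) tau tr (T EK(R E R))`
(`trace_mono`).
-/

set_option autoImplicit false
set_option linter.unusedSectionVars false

open scoped Matrix Topology
open Filter

namespace MSp

variable {m κ : Type} [Fintype m] [DecidableEq m] [Fintype κ] [DecidableEq κ]

theorem drift_Y (D : Dat m κ) {x : κ → ℝ} {U : Matrix m m ℝ} {K : Matrix κ κ ℝ}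
    (h : D.Good x U K) {w : ℕ} (hw : Fintype.card κ ≤ 4 * w) (v : Fin w → κ → ℝ)
    (hKv : (K - (1 / 2 : ℝ) • ∑ j, Matrix.vecMulVec (v j) (v j)).PosSemidef)
    {T : Matrix m m ℝ} (hT : T.PosSemidef) :
    ∑ j, (T * D.Dr x U K (v j)
        ((D.al / (w : ℝ)) • ∑ i, H D.A (v i) * D.R x U * H D.A (v i))).trace
      ≤ -(D.al * (D.al - 1) * D.tau x)
        * (T * EC D.A K (D.R x U * (∑ i, H D.A (v i) * D.R x U * H D.A (v i)) * D.R x U)).trace := by
  have hRp : (D.R x U).PosSemidef := (pd_inv h.hX).posSemidef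
  set R : Matrix m m ℝ := D.R x U with hR
  set E : Matrix m m ℝ := ∑ i, H D.A (v i) * R * H D.A (v i) with hE
  have hw0 : 0 < w := by have := D.eight_le; omega
  have hwr : (0 : ℝ) < w := by exact_mod_cast hw0
  have hk := D.k_pos
  have hal := D.al_pos
  have h1 : ∑ j, EC D.A K (R * H D.A (v j) * R * H D.A (v j) * R) = EC D.A K (R * E * R) := by
    rw [← EC_sum_right]
    congr 1
    rw [hE, Finset.mul_sum, Finset.sum_mul]
    refine Finset.sum_congr rfl fun j _ => ?_
    simp only [Matrix.mul_assoc]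
  have h2 : EC D.A K (R * ((D.al / (w : ℝ)) • E) * R) = (D.al / (w : ℝ)) • EC D.A K (R * E * R) := by
    rw [← EC_smul_right, Matrix.mul_smul, Matrix.smul_mul]
  have hsum : ∑ j, D.Dr x U K (v j) ((D.al / (w : ℝ)) • E)
      = D.al • E - (8 * D.al * w / D.k) • EC D.A K R
        + (D.al * D.tau x) • EC D.A K (R * E * R)
        - (D.al ^ 2 * D.tau x) • EC D.A K (R * E * R) := by
    simp only [Dat.Dr, Finset.sum_sub_distrib, Finset.sum_add_distrib, Finset.sum_const,
      Finset.card_univ, Fintype.card_fin, ← Finset.smul_sum, ← hR, h1, h2]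
    rw [← Nat.cast_smul_eq_nsmul ℝ, ← Nat.cast_smul_eq_nsmul ℝ, ← Nat.cast_smul_eq_nsmul ℝ]
    simp only [smul_smul]
    have e1 : (w : ℝ) * (D.al / (w : ℝ)) = D.al := by field_simp
    have e2 : (w : ℝ) * (8 * D.al / D.k) = 8 * D.al * w / D.k := by ring
    have e3 : (w : ℝ) * (D.al * D.tau x * (D.al / (w : ℝ))) = D.al ^ 2 * D.tau x := by
      field_simp
    rw [e1, e2, e3]
  have hEE : E = EC D.A (∑ j, Matrix.vecMulVec (v j) (v j)) R := by
    rw [EC_sum_left, hE]
    refine Finset.sum_congr rfl fun j _ => ?_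
    rw [EC_vecMulVec]
  have hmono : (EC D.A K R - (1 / 2 : ℝ) • E).PosSemidef := by
    have := EC_mono_left D.symA hKv hRp
    rwa [EC_smul_left, ← hEE] at this
  have hECR : (EC D.A K R).PosSemidef := EC_psd D.symA h.hK hRp
  have ht1 : (T * E).trace ≤ 2 * (T * EC D.A K R).trace := by
    have := trace_mono hT hmono
    rw [Matrix.mul_smul, Matrix.trace_smul, smul_eq_mul] at this
    linarith
  have ht0 : 0 ≤ (T * EC D.A K R).trace := psd_trace_nonneg hT hECR
  have hkw : D.k ≤ 4 * (w : ℝ) := by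
    unfold Dat.k
    exact_mod_cast hw
  have hc : 2 * D.al ≤ 8 * D.al * w / D.k := by
    rw [le_div_iff₀ hk]
    nlinarith
  have hfin : D.al * (T * E).trace ≤ 8 * D.al * w / D.k * (T * EC D.A K R).trace := by
    calc D.al * (T * E).trace ≤ D.al * (2 * (T * EC D.A K R).trace) :=
          mul_le_mul_of_nonneg_left ht1 hal.le
      _ = 2 * D.al * (T * EC D.A K R).trace := by ring
      _ ≤ _ := mul_le_mul_of_nonneg_right hc ht0
  have hlhs : ∑ j, (T * D.Dr x U K (v j) ((D.al / (w : ℝ)) • E)).trace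
      = D.al * (T * E).trace - 8 * D.al * w / D.k * (T * EC D.A K R).trace
        + D.al * D.tau x * (T * EC D.A K (R * E * R)).trace
        - D.al ^ 2 * D.tau x * (T * EC D.A K (R * E * R)).trace := by
    rw [← Matrix.trace_sum, ← Finset.mul_sum, hsum]
    simp only [Matrix.mul_sub, Matrix.mul_add, Matrix.mul_smul, Matrix.trace_sub,
      Matrix.trace_add, Matrix.trace_smul, smul_eq_mul]
  rw [hlhs]
  linarith

end MSp
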