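import Pool.Agent.Lib.MSp.DB

/-!
# The final numerical estimates

Proof of `num_absorb`.  `D.k (10/b)^2 = 100 k / (2400 (l+2) k) = 1/(24 (l+2))` (`b_sq`), so the left side is
`p (p+1) al^2 tau^2 / (24 (l+2)) g = p al^2 tau^2 g / 24` (`p + 1 = l + 2`), and
`al tau / 24 ≤ 16 al / 24 ≤ al - 1` because `al ≥ 3`.

Proof of `num_rest`.  By the bounds for `s1`, `s` (all factors are nonnegative) the left side is at most
`b^p/N p(p+1)/2 al^2 tau^2 2 k etaS [128 N/b^4 3 N/(10^l b) + 96 N/(10^l b^4) 4 N/b]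
 = b^p/N p (p+1) al^2 tau^2 k (72 N/(k b^l p al)) 768 N^2/(10^l b^5)
 = 55296 (p+1) al tau^2 N^2/(10^l b^4)` (`p = l+1`), and `b^4 = (2400 (l+2) k)^2`, `tau^2 ≤ 256`,
`(N/k)^2 ≤ 10^(l-1) = 10^l/10`, so it is at most
`55296 * 256 (l+2) al / (10 * 5760000 (l+2)^2) = 0.2457.. al/(l+2) < 1/4`, because
`al = (l+5)/2 ≤ l+2` for `l ≥ 1` and `55296 * 256 = 14155776 < 14400000 = 57600000/4`.
-/

set_option autoImplicit false
set_option linter.unusedSectionVars false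

open scoped Matrix Topology
open Filter

namespace MSp

variable {m κ : Type} [Fintype m] [DecidableEq m] [Fintype κ] [DecidableEq κ]

theorem num_absorb (D : Dat m κ) {tau g : ℝ} (ht : 0 ≤ tau) (ht' : tau ≤ 16) (hg : 0 ≤ g) :
    (D.p : ℝ) * ((D.p : ℝ) + 1) / 2 * (D.al * tau) ^ 2
        * (2 * (10 / D.b * (10 / D.b) * D.k * g))
      ≤ (D.p : ℝ) * (D.al * (D.al - 1) * tau) * g := by
  have hb := D.b_sq
  have hbp := D.b_pos
  have hk := D.k_pos
  have hl := D.one_le_l'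
  have hal := D.three_le_al
  have hp := D.p_cast
  have hbb : 10 / D.b * (10 / D.b) * D.k = 1 / (24 * ((D.l : ℝ) + 2)) := by
    have h1 : 10 / D.b * (10 / D.b) = 100 / D.b ^ 2 := by
      field_simp
      norm_num
    rw [h1, hb]
    field_simp
    norm_num
  rw [hbb, hp]
  have hl2 : (0 : ℝ) < (D.l : ℝ) + 2 := by linarith
  have e1 : ((D.l : ℝ) + 1) * (((D.l : ℝ) + 1) + 1) / 2 * (D.al * tau) ^ 2
        * (2 * (1 / (24 * ((D.l : ℝ) + 2)) * g))
      = ((D.l : ℝ) + 1) * D.al * tau * g * (D.al * tau / 24) := by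
    field_simp
    ring
  rw [e1]
  have e2 : ((D.l : ℝ) + 1) * (D.al * (D.al - 1) * tau) * g
      = ((D.l : ℝ) + 1) * D.al * tau * g * (D.al - 1) := by ring
  rw [e2]
  apply mul_le_mul_of_nonneg_left
  · nlinarith
  · have : 0 ≤ D.al := by linarith
    positivity

theorem num_rest (D : Dat m κ) {tau s1 s : ℝ} (ht : 0 ≤ tau) (ht' : tau ≤ 16) (hs1 : 0 ≤ s1)
    (hs : 0 ≤ s) (hs1' : s1 ≤ 3 * D.N / (10 ^ D.l * D.b)) (hs' : s ≤ 4 * D.N / D.b) :
    D.b ^ D.p / D.N * ((D.p : ℝ) * ((D.p : ℝ) + 1) / 2 * (D.al * tau) ^ 2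
      * (2 * (128 * D.N / D.b ^ 4 * (72 * D.N / (D.k * D.b ^ D.l * (D.p : ℝ) * D.al)) * D.k * s1)
        + 2 * (96 * D.N / (10 ^ D.l * D.b ^ 4)
            * (72 * D.N / (D.k * D.b ^ D.l * (D.p : ℝ) * D.al)) * D.k * s))) < 1 / 4 := by
  have hb4 := D.b_four
  have hbp := D.b_pos
  have hk := D.k_pos
  have hl := D.one_le_l'
  have hal := D.three_le_al
  have hp := D.p_cast
  have hN := D.N_pos
  have hrat := D.ratio
  have hal0 : 0 < D.al := by linarith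
  have hl2 : (0 : ℝ) < (D.l : ℝ) + 2 := by linarith
  have hl1 : (0 : ℝ) < (D.l : ℝ) + 1 := by linarith
  have hale : D.al ≤ (D.l : ℝ) + 2 := by
    unfold Dat.al
    linarith
  have hP : (0 : ℝ) < 10 ^ D.l := by positivity
  have hB : (0 : ℝ) < D.b ^ D.l := by positivity
  have hpow : D.b ^ D.p = D.b ^ D.l * D.b := by
    unfold Dat.p
    rw [pow_succ]
  have hP1 : (10 : ℝ) ^ D.l = 10 * 10 ^ (D.l - 1) := by
    have h1 := D.one_le_l
    conv_lhs => rw [show D.l = (D.l - 1) + 1 by omega]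
    rw [pow_succ]
    ring
  have hratio : D.N ^ 2 ≤ D.k ^ 2 * 10 ^ D.l / 10 := by
    have h2 : (D.N / D.k) ^ 2 ≤ 10 ^ (D.l - 1) := hrat
    rw [div_pow, div_le_iff₀ (by positivity)] at h2
    rw [hP1]
    linarith
  -- first step: replace s1, s by their bounds
  set P : ℝ := 10 ^ D.l with hPdef
  set B : ℝ := D.b ^ D.l with hBdef
  have hstep : 128 * D.N / D.b ^ 4 * s1 + 96 * D.N / (P * D.b ^ 4) * s
      ≤ 768 * D.N ^ 2 / (P * D.b ^ 5) := by
    have h1 : 128 * D.N / D.b ^ 4 * s1 ≤ 128 * D.N / D.b ^ 4 * (3 * D.N / (P * D.b)) :=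
      mul_le_mul_of_nonneg_left hs1' (by positivity)
    have h2 : 96 * D.N / (P * D.b ^ 4) * s ≤ 96 * D.N / (P * D.b ^ 4) * (4 * D.N / D.b) :=
      mul_le_mul_of_nonneg_left hs' (by positivity)
    have h3 : 128 * D.N / D.b ^ 4 * (3 * D.N / (P * D.b))
        + 96 * D.N / (P * D.b ^ 4) * (4 * D.N / D.b) = 768 * D.N ^ 2 / (P * D.b ^ 5) := by
      field_simp
      ring
    linarith
  have hlhs : D.b ^ D.p / D.N * ((D.p : ℝ) * ((D.p : ℝ) + 1) / 2 * (D.al * tau) ^ 2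
      * (2 * (128 * D.N / D.b ^ 4 * (72 * D.N / (D.k * B * (D.p : ℝ) * D.al)) * D.k * s1)
        + 2 * (96 * D.N / (P * D.b ^ 4)
            * (72 * D.N / (D.k * B * (D.p : ℝ) * D.al)) * D.k * s)))
      = 72 * D.b * ((D.l : ℝ) + 2) * D.al * tau ^ 2
        * (128 * D.N / D.b ^ 4 * s1 + 96 * D.N / (P * D.b ^ 4) * s) := by
    rw [hpow, hp]
    field_simp
    ring
  rw [hlhs]
  have h5 : 72 * D.b * ((D.l : ℝ) + 2) * D.al * tau ^ 2
        * (128 * D.N / D.b ^ 4 * s1 + 96 * D.N / (P * D.b ^ 4) * s)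
      ≤ 72 * D.b * ((D.l : ℝ) + 2) * D.al * tau ^ 2 * (768 * D.N ^ 2 / (P * D.b ^ 5)) :=
    mul_le_mul_of_nonneg_left hstep (by positivity)
  have h6 : 72 * D.b * ((D.l : ℝ) + 2) * D.al * tau ^ 2 * (768 * D.N ^ 2 / (P * D.b ^ 5))
      = 55296 * (((D.l : ℝ) + 2) * D.al * tau ^ 2) * (D.N ^ 2 / (P * D.b ^ 4)) := by
    field_simp
    ring
  have h7 : D.N ^ 2 / (P * D.b ^ 4) ≤ 1 / (57600000 * ((D.l : ℝ) + 2) ^ 2) := by
    rw [hb4, div_le_div_iff₀ (by positivity) (by positivity)]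
    have : D.N ^ 2 * (57600000 * ((D.l : ℝ) + 2) ^ 2)
        ≤ D.k ^ 2 * P / 10 * (57600000 * ((D.l : ℝ) + 2) ^ 2) :=
      mul_le_mul_of_nonneg_right hratio (by positivity)
    calc _ ≤ _ := this
      _ = 1 * (P * (2400 * ((D.l : ℝ) + 2) * D.k) ^ 2) := by ring
  have h8 : tau ^ 2 ≤ 256 := by nlinarith
  have h9 : ((D.l : ℝ) + 2) * D.al * tau ^ 2 ≤ ((D.l : ℝ) + 2) * ((D.l : ℝ) + 2) * 256 := by
    apply mul_le_mul _ h8 (by positivity) (by positivity)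
    exact mul_le_mul_of_nonneg_left hale hl2.le
  calc _ ≤ _ := h5
    _ = _ := h6
    _ ≤ 55296 * (((D.l : ℝ) + 2) * ((D.l : ℝ) + 2) * 256)
        * (1 / (57600000 * ((D.l : ℝ) + 2) ^ 2)) := by
      apply mul_le_mul _ h7 (by positivity) (by positivity)
      exact mul_le_mul_of_nonneg_left h9 (by norm_num)
    _ = 55296 * 256 / 57600000 := by
      field_simp
    _ < 1 / 4 := by norm_num

end MSp
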