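import Pool.Agent.Lib.MSp.ECb

/-!
# The crossing bound

Proof.  Write `T1 = P Pᵀ`, `T2 = Q Qᵀ` (`psd_factor`), `f_c = H A (G · c)` (symmetric), so that
`EC A (G Gᵀ) M = ∑_c f_c M f_c` (`EC_factor`).  Put `a^c = Pᵀ f_c`, `b^c = f_c Q` and
`Z_j = Pᵀ (EC A (G Gᵀ) (M_j)) Q = ∑_c a^c M_j b^c`.  Then
`tr (T1 E(M_j) T2 E(M_j)ᵀ) = tr (Z_j Z_jᵀ) = ∑_{u,v} (Z_j)_{uv}^2` (cyclicity of the trace), and
`(Z_j)_{uv} = ∑_{s,t} (M_j)_{st} B^{uv}_{st}` with `B^{uv}_{st} = ∑_c a^c_{us} b^c_{tv}`.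

Step 1 (duality).  From `hM`, for every matrix `B`, `∑_j <M_j, B>^2 ≤ etaM * <B, B>`, where
`<M, B> = ∑_{s,t} M_{st} B_{st}`: put `y_j = <M_j, B>`, `W = ∑_j y_j M_j`; then
`∑ y_j^2 = <W, B>`, `<W, B>^2 ≤ <W, W> <B, B> ≤ etaM (∑ y_j^2) <B, B>` (Cauchy-Schwarz,
`tr (W Wᵀ) = <W, W>`); divide by `∑ y_j^2` if it is positive.

Step 2.  So `∑_j ∑_{u,v} (Z_j)_{uv}^2 ≤ etaM ∑_{u,v,s,t} (∑_c a^c_{us} b^c_{tv})^2`.  For fixed
`(t, v)` put `g_c = b^c_{tv}`; then `∑_c g_c a^c = Pᵀ H A (G *ᵥ g)` because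
`∑_c g_c f_c = H A (G *ᵥ g)`, hence
`∑_{u,s} (∑_c g_c a^c_{us})^2 = tr (Pᵀ H H P) = tr (T1 H H) ≤ etaS ∑_c g_c^2`, `H = H A (G *ᵥ g)`, by `hS`.
Summing over `(t, v)`: at most `etaS ∑_c ∑_{t,v} (b^c_{tv})^2 = etaS ∑_c tr (f_c Q Qᵀ f_c)
= etaS tr (T2 ∑_c f_c f_c) = etaS tr (T2 EC A (G Gᵀ) 1)`.
-/

set_option autoImplicit false
set_option linter.unusedSectionVars false

open scoped Matrix Topology
open Filter

namespace MSp

variable {m κ : Type} [Fintype m] [DecidableEq m] [Fintype κ] [DecidableEq κ]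

namespace HSAux

theorem trace_mul_transpose_eq (X : Matrix m m ℝ) :
    (X * Xᵀ).trace = ∑ u, ∑ v, X u v ^ 2 := by
  unfold Matrix.trace
  refine Finset.sum_congr rfl fun u _ => ?_
  rw [Matrix.diag_apply, Matrix.mul_apply]
  refine Finset.sum_congr rfl fun v _ => ?_
  rw [Matrix.transpose_apply]
  ring

/-- duality -/
theorem dual {ω : Type} [Fintype ω] (M : ω → Matrix m m ℝ) {etaM : ℝ}
    (hM : ∀ y : ω → ℝ,
      ((∑ j, y j • M j) * (∑ j, y j • M j)ᵀ).trace ≤ etaM * ∑ j, y j ^ 2) (hetaM : 0 ≤ etaM)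
    (B : Matrix m m ℝ) :
    ∑ j, (∑ s, ∑ t, M j s t * B s t) ^ 2 ≤ etaM * ∑ s, ∑ t, B s t ^ 2 := by
  set y : ω → ℝ := fun j => ∑ s, ∑ t, M j s t * B s t with hy
  set W : Matrix m m ℝ := ∑ j, y j • M j with hW
  have hWe : ∀ s t, W s t = ∑ j, y j * M j s t := by
    intro s t
    rw [hW, Matrix.sum_apply]
    rfl
  have h1 : ∑ j, y j ^ 2 = ∑ s, ∑ t, W s t * B s t := by
    have e1 : ∀ j, y j ^ 2 = ∑ s, ∑ t, (y j * M j s t) * B s t := by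
      intro j
      have : y j ^ 2 = y j * ∑ s, ∑ t, M j s t * B s t := by rw [sq]
      rw [this, Finset.mul_sum]
      refine Finset.sum_congr rfl fun s _ => ?_
      rw [Finset.mul_sum]
      exact Finset.sum_congr rfl fun t _ => by ring
    rw [Finset.sum_congr rfl fun j _ => e1 j, Finset.sum_comm]
    refine Finset.sum_congr rfl fun s _ => ?_
    rw [Finset.sum_comm]
    refine Finset.sum_congr rfl fun t _ => ?_
    rw [hWe, Finset.sum_mul]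
  have h2 : (∑ s, ∑ t, W s t * B s t) ^ 2 ≤ (∑ s, ∑ t, W s t ^ 2) * ∑ s, ∑ t, B s t ^ 2 := by
    have := Finset.sum_mul_sq_le_sq_mul_sq (Finset.univ : Finset (m × m))
      (fun p => W p.1 p.2) (fun p => B p.1 p.2)
    simpa only [Fintype.sum_prod_type] using this
  have h3 : ∑ s, ∑ t, W s t ^ 2 ≤ etaM * ∑ j, y j ^ 2 := by
    rw [← trace_mul_transpose_eq]
    exact hM y
  have hB : 0 ≤ ∑ s, ∑ t, B s t ^ 2 :=
    Finset.sum_nonneg fun s _ => Finset.sum_nonneg fun t _ => sq_nonneg _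
  have h4 : (∑ j, y j ^ 2) ^ 2 ≤ (etaM * ∑ s, ∑ t, B s t ^ 2) * ∑ j, y j ^ 2 := by
    calc (∑ j, y j ^ 2) ^ 2 = (∑ s, ∑ t, W s t * B s t) ^ 2 := by rw [h1]
      _ ≤ (∑ s, ∑ t, W s t ^ 2) * ∑ s, ∑ t, B s t ^ 2 := h2
      _ ≤ (etaM * ∑ j, y j ^ 2) * ∑ s, ∑ t, B s t ^ 2 := mul_le_mul_of_nonneg_right h3 hB
      _ = _ := by ring
  rcases (Finset.sum_nonneg fun j (_ : j ∈ Finset.univ) => sq_nonneg (y j)).eq_or_lt with h0 | h0
  · rw [← h0]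
    exact mul_nonneg hetaM hB
  · rw [sq] at h4
    exact le_of_mul_le_mul_right h4 h0

theorem sum_entry (P Q : Matrix m m ℝ) (f : κ → Matrix m m ℝ) (M : Matrix m m ℝ) (u v : m) :
    (Pᵀ * (∑ c, f c * M * f c) * Q) u v
      = ∑ s, ∑ t, M s t * ∑ c, (Pᵀ * f c) u s * (f c * Q) t v := by
  have e1 : Pᵀ * (∑ c, f c * M * f c) * Q = ∑ c, (Pᵀ * f c) * M * (f c * Q) := by
    rw [Finset.mul_sum, Finset.sum_mul]
    refine Finset.sum_congr rfl fun c _ => ?_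
    simp only [Matrix.mul_assoc]
  have e2 : ∀ c, ((Pᵀ * f c) * M * (f c * Q)) u v
      = ∑ s, ∑ t, M s t * ((Pᵀ * f c) u s * (f c * Q) t v) := by
    intro c
    rw [Matrix.mul_apply, Finset.sum_comm]
    refine Finset.sum_congr rfl fun t _ => ?_
    rw [Matrix.mul_apply, Finset.sum_mul]
    refine Finset.sum_congr rfl fun s _ => ?_
    ring
  rw [e1, Matrix.sum_apply, Finset.sum_congr rfl fun c _ => e2 c, Finset.sum_comm]
  refine Finset.sum_congr rfl fun s _ => ?_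
  rw [Finset.sum_comm]
  refine Finset.sum_congr rfl fun t _ => ?_
  rw [Finset.mul_sum]

theorem H_mulVec (A : κ → Matrix m m ℝ) (G : Matrix κ κ ℝ) (g : κ → ℝ) :
    H A (G *ᵥ g) = ∑ c, g c • H A (fun a => G a c) := by
  unfold H
  simp only [Finset.smul_sum, smul_smul]
  rw [Finset.sum_comm]
  refine Finset.sum_congr rfl fun a _ => ?_
  rw [← Finset.sum_smul]
  congr 1
  unfold Matrix.mulVec dotProduct
  exact Finset.sum_congr rfl fun c _ => mul_comm _ _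

end HSAux

theorem crossing {ω : Type} [Fintype ω] {A : κ → Matrix m m ℝ} (hA : ∀ i, (A i)ᵀ = A i)
    (G : Matrix κ κ ℝ) (M : ω → Matrix m m ℝ) {T1 T2 : Matrix m m ℝ} (hT1 : T1.PosSemidef)
    (hT2 : T2.PosSemidef) {etaM etaS : ℝ} (hetaM : 0 ≤ etaM) (hetaS : 0 ≤ etaS)
    (hM : ∀ y : ω → ℝ,
      ((∑ j, y j • M j) * (∑ j, y j • M j)ᵀ).trace ≤ etaM * ∑ j, y j ^ 2)
    (hS : ∀ g : κ → ℝ, (T1 * H A (G *ᵥ g) * H A (G *ᵥ g)).trace ≤ etaS * ∑ c, g c ^ 2) :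
    ∑ j, (T1 * EC A (G * Gᵀ) (M j) * T2 * (EC A (G * Gᵀ) (M j))ᵀ).trace
      ≤ etaM * etaS * (T2 * EC A (G * Gᵀ) 1).trace := by
  obtain ⟨P, rfl⟩ := psd_factor hT1
  obtain ⟨Q, rfl⟩ := psd_factor hT2
  set f : κ → Matrix m m ℝ := fun c => H A (fun a => G a c) with hf
  have hfs : ∀ c, (f c)ᵀ = f c := fun c => H_transpose A hA _
  have hE : ∀ N : Matrix m m ℝ, EC A (G * Gᵀ) N = ∑ c, f c * N * f c := fun N => EC_factor A G N
  -- the left side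
  have hL : ∀ j, (P * Pᵀ * EC A (G * Gᵀ) (M j) * (Q * Qᵀ) * (EC A (G * Gᵀ) (M j))ᵀ).trace
      = ∑ u, ∑ v, (∑ s, ∑ t, M j s t * ∑ c, (Pᵀ * f c) u s * (f c * Q) t v) ^ 2 := by
    intro j
    have e1 : (P * Pᵀ * EC A (G * Gᵀ) (M j) * (Q * Qᵀ) * (EC A (G * Gᵀ) (M j))ᵀ).trace
        = ((Pᵀ * EC A (G * Gᵀ) (M j) * Q) * (Pᵀ * EC A (G * Gᵀ) (M j) * Q)ᵀ).trace := by
      rw [Matrix.transpose_mul, Matrix.transpose_mul, Matrix.transpose_transpose]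
      have : P * Pᵀ * EC A (G * Gᵀ) (M j) * (Q * Qᵀ) * (EC A (G * Gᵀ) (M j))ᵀ
          = P * (Pᵀ * EC A (G * Gᵀ) (M j) * (Q * Qᵀ) * (EC A (G * Gᵀ) (M j))ᵀ) := by
        simp only [Matrix.mul_assoc]
      rw [this, Matrix.trace_mul_comm]
      simp only [Matrix.mul_assoc]
    rw [e1, HSAux.trace_mul_transpose_eq]
    refine Finset.sum_congr rfl fun u _ => Finset.sum_congr rfl fun v _ => ?_
    rw [hE, HSAux.sum_entry]
  rw [Finset.sum_congr rfl fun j _ => hL j]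
  -- step 1
  have h1 : ∑ j, ∑ u, ∑ v, (∑ s, ∑ t, M j s t * ∑ c, (Pᵀ * f c) u s * (f c * Q) t v) ^ 2
      ≤ ∑ u, ∑ v, etaM * ∑ s, ∑ t, (∑ c, (Pᵀ * f c) u s * (f c * Q) t v) ^ 2 := by
    rw [Finset.sum_comm]
    refine Finset.sum_le_sum fun u _ => ?_
    rw [Finset.sum_comm]
    refine Finset.sum_le_sum fun v _ => ?_
    exact HSAux.dual M hM hetaM (fun s t => ∑ c, (Pᵀ * f c) u s * (f c * Q) t v)
  refine h1.trans ?_
  -- step 2
  have h2 : ∀ g : κ → ℝ, ∑ u, ∑ s, (∑ c, (Pᵀ * f c) u s * g c) ^ 2 ≤ etaS * ∑ c, g c ^ 2 := by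
    intro g
    have e1 : ∀ u s, ∑ c, (Pᵀ * f c) u s * g c = (Pᵀ * H A (G *ᵥ g)) u s := by
      intro u s
      rw [HSAux.H_mulVec, Finset.mul_sum, Matrix.sum_apply]
      refine Finset.sum_congr rfl fun c _ => ?_
      rw [Matrix.mul_smul, Matrix.smul_apply, smul_eq_mul, mul_comm]
    have e2 : ∑ u, ∑ s, (∑ c, (Pᵀ * f c) u s * g c) ^ 2
        = (P * Pᵀ * H A (G *ᵥ g) * H A (G *ᵥ g)).trace := by
      have e3 : (P * Pᵀ * H A (G *ᵥ g) * H A (G *ᵥ g)).trace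
          = ((Pᵀ * H A (G *ᵥ g)) * (Pᵀ * H A (G *ᵥ g))ᵀ).trace := by
        rw [Matrix.transpose_mul, Matrix.transpose_transpose, H_transpose A hA]
        have : P * Pᵀ * H A (G *ᵥ g) * H A (G *ᵥ g)
            = P * (Pᵀ * H A (G *ᵥ g) * H A (G *ᵥ g)) := by
          simp only [Matrix.mul_assoc]
        rw [this, Matrix.trace_mul_comm]
        simp only [Matrix.mul_assoc]
      rw [e3, HSAux.trace_mul_transpose_eq]
      exact Finset.sum_congr rfl fun u _ => Finset.sum_congr rfl fun s _ => by rw [e1]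
    rw [e2]
    exact hS g
  have h3 : ∑ u, ∑ v, etaM * ∑ s, ∑ t, (∑ c, (Pᵀ * f c) u s * (f c * Q) t v) ^ 2
      = etaM * ∑ v, ∑ t, ∑ u, ∑ s, (∑ c, (Pᵀ * f c) u s * (f c * Q) t v) ^ 2 := by
    rw [Finset.mul_sum, Finset.sum_comm]
    refine Finset.sum_congr rfl fun v _ => ?_
    rw [← Finset.mul_sum]
    congr 1
    have : ∀ u, ∑ s, ∑ t, (∑ c, (Pᵀ * f c) u s * (f c * Q) t v) ^ 2
        = ∑ t, ∑ s, (∑ c, (Pᵀ * f c) u s * (f c * Q) t v) ^ 2 := fun u => Finset.sum_comm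
    rw [Finset.sum_congr rfl fun u _ => this u, Finset.sum_comm]
  rw [h3, mul_assoc]
  refine mul_le_mul_of_nonneg_left ?_ hetaM
  have h4 : ∑ v, ∑ t, ∑ u, ∑ s, (∑ c, (Pᵀ * f c) u s * (f c * Q) t v) ^ 2
      ≤ ∑ v, ∑ t, etaS * ∑ c, (f c * Q) t v ^ 2 :=
    Finset.sum_le_sum fun v _ => Finset.sum_le_sum fun t _ => h2 fun c => (f c * Q) t v
  refine h4.trans (le_of_eq ?_)
  have h5 : (Q * Qᵀ * EC A (G * Gᵀ) 1).trace = ∑ c, ∑ t, ∑ v, (f c * Q) t v ^ 2 := by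
    rw [hE, Finset.mul_sum, Matrix.trace_sum]
    refine Finset.sum_congr rfl fun c _ => ?_
    rw [← HSAux.trace_mul_transpose_eq, Matrix.transpose_mul, hfs, Matrix.mul_one,
      Matrix.trace_mul_comm]
    have : f c * f c * (Q * Qᵀ) = f c * (f c * (Q * Qᵀ)) := Matrix.mul_assoc _ _ _
    rw [this, Matrix.trace_mul_comm]
    simp only [Matrix.mul_assoc]
  rw [h5]
  have h6 : ∑ c, ∑ t, ∑ v, (f c * Q) t v ^ 2 = ∑ v, ∑ t, ∑ c, (f c * Q) t v ^ 2 := by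
    rw [Finset.sum_comm]
    have : ∀ t, ∑ c, ∑ v, (f c * Q) t v ^ 2 = ∑ v, ∑ c, (f c * Q) t v ^ 2 :=
      fun t => Finset.sum_comm
    rw [Finset.sum_congr rfl fun t _ => this t, Finset.sum_comm]
  rw [h6, Finset.mul_sum]
  refine Finset.sum_congr rfl fun v _ => ?_
  rw [Finset.mul_sum]

end MSp
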