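import Pool.Agent.Lib.MSp.KS
import Pool.Agent.Lib.MSp.HS

/-!
# The bound for the noise of the outer barrier

Names: `E = EC A K`, `H_j = H A (v j)`, `k = card κ`, `X_j = E (R H_j R)` (symmetric,
`EC_transpose`), `P_j = E (R H_j R0)`, `Q_j = E (R H_j R1)`, so `X_j = P_j + Q_j` (`hRR`, `EC_add_right`).

Proof.  `S = S0 + S1` and, for `T, B` positive semidefinite,
`tr (T (P+Q) B (P+Q)ᵀ) ≤ 2 tr (T P B Pᵀ) + 2 tr (T Q B Qᵀ)` because
`(P+Q) B (P+Q)ᵀ + (P-Q) B (P-Q)ᵀ = 2 P B Pᵀ + 2 Q B Qᵀ` (`psd_conj`, `psd_trace_nonneg`).  Hence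
`tr (T X_j S X_j) ≤ 2 tr (T P_j S0 P_jᵀ) + 2 tr (T P_j S1 P_jᵀ) + 2 tr (T Q_j S Q_jᵀ)`.
(1) `S0 ≤ r`: `tr (T P_j S0 P_jᵀ) ≤ r tr (T P_j P_jᵀ)`; `kadison_schwarz` with `M = R H_j R0`:
`P_j P_jᵀ ≤ k E (R H_j R0 R0 H_j R) ≤ k r E (R H_j R H_j R)` (`hR0`, `psd_conj`, `EC_mono_right`).  Sum
over `j` (`EC_sum_right`, linearity): at most `r r k tr (T E (R (∑ H_j R H_j) R))`.
(2) `crossing` with `M_j = R H_j R0`, `T1 = T`, `T2 = S1`, `etaM = eta0`: here
`∑ y_j M_j = R H A (∑ y_j v_j) R0` (`H_sum`) and `tr (M Mᵀ) = tr (R R H R0 R0 H)` (cyclicity); the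
result is `eta0 etaS tr (S1 E 1) ≤ eta0 etaS k tr S1` (`EC_one_le`, `trace_mono`).
(3) `crossing` with `M_j = R H_j R1`, `T2 = S`, `etaM = eta1`: at most `eta1 etaS k tr S`.
-/

set_option autoImplicit false
set_option linter.unusedSectionVars false

open scoped Matrix Topology
open Filter

namespace MSp

variable {m κ : Type} [Fintype m] [DecidableEq m] [Fintype κ] [DecidableEq κ]

namespace SplitAux

/-- the parallelogram inequality -/
theorem par {T B : Matrix m m ℝ} (hT : T.PosSemidef) (hB : B.PosSemidef) (P Q : Matrix m m ℝ) :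
    (T * (P + Q) * B * (P + Q)ᵀ).trace
      ≤ 2 * (T * P * B * Pᵀ).trace + 2 * (T * Q * B * Qᵀ).trace := by
  have h1 : 0 ≤ (T * ((P - Q) * B * (P - Q)ᵀ)).trace := psd_trace_nonneg hT (psd_conj hB _)
  have h2 : (T * (P + Q) * B * (P + Q)ᵀ) + (T * ((P - Q) * B * (P - Q)ᵀ))
      = (2 : ℝ) • (T * P * B * Pᵀ) + (2 : ℝ) • (T * Q * B * Qᵀ) := by
    rw [Matrix.transpose_add, Matrix.transpose_sub]
    simp only [Matrix.mul_add, Matrix.add_mul, Matrix.mul_sub, Matrix.sub_mul, ← Matrix.mul_assoc,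
      two_smul]
    abel
  have h3 := congrArg Matrix.trace h2
  rw [Matrix.trace_add, Matrix.trace_add, Matrix.trace_smul, Matrix.trace_smul, smul_eq_mul,
    smul_eq_mul] at h3
  linarith

theorem cross_part {A : κ → Matrix m m ℝ} (hA : ∀ i, (A i)ᵀ = A i)
    (hA1 : ∀ i, (1 - A i * A i).PosSemidef) {G : Matrix κ κ ℝ}
    (hK1 : (1 - G * Gᵀ).PosSemidef) {R R0 S T : Matrix m m ℝ} (hR : Rᵀ = R) (hR0 : R0ᵀ = R0)
    (hS : S.PosSemidef) (hT : T.PosSemidef) {w : ℕ} (v : Fin w → κ → ℝ)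
    {eta0 etaS : ℝ} (h0n : 0 ≤ eta0) (hSn : 0 ≤ etaS)
    (h0 : ∀ y : Fin w → ℝ, (R * R * H A (∑ j, y j • v j) * (R0 * R0) * H A (∑ j, y j • v j)).trace
      ≤ eta0 * ∑ j, y j ^ 2)
    (hSS : ∀ g : κ → ℝ, (T * H A (G *ᵥ g) * H A (G *ᵥ g)).trace ≤ etaS * ∑ c, g c ^ 2) :
    ∑ j, (T * EC A (G * Gᵀ) (R * H A (v j) * R0) * S
        * (EC A (G * Gᵀ) (R * H A (v j) * R0))ᵀ).trace
      ≤ eta0 * etaS * (Fintype.card κ : ℝ) * S.trace := by
  have h1 := crossing hA G (fun j => R * H A (v j) * R0) hT hS h0n hSn (fun y => by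
    have e1 : ∑ j, y j • (R * H A (v j) * R0) = R * H A (∑ j, y j • v j) * R0 := by
      rw [H_sum, Finset.mul_sum, Finset.sum_mul]
      exact Finset.sum_congr rfl fun j _ => by
        rw [Matrix.mul_smul, Matrix.smul_mul]
    rw [e1]
    refine le_trans (le_of_eq ?_) (h0 y)
    rw [Matrix.transpose_mul, Matrix.transpose_mul, hR0, hR, H_transpose A hA]
    rw [← Matrix.mul_assoc, ← Matrix.mul_assoc, Matrix.trace_mul_comm]
    simp only [Matrix.mul_assoc]) hSS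
  refine h1.trans ?_
  have h2 := trace_mono hS (EC_one_le hA hA1 hK1)
  rw [Matrix.mul_smul, Matrix.mul_one, Matrix.trace_smul, smul_eq_mul] at h2
  calc eta0 * etaS * (S * EC A (G * Gᵀ) 1).trace
      ≤ eta0 * etaS * ((Fintype.card κ : ℝ) * S.trace) :=
        mul_le_mul_of_nonneg_left h2 (mul_nonneg h0n hSn)
    _ = _ := by ring

end SplitAux

open SplitAux in
theorem split_bound {A : κ → Matrix m m ℝ} (hA : ∀ i, (A i)ᵀ = A i)
    (hA1 : ∀ i, (1 - A i * A i).PosSemidef) {K G : Matrix κ κ ℝ} (hG : K = G * Gᵀ)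
    (hK1 : (1 - K).PosSemidef) {R R0 R1 S S0 S1 T : Matrix m m ℝ} (hR : R.PosSemidef)
    (hR0p : R0.PosSemidef) (hR1p : R1.PosSemidef) (hRR : R0 + R1 = R)
    (hS0p : S0.PosSemidef) (hS1p : S1.PosSemidef) (hSS : S0 + S1 = S) (hT : T.PosSemidef)
    {r : ℝ} (hr : 0 ≤ r) (hR0 : (r • R - R0 * R0).PosSemidef)
    (hS0 : (r • (1 : Matrix m m ℝ) - S0).PosSemidef) {w : ℕ} (v : Fin w → κ → ℝ)
    {eta0 eta1 etaS : ℝ} (h0n : 0 ≤ eta0) (h1n : 0 ≤ eta1) (hSn : 0 ≤ etaS)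
    (h0 : ∀ y : Fin w → ℝ, (R * R * H A (∑ j, y j • v j) * (R0 * R0) * H A (∑ j, y j • v j)).trace
      ≤ eta0 * ∑ j, y j ^ 2)
    (h1 : ∀ y : Fin w → ℝ, (R * R * H A (∑ j, y j • v j) * (R1 * R1) * H A (∑ j, y j • v j)).trace
      ≤ eta1 * ∑ j, y j ^ 2)
    (hS : ∀ g : κ → ℝ, (T * H A (G *ᵥ g) * H A (G *ᵥ g)).trace ≤ etaS * ∑ c, g c ^ 2) :
    ∑ j, (T * EC A K (R * H A (v j) * R) * S * EC A K (R * H A (v j) * R)).trace
      ≤ 2 * (r * r * (Fintype.card κ : ℝ)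
          * (T * EC A K (R * (∑ j, H A (v j) * R * H A (v j)) * R)).trace)
        + 2 * (eta0 * etaS * (Fintype.card κ : ℝ) * S1.trace)
        + 2 * (eta1 * etaS * (Fintype.card κ : ℝ) * S.trace) := by
  subst hG
  have hKp : (G * Gᵀ).PosSemidef := psd_mul_transpose G
  have hRt := psd_sym hR
  have hR0t := psd_sym hR0p
  have hR1t := psd_sym hR1p
  have hSp : S.PosSemidef := by
    rw [← hSS]
    exact psd_add hS0p hS1p
  have hHt : ∀ j, (H A (v j))ᵀ = H A (v j) := fun j => H_transpose A hA (v j)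
  have hmain : ∀ j, (T * EC A (G * Gᵀ) (R * H A (v j) * R) * S
        * EC A (G * Gᵀ) (R * H A (v j) * R)).trace
      ≤ 2 * (r * r * (Fintype.card κ : ℝ)
          * (T * EC A (G * Gᵀ) (R * (H A (v j) * R * H A (v j)) * R)).trace)
        + 2 * (T * EC A (G * Gᵀ) (R * H A (v j) * R0) * S1
            * (EC A (G * Gᵀ) (R * H A (v j) * R0))ᵀ).trace
        + 2 * (T * EC A (G * Gᵀ) (R * H A (v j) * R1) * S
            * (EC A (G * Gᵀ) (R * H A (v j) * R1))ᵀ).trace := by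
    intro j
    set Hj := H A (v j) with hHj
    set P := EC A (G * Gᵀ) (R * Hj * R0) with hP
    set Q := EC A (G * Gᵀ) (R * Hj * R1) with hQ
    have hX : EC A (G * Gᵀ) (R * Hj * R) = P + Q := by
      rw [hP, hQ, ← EC_add_right, ← Matrix.mul_add, hRR]
    have hXt : (P + Q)ᵀ = P + Q := by
      rw [← hX, EC_transpose hA (psd_sym hKp)]
      congr 1
      rw [Matrix.transpose_mul, Matrix.transpose_mul, hRt, hHt j, Matrix.mul_assoc]
    have h1 := par hT hSp P Q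
    rw [hXt] at h1
    rw [hX]
    have h2 : (T * P * S * Pᵀ).trace = (T * P * S0 * Pᵀ).trace + (T * P * S1 * Pᵀ).trace := by
      rw [← Matrix.trace_add, ← hSS, Matrix.mul_add, Matrix.add_mul]
    have h3 : (T * P * S0 * Pᵀ).trace ≤ r * (T * (P * Pᵀ)).trace := by
      have h4 : (Pᵀ * T * P).PosSemidef := by
        have := psd_conj hT Pᵀ
        rwa [Matrix.transpose_transpose] at this
      have h5 := trace_mono h4 hS0
      have e1 : (T * P * S0 * Pᵀ).trace = (Pᵀ * T * P * S0).trace := by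
        rw [Matrix.trace_mul_comm]
        simp only [Matrix.mul_assoc]
      have e2 : (Pᵀ * T * P * (r • (1 : Matrix m m ℝ))).trace = r * (T * (P * Pᵀ)).trace := by
        rw [Matrix.mul_smul, Matrix.mul_one, Matrix.trace_smul, smul_eq_mul, Matrix.mul_assoc,
          Matrix.trace_mul_comm, Matrix.mul_assoc]
      rw [e1, ← e2]
      exact h5
    have h6 : (T * (P * Pᵀ)).trace
        ≤ (Fintype.card κ : ℝ) * (T * EC A (G * Gᵀ) ((R * Hj * R0) * (R * Hj * R0)ᵀ)).trace := by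
      have := trace_mono hT (kadison_schwarz hA hA1 hKp hK1 (R * Hj * R0))
      rw [Matrix.mul_smul, Matrix.trace_smul, smul_eq_mul] at this
      exact this
    have h7 : (T * EC A (G * Gᵀ) ((R * Hj * R0) * (R * Hj * R0)ᵀ)).trace
        ≤ r * (T * EC A (G * Gᵀ) (R * (Hj * R * Hj) * R)).trace := by
      have h8 := psd_conj hR0 (R * Hj)
      have e3 : R * Hj * (r • R - R0 * R0) * (R * Hj)ᵀ
          = r • (R * (Hj * R * Hj) * R) - (R * Hj * R0) * (R * Hj * R0)ᵀ := by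
        rw [Matrix.transpose_mul, Matrix.transpose_mul, Matrix.transpose_mul, hR0t, hRt, hHt j,
          ← hHj]
        simp only [Matrix.mul_sub, Matrix.sub_mul, Matrix.mul_smul, Matrix.smul_mul,
          Matrix.mul_assoc]
      rw [e3] at h8
      have h9 := trace_mono hT (EC_mono_right hA hKp h8)
      rw [EC_smul_right, Matrix.mul_smul, Matrix.trace_smul, smul_eq_mul] at h9
      exact h9
    have hk : (0 : ℝ) ≤ (Fintype.card κ : ℝ) := Nat.cast_nonneg _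
    have h10 : (T * P * S0 * Pᵀ).trace
        ≤ r * r * (Fintype.card κ : ℝ) * (T * EC A (G * Gᵀ) (R * (Hj * R * Hj) * R)).trace := by
      calc (T * P * S0 * Pᵀ).trace ≤ r * (T * (P * Pᵀ)).trace := h3
        _ ≤ r * ((Fintype.card κ : ℝ)
            * (T * EC A (G * Gᵀ) ((R * Hj * R0) * (R * Hj * R0)ᵀ)).trace) :=
          mul_le_mul_of_nonneg_left h6 hr
        _ ≤ r * ((Fintype.card κ : ℝ)
            * (r * (T * EC A (G * Gᵀ) (R * (Hj * R * Hj) * R)).trace)) :=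
          mul_le_mul_of_nonneg_left (mul_le_mul_of_nonneg_left h7 hk) hr
        _ = _ := by ring
    rw [h2] at h1
    linarith
  have hsum := Finset.sum_le_sum fun j (_ : j ∈ (Finset.univ : Finset (Fin w))) => hmain j
  refine hsum.trans ?_
  rw [Finset.sum_add_distrib, Finset.sum_add_distrib, ← Finset.mul_sum, ← Finset.mul_sum,
    ← Finset.mul_sum, ← Finset.mul_sum]
  have c0 := cross_part hA hA1 hK1 hRt hR0t hS1p hT v h0n hSn h0 hS
  have c1 := cross_part hA hA1 hK1 hRt hR1t hSp hT v h1n hSn h1 hS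
  have e5 : ∑ j, (T * EC A (G * Gᵀ) (R * (H A (v j) * R * H A (v j)) * R)).trace
      = (T * EC A (G * Gᵀ) (R * (∑ j, H A (v j) * R * H A (v j)) * R)).trace := by
    rw [Finset.mul_sum, Finset.sum_mul, EC_sum_right, Finset.mul_sum, Matrix.trace_sum]
  rw [e5]
  linarith

end MSp
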