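import Pool.Agent.Lib.MSp.Psd

/-!
# Positive definiteness is an open condition

Proof.  If `m` is empty every matrix is positive definite.  Otherwise let `f 0 = O diag(d) Oᵀ`
(`spectral`), where all `d_i > 0` (test with `O e_i`), and let `c > 0` be the minimum of the `d_i`, so
that `z · (f 0) z ≥ c |z|^2`.  By continuity of the entries at `0`, near `0` one has
`|(f t - f 0)_{ij}| ≤ c / (2 n)`, `n = card m`, and then
`|z · (f t - f 0) z| ≤ c/(2n) (∑ |z_i|)^2 ≤ (c/2) |z|^2`.  So `z · (f t) z ≥ (c/2)|z|^2 > 0` for `z ≠ 0`; with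
the symmetry of `f t` this is positive definiteness (`Matrix.posDef_iff_dotProduct_mulVec` or
`Matrix.PosDef.of_dotProduct_mulVec_pos`).
-/

set_option autoImplicit false
set_option linter.unusedSectionVars false

open scoped Matrix Topology
open Filter

namespace MSp

variable {m κ : Type} [Fintype m] [DecidableEq m] [Fintype κ] [DecidableEq κ]

namespace OpenPDAux

theorem quad_lower {M : Matrix m m ℝ} {ε : ℝ} (hM : ∀ i j, |M i j| ≤ ε) (z : m → ℝ) :
    -(ε * Fintype.card m * ∑ i, z i ^ 2) ≤ z ⬝ᵥ M *ᵥ z := by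
  have h1 : ∀ i j, -(ε * ((z i ^ 2 + z j ^ 2) / 2)) ≤ z i * (M i j * z j) := by
    intro i j
    have h2 : |z i * (M i j * z j)| ≤ ε * ((z i ^ 2 + z j ^ 2) / 2) := by
      rw [abs_mul, abs_mul]
      have h3 : |z i| * |z j| ≤ (z i ^ 2 + z j ^ 2) / 2 := by
        have := sq_nonneg (|z i| - |z j|)
        rw [← sq_abs (z i), ← sq_abs (z j)]
        linarith [this]
      have h4 : 0 ≤ |z i| * |z j| := by positivity
      calc |z i| * (|M i j| * |z j|) = |M i j| * (|z i| * |z j|) := by ring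
        _ ≤ ε * ((z i ^ 2 + z j ^ 2) / 2) := by
            refine mul_le_mul (hM i j) h3 h4 ((abs_nonneg _).trans (hM i j))
    exact (abs_le.1 h2).1
  have h5 : z ⬝ᵥ M *ᵥ z = ∑ i, ∑ j, z i * (M i j * z j) := by
    simp only [dotProduct, Matrix.mulVec, Finset.mul_sum]
  rw [h5]
  calc -(ε * Fintype.card m * ∑ i, z i ^ 2) = ∑ i, ∑ j, -(ε * ((z i ^ 2 + z j ^ 2) / 2)) := by
        simp only [Finset.sum_neg_distrib, ← Finset.mul_sum, ← Finset.sum_div,
          Finset.sum_add_distrib, Finset.sum_const, Finset.card_univ, nsmul_eq_mul]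
        ring
    _ ≤ ∑ i, ∑ j, z i * (M i j * z j) :=
        Finset.sum_le_sum fun i _ => Finset.sum_le_sum fun j _ => h1 i j

/-- A positive definite matrix is at least a positive multiple of the unit matrix. -/
theorem pd_lower {P : Matrix m m ℝ} (hP : P.PosDef) : ∃ c : ℝ, 0 < c ∧
    (P - c • (1 : Matrix m m ℝ)).PosSemidef := by
  obtain ⟨O, d, h1, h2, h3⟩ := spectral (pd_sym hP)
  have hd : ∀ i, 0 < d i := by
    have h4 : Oᵀ * P * O = Matrix.diagonal d := by
      rw [h3, Matrix.mul_assoc, Matrix.mul_assoc, Matrix.mul_assoc, h2, Matrix.mul_one,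
        ← Matrix.mul_assoc, h2, Matrix.one_mul]
    have hinj : Function.Injective O.mulVec := by
      intro u v huv
      have h5 : Oᵀ *ᵥ (O *ᵥ u) = Oᵀ *ᵥ (O *ᵥ v) := congrArg (fun w => Oᵀ *ᵥ w) huv
      rwa [Matrix.mulVec_mulVec, Matrix.mulVec_mulVec, h2, Matrix.one_mulVec,
        Matrix.one_mulVec] at h5
    have h6 := hP.conjTranspose_mul_mul_same hinj
    rw [Matrix.conjTranspose_eq_transpose_of_trivial, h4] at h6
    exact Matrix.posDef_diagonal_iff.1 h6
  have hc : ∃ c : ℝ, 0 < c ∧ ∀ i, c ≤ d i := by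
    rcases isEmpty_or_nonempty m with hm | hm
    · exact ⟨1, one_pos, fun i => (hm.false i).elim⟩
    · obtain ⟨i₀, hi₀⟩ := Finite.exists_min d
      exact ⟨d i₀, hd i₀, hi₀⟩
  obtain ⟨c, hc0, hc⟩ := hc
  refine ⟨c, hc0, ?_⟩
  have h7 : P - c • (1 : Matrix m m ℝ) = O * Matrix.diagonal (fun i => d i - c) * Oᵀ := by
    have h8 : Matrix.diagonal (fun i => d i - c) = Matrix.diagonal d - c • (1 : Matrix m m ℝ) := by
      rw [← Matrix.diagonal_one, ← Matrix.diagonal_smul, Matrix.diagonal_sub]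
      congr 1
      funext i
      simp
    rw [h8, Matrix.mul_sub, Matrix.sub_mul, ← h3, Matrix.mul_smul, Matrix.smul_mul,
      Matrix.mul_one, h1]
  rw [h7]
  exact psd_conj (Matrix.PosSemidef.diagonal fun i => sub_nonneg.2 (hc i)) O

end OpenPDAux

open OpenPDAux in
theorem eventually_posDef {f : ℝ → Matrix m m ℝ} (hc : ContinuousAt f 0) (h0 : (f 0).PosDef)
    (hs : ∀ t, (f t)ᵀ = f t) : ∀ᶠ t in 𝓝 (0 : ℝ), (f t).PosDef := by
  obtain ⟨c, hc0, hcP⟩ := pd_lower h0
  obtain ⟨ε, hε⟩ : ∃ ε : ℝ, ε = c / (Fintype.card m + 1) := ⟨_, rfl⟩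
  have hε0 : 0 < ε := by rw [hε]; positivity
  have hεc : ε * Fintype.card m < c := by
    have h1 : ε * (Fintype.card m + 1) = c := by rw [hε]; field_simp
    linarith
  have hev : ∀ᶠ t in 𝓝 (0 : ℝ), ∀ i j, |f t i j - f 0 i j| < ε := by
    rw [eventually_all]
    intro i
    rw [eventually_all]
    intro j
    have h2 : ContinuousAt (fun t => f t i j) 0 :=
      (continuous_apply_apply i j).continuousAt.comp hc
    have h3 := Metric.tendsto_nhds.1 h2 ε hε0
    filter_upwards [h3] with t ht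
    rwa [Real.dist_eq] at ht
  filter_upwards [hev] with t ht
  refine Matrix.PosDef.of_dotProduct_mulVec_pos ?_ fun z hz => ?_
  · rw [Matrix.IsHermitian, Matrix.conjTranspose_eq_transpose_of_trivial]
    exact hs t
  · rw [star_trivial]
    have h4 := quad_lower (M := f t - f 0) (ε := ε) (fun i j => (ht i j).le) z
    have h5 := psd_quad hcP z
    rw [Matrix.sub_mulVec, dotProduct_sub, Matrix.smul_mulVec, Matrix.one_mulVec,
      dotProduct_smul, smul_eq_mul] at h5
    rw [Matrix.sub_mulVec, dotProduct_sub] at h4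
    have h6 : z ⬝ᵥ z = ∑ i, z i ^ 2 := by
      simp only [dotProduct, pow_two]
    have h7 : 0 < ∑ i, z i ^ 2 := by
      obtain ⟨i, hi⟩ := Function.ne_iff.1 hz
      refine Finset.sum_pos' (fun i _ => sq_nonneg _) ⟨i, Finset.mem_univ i, ?_⟩
      have : z i ≠ 0 := hi
      positivity
    rw [h6] at h5
    have h8 : ε * Fintype.card m * ∑ i, z i ^ 2 < c * ∑ i, z i ^ 2 :=
      mul_lt_mul_of_pos_right hεc h7
    linarith

end MSp
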