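import Pool.Agent.Lib.MSp.Psd

/-!
# Trace interpolation

Proof of `trace_interp`.  Diagonalise `R = O diag(d) Oᵀ` (`spectral_psd`), put `M' = Oᵀ M O`,
a symmetric matrix.  Then `tr (R^i M R^j M) = ∑_{a,c} d_a^i d_c^j M'_{ac}^2` for all `i, j`
(cyclicity of the trace, `Matrix.diagonal_pow`, `M'_{ac} = M'_{ca}`).  Symmetrise the double sum in
`(a,c)`: it suffices that for reals `u, v ≥ 0`
`u^(i+1) v^(j+1) + v^(i+1) u^(j+1) ≤ u^(i+j+1) v + v^(i+j+1) u`,
and the difference is `u v (u^i - v^i) (u^j - v^j) ≥ 0` (both factors have the same sign).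

Proof of `trace_young`.  In the same way, `u^i v^j + v^i u^j ≤ u^(i+j) + v^(i+j)` (the difference is
`(u^i - v^i)(u^j - v^j) ≥ 0`), so that `tr (R^i M R^j M) ≤ tr (R^(i+j) M M)`; then `trace_mono` with
`M M ≤ 1`.
-/

set_option autoImplicit false
set_option linter.unusedSectionVars false

open scoped Matrix Topology
open Filter

namespace MSp

variable {m κ : Type} [Fintype m] [DecidableEq m] [Fintype κ] [DecidableEq κ]

namespace TrIntAux

theorem conj_pow {O : Matrix m m ℝ} (h2 : Oᵀ * O = 1) (d : m → ℝ) (i : ℕ) :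
    (O * Matrix.diagonal d * Oᵀ) ^ i * O = O * Matrix.diagonal (fun a => d a ^ i) := by
  induction i with
  | zero => simp
  | succ i ih =>
    have e : O * Matrix.diagonal d * Oᵀ * O = O * Matrix.diagonal d := by
      rw [Matrix.mul_assoc, h2, Matrix.mul_one]
    rw [pow_succ, Matrix.mul_assoc ((O * Matrix.diagonal d * Oᵀ) ^ i), e, ← Matrix.mul_assoc, ih,
      Matrix.mul_assoc, Matrix.diagonal_mul_diagonal]
    congr 2

theorem trace_eq {O M : Matrix m m ℝ} (h1 : O * Oᵀ = 1) (h2 : Oᵀ * O = 1) (hM : Mᵀ = M)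
    (d : m → ℝ) (i j : ℕ) :
    ((O * Matrix.diagonal d * Oᵀ) ^ i * M * (O * Matrix.diagonal d * Oᵀ) ^ j * M).trace =
      ∑ a, ∑ c, d a ^ i * d c ^ j * ((Oᵀ * M * O) a c) ^ 2 := by
  have hs : ∀ a c, (Oᵀ * M * O) c a = (Oᵀ * M * O) a c := by
    intro a c
    have : (Oᵀ * M * O)ᵀ = Oᵀ * M * O := by
      rw [Matrix.transpose_mul, Matrix.transpose_mul, Matrix.transpose_transpose, hM,
        Matrix.mul_assoc]
    rw [← Matrix.transpose_apply (Oᵀ * M * O) a c, this]
  have hp : ∀ i, (O * Matrix.diagonal d * Oᵀ) ^ i =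
      O * Matrix.diagonal (fun a => d a ^ i) * Oᵀ := by
    intro i
    rw [← conj_pow h2 d i, Matrix.mul_assoc ((O * Matrix.diagonal d * Oᵀ) ^ i), h1, Matrix.mul_one]
  have e : ((O * Matrix.diagonal d * Oᵀ) ^ i * M * (O * Matrix.diagonal d * Oᵀ) ^ j * M).trace =
      (Matrix.diagonal (fun a => d a ^ i) * (Oᵀ * M * O) *
        (Matrix.diagonal (fun a => d a ^ j) * (Oᵀ * M * O))).trace := by
    rw [hp, hp]
    have : O * Matrix.diagonal (fun a => d a ^ i) * Oᵀ * M *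
        (O * Matrix.diagonal (fun a => d a ^ j) * Oᵀ) * M =
        O * (Matrix.diagonal (fun a => d a ^ i) * Oᵀ * M * O *
          Matrix.diagonal (fun a => d a ^ j) * Oᵀ * M) := by
      simp only [Matrix.mul_assoc]
    rw [this, Matrix.trace_mul_comm]
    congr 1
    simp only [Matrix.mul_assoc]
  rw [e, Matrix.trace]
  refine Finset.sum_congr rfl fun a _ => ?_
  rw [Matrix.diag_apply, Matrix.mul_apply]
  refine Finset.sum_congr rfl fun c _ => ?_
  rw [Matrix.diagonal_mul, Matrix.diagonal_mul, hs a c]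
  ring

theorem mul_sub_nonneg {u v : ℝ} (hu : 0 ≤ u) (hv : 0 ≤ v) (i j : ℕ) :
    0 ≤ (u ^ i - v ^ i) * (u ^ j - v ^ j) := by
  rcases le_total u v with h | h
  · exact mul_nonneg_of_nonpos_of_nonpos
      (sub_nonpos.2 (pow_le_pow_left₀ hu h i)) (sub_nonpos.2 (pow_le_pow_left₀ hu h j))
  · exact mul_nonneg (sub_nonneg.2 (pow_le_pow_left₀ hv h i))
      (sub_nonneg.2 (pow_le_pow_left₀ hv h j))

/-- symmetrisation of the double sum -/
theorem sum_le (W : m → m → ℝ) (hW : ∀ a c, W a c = W c a) (hW0 : ∀ a c, 0 ≤ W a c)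
    (f g : m → m → ℝ) (h : ∀ a c, f a c + f c a ≤ g a c + g c a) :
    ∑ a, ∑ c, f a c * W a c ≤ ∑ a, ∑ c, g a c * W a c := by
  have hsym : ∀ f : m → m → ℝ, 2 * ∑ a, ∑ c, f a c * W a c =
      ∑ a, ∑ c, (f a c + f c a) * W a c := by
    intro f
    have h1 : ∑ a, ∑ c, f a c * W a c = ∑ a, ∑ c, f c a * W a c := by
      rw [Finset.sum_comm]
      refine Finset.sum_congr rfl fun a _ => Finset.sum_congr rfl fun c _ => ?_
      rw [hW c a]
    rw [two_mul]
    conv_lhs => rw [h1]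
    nth_rewrite 2 [← h1]
    rw [← Finset.sum_add_distrib]
    refine Finset.sum_congr rfl fun a _ => ?_
    rw [← Finset.sum_add_distrib]
    refine Finset.sum_congr rfl fun c _ => ?_
    ring
  have : 2 * ∑ a, ∑ c, f a c * W a c ≤ 2 * ∑ a, ∑ c, g a c * W a c := by
    rw [hsym, hsym]
    exact Finset.sum_le_sum fun a _ => Finset.sum_le_sum fun c _ =>
      mul_le_mul_of_nonneg_right (h a c) (hW0 a c)
  linarith

end TrIntAux

theorem trace_interp {R M : Matrix m m ℝ} (hR : R.PosSemidef) (hM : Mᵀ = M) (i j : ℕ) :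
    (R ^ (i + 1) * M * R ^ (j + 1) * M).trace ≤ (R ^ (i + j + 1) * M * R * M).trace := by
  obtain ⟨O, d, h1, h2, rfl, hd⟩ := spectral_psd hR
  have hsym : ∀ a c, ((Oᵀ * M * O) a c) ^ 2 = ((Oᵀ * M * O) c a) ^ 2 := by
    intro a c
    have : (Oᵀ * M * O)ᵀ = Oᵀ * M * O := by
      rw [Matrix.transpose_mul, Matrix.transpose_mul, Matrix.transpose_transpose, hM,
        Matrix.mul_assoc]
    rw [← Matrix.transpose_apply (Oᵀ * M * O) a c, this]
  have e1 := TrIntAux.trace_eq h1 h2 hM d (i + 1) (j + 1)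
  have e2 := TrIntAux.trace_eq h1 h2 hM d (i + j + 1) 1
  rw [pow_one] at e2
  rw [e1, e2]
  refine TrIntAux.sum_le _ hsym (fun a c => sq_nonneg _) _ _ fun a c => ?_
  have := mul_nonneg (mul_nonneg (hd a) (hd c)) (TrIntAux.mul_sub_nonneg (hd a) (hd c) i j)
  have e3 : d a ^ (i + j + 1) * d c ^ 1 + d c ^ (i + j + 1) * d a ^ 1
      - (d a ^ (i + 1) * d c ^ (j + 1) + d c ^ (i + 1) * d a ^ (j + 1))
      = d a * d c * ((d a ^ i - d c ^ i) * (d a ^ j - d c ^ j)) := by
    ring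
  linarith

theorem trace_young {R M : Matrix m m ℝ} (hR : R.PosSemidef) (hM : Mᵀ = M)
    (hM1 : (1 - M * M).PosSemidef) (i j : ℕ) :
    (R ^ i * M * R ^ j * M).trace ≤ (R ^ (i + j)).trace := by
  have key : (R ^ i * M * R ^ j * M).trace ≤ (R ^ (i + j) * M * R ^ 0 * M).trace := by
    obtain ⟨O, d, h1, h2, rfl, hd⟩ := spectral_psd hR
    have hsym : ∀ a c, ((Oᵀ * M * O) a c) ^ 2 = ((Oᵀ * M * O) c a) ^ 2 := by
      intro a c
      have : (Oᵀ * M * O)ᵀ = Oᵀ * M * O := by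
        rw [Matrix.transpose_mul, Matrix.transpose_mul, Matrix.transpose_transpose, hM,
          Matrix.mul_assoc]
      rw [← Matrix.transpose_apply (Oᵀ * M * O) a c, this]
    rw [TrIntAux.trace_eq h1 h2 hM d i j, TrIntAux.trace_eq h1 h2 hM d (i + j) 0]
    refine TrIntAux.sum_le _ hsym (fun a c => sq_nonneg _) _ _ fun a c => ?_
    have := TrIntAux.mul_sub_nonneg (hd a) (hd c) i j
    have e3 : d a ^ (i + j) * d c ^ 0 + d c ^ (i + j) * d a ^ 0
        - (d a ^ i * d c ^ j + d c ^ i * d a ^ j)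
        = (d a ^ i - d c ^ i) * (d a ^ j - d c ^ j) := by
      ring
    linarith
  have h2 : (R ^ (i + j) * M * R ^ 0 * M).trace = (R ^ (i + j) * (M * M)).trace := by
    rw [pow_zero, Matrix.mul_one, Matrix.mul_assoc]
  have h3 := trace_mono (psd_pow hR (i + j)) hM1
  rw [Matrix.mul_one] at h3
  linarith

end MSp
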