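import Pool.Agent.Lib.MSp.Ex2c
import Pool.Agent.Lib.MSp.TrInt

/-!
# Second order expansion of the trace of a power of the inverse

Proof.  Put `R = X⁻¹` (positive definite).  By `Ex2_inv` (with first order coefficient `- X1` of `f`)
`(f t)⁻¹` has the expansion `R, R1, R2` with `R1 = R X1 R`, `R2 = R X1 R X1 R - R X2 R`.

Let `P_n` be the `n`-th power of `(f t)⁻¹`; by induction with `Ex2_mul` it has the expansion
`R^n, P1 n, P2 n` where `P1 0 = P2 0 = 0`, `P1 (n+1) = R^n R1 + P1 n R`,
`P2 (n+1) = R^n R2 + P1 n R1 + P2 n R`.  By induction on `n`, for all `c : ℕ`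
(using cyclicity of the trace):
(a) `tr (R^c P1 n) = n tr (R^(c+n+1) X1)`, and more generally
`tr (R^c P1 n R1) = ∑_{i<n} tr (R^(c+i) R1 R^(n-1-i) R1) = ∑_{i<n} tr (R^(c+i+2) ... )`: each term is
`tr (R^(c+i+1) X1 R^(n-i+1) X1)` up to cyclicity, and it is at most `tr (R^(c+n+1) X1 R X1)`
by `trace_interp` (the exponents are at least one and their sum is `c + n + 2`), so
`tr (R^c P1 n R1) ≤ n tr (R^(c+n+1) ... X1 R X1)` with the exponent such that the total number of `R`
is preserved: `R^c P1 n R1` contains `c + (n+1) + 2` factors `R`, hence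
`tr (R^c P1 n R1) ≤ n tr (R^(c+n+2) X1 R X1)`.
(b) `tr (R^c P2 n) ≤ - n tr (R^(c+n+1) X2) + n (n+1) / 2 tr (R^(c+n+1) X1 R X1)`:
for `n+1`: `tr (R^c R^n R2) = tr (R^(c+n+2) X1 R X1) - tr (R^(c+n+2) X2)` (cyclicity: `R^(c+n) R X1 R X1 R`
has trace `tr (R^(c+n+2) X1 R X1)`), `tr (R^c P1 n R1) ≤ n tr (R^(c+n+2) X1 R X1)`, and
`tr (R^c P2 n R) = tr (R^(c+1) P2 n)` by the induction hypothesis with `c+1`; and
`n (n+1)/2 + n + 1 = (n+1)(n+2)/2`.
Take `c = 0` and use `Ex2_trace`.
-/

set_option autoImplicit false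
set_option linter.unusedSectionVars false

open scoped Matrix Topology
open Filter

namespace MSp

variable {m κ : Type} [Fintype m] [DecidableEq m] [Fintype κ] [DecidableEq κ]

theorem pow_inv_expand {X X1 X2 : Matrix m m ℝ} (hX : X.PosDef) (hX1 : X1ᵀ = X1) (n : ℕ)
    {f : ℝ → Matrix m m ℝ} (hf : Ex2 f X (-X1) X2) :
    ∃ f2 : ℝ, Ex2 (fun t => ((f t)⁻¹ ^ n).trace) ((X⁻¹ ^ n).trace)
        ((n : ℝ) * (X⁻¹ ^ (n + 1) * X1).trace) f2 ∧
      f2 ≤ -(n : ℝ) * (X⁻¹ ^ (n + 1) * X2).trace
        + (n : ℝ) * ((n : ℝ) + 1) / 2 * (X⁻¹ ^ (n + 1) * X1 * X⁻¹ * X1).trace := by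
  have hR : (X⁻¹).PosSemidef := (pd_inv hX).posSemidef
  have hdet : IsUnit X.det := (Matrix.isUnit_iff_isUnit_det _).1 hX.isUnit
  have hinv := Ex2_inv hdet hf
  generalize X⁻¹ = R at hR hinv ⊢
  have e1 : -(R * -X1 * R) = R * X1 * R := by
    rw [Matrix.mul_neg, Matrix.neg_mul, neg_neg]
  have e2 : R * -X1 * R * -X1 * R - R * X2 * R = R * X1 * R * X1 * R - R * X2 * R := by
    simp only [Matrix.mul_neg, Matrix.neg_mul, neg_neg]
  rw [e1, e2] at hinv
  have key : ∀ n : ℕ, ∃ P1 P2 : Matrix m m ℝ,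
      Ex2 (fun t => (f t)⁻¹ ^ n) (R ^ n) P1 P2 ∧
      (∀ c : ℕ, (R ^ c * P1).trace = (n : ℝ) * (R ^ (c + n + 1) * X1).trace) ∧
      (∀ c e : ℕ, (R ^ c * P1 * R ^ e * (R * X1 * R)).trace ≤
        (n : ℝ) * (R ^ (c + e + n + 2) * X1 * R * X1).trace) ∧
      (∀ c : ℕ, (R ^ c * P2).trace ≤ -(n : ℝ) * (R ^ (c + n + 1) * X2).trace
        + (n : ℝ) * ((n : ℝ) + 1) / 2 * (R ^ (c + n + 1) * X1 * R * X1).trace) := by
    intro n
    induction n with
    | zero =>
      refine ⟨0, 0, ?_, fun c => ?_, fun c e => ?_, fun c => ?_⟩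
      · simp only [pow_zero]
        exact Ex2_const 1
      · simp
      · simp
      · simp
    | succ n ih =>
      obtain ⟨P1, P2, hE, ha, hb, hc⟩ := ih
      refine ⟨R ^ n * (R * X1 * R) + P1 * R,
        R ^ n * (R * X1 * R * X1 * R - R * X2 * R) + P1 * (R * X1 * R) + P2 * R, ?_,
        fun c => ?_, fun c e => ?_, fun c => ?_⟩
      · have h := Ex2_mul hE hinv
        simp only [pow_succ]
        exact h
      · -- first order
        have h1 : (R ^ c * (R ^ n * (R * X1 * R))).trace = (R ^ (c + (n + 1) + 1) * X1).trace := by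
          have : R ^ c * (R ^ n * (R * X1 * R)) = (R ^ (c + n + 1) * X1) * R := by
            rw [pow_succ, pow_add]
            simp only [Matrix.mul_assoc]
          rw [this, Matrix.trace_mul_comm, ← Matrix.mul_assoc, ← pow_succ']
          congr 3
        have h2 : (R ^ c * (P1 * R)).trace = (R ^ (c + 1) * P1).trace := by
          rw [← Matrix.mul_assoc, Matrix.trace_mul_comm, ← Matrix.mul_assoc, ← pow_succ']
        rw [Matrix.mul_add, Matrix.trace_add, h1, h2, ha]
        have h3 : c + 1 + n + 1 = c + (n + 1) + 1 := by ring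
        rw [h3]
        push_cast
        ring
      · have h1 : (R ^ c * (R ^ n * (R * X1 * R)) * R ^ e * (R * X1 * R)).trace ≤
            (R ^ (c + e + (n + 1) + 2) * X1 * R * X1).trace := by
          have h2 := trace_interp hR hX1 (c + n + 1) (e + 1)
          have h3 : R ^ c * (R ^ n * (R * X1 * R)) * R ^ e * (R * X1 * R) =
              (R ^ (c + n + 1) * X1 * R ^ (e + 1 + 1) * X1) * R := by
            rw [pow_succ R (c + n), pow_add R c n, pow_succ R (e + 1), pow_succ' R e]
            have hcomm : R * (R ^ e * R) = R * R ^ e * R := (Matrix.mul_assoc _ _ _).symm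
            simp only [Matrix.mul_assoc]
          rw [h3, Matrix.trace_mul_comm]
          have h4 : R * (R ^ (c + n + 1) * X1 * R ^ (e + 1 + 1) * X1) =
              R ^ (c + n + 1 + 1) * X1 * R ^ (e + 1 + 1) * X1 := by
            rw [pow_succ' R (c + n + 1)]
            simp only [Matrix.mul_assoc]
          rw [h4]
          have h8 : c + n + 1 + (e + 1) + 1 = c + e + (n + 1) + 2 := by ring
          rw [h8] at h2
          exact h2
        have h5 : (R ^ c * (P1 * R) * R ^ e * (R * X1 * R)).trace ≤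
            (n : ℝ) * (R ^ (c + e + (n + 1) + 2) * X1 * R * X1).trace := by
          have h6 := hb c (e + 1)
          have h7 : R ^ c * (P1 * R) * R ^ e * (R * X1 * R) =
              R ^ c * P1 * R ^ (e + 1) * (R * X1 * R) := by
            rw [pow_succ' R e]
            simp only [Matrix.mul_assoc]
          have h8 : c + (e + 1) + n + 2 = c + e + (n + 1) + 2 := by ring
          rw [h8] at h6
          rw [h7]
          exact h6
        rw [Matrix.mul_add, Matrix.add_mul, Matrix.add_mul, Matrix.trace_add]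
        push_cast
        linarith
      · have h1 : (R ^ c * (R ^ n * (R * X1 * R * X1 * R - R * X2 * R))).trace =
            (R ^ (c + (n + 1) + 1) * X1 * R * X1).trace - (R ^ (c + (n + 1) + 1) * X2).trace := by
          have h2 : R ^ c * (R ^ n * (R * X1 * R * X1 * R - R * X2 * R)) =
              (R ^ (c + n + 1) * X1 * R * X1) * R - (R ^ (c + n + 1) * X2) * R := by
            rw [pow_succ, pow_add]
            simp only [Matrix.mul_assoc, Matrix.mul_sub]
          rw [h2, Matrix.trace_sub, Matrix.trace_mul_comm _ R, Matrix.trace_mul_comm _ R]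
          have h3 : R * (R ^ (c + n + 1) * X1 * R * X1) = R ^ (c + (n + 1) + 1) * X1 * R * X1 := by
            have : c + (n + 1) + 1 = (c + n + 1) + 1 := by ring
            rw [this, pow_succ' R (c + n + 1)]
            simp only [Matrix.mul_assoc]
          have h4 : R * (R ^ (c + n + 1) * X2) = R ^ (c + (n + 1) + 1) * X2 := by
            have : c + (n + 1) + 1 = (c + n + 1) + 1 := by ring
            rw [this, pow_succ' R (c + n + 1)]
            simp only [Matrix.mul_assoc]
          rw [h3, h4]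
        have h5 := hb c 0
        rw [pow_zero, Matrix.mul_one, add_zero] at h5
        have h6 := hc (c + 1)
        have h7 : (R ^ c * (P2 * R)).trace = (R ^ (c + 1) * P2).trace := by
          rw [← Matrix.mul_assoc, Matrix.trace_mul_comm, ← Matrix.mul_assoc, ← pow_succ']
        have h8 : c + 1 + n + 1 = c + (n + 1) + 1 := by ring
        have h9 : c + n + 2 = c + (n + 1) + 1 := by ring
        rw [h8] at h6
        rw [h9] at h5
        rw [Matrix.mul_add, Matrix.mul_add, Matrix.trace_add, Matrix.trace_add, h1, h7,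
          ← Matrix.mul_assoc (R ^ c) P1]
        push_cast
        linarith
  obtain ⟨P1, P2, hE, ha, -, hc⟩ := key n
  have h1 := ha 0
  have h2 := hc 0
  rw [pow_zero, Matrix.one_mul, zero_add] at h1 h2
  refine ⟨P2.trace, ?_, h2⟩
  rw [← h1]
  exact Ex2_trace hE

end MSp
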