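import Pool.Agent.Lib.MSp.StateB
import Pool.Agent.Lib.MSp.PowInv
import Pool.Agent.Lib.MSp.OpenPD

/-!
# Consequence of the minimality of the trace of `K`

Names: `h = G *ᵥ g`, `Hh = H D.A h`, `R = D.R x U`, `S = D.S x U K`, `al`, `tau = D.tau x`, `Y = D.Y x U K`.

Proof.  Put `K(t) = K - t h hᵀ = G (1 - t g gᵀ) Gᵀ` (`Matrix.vecMulVec h h`).  For `0 ≤ t ≤ 1/(1 + |g|^2)` the matrix
`1 - t g gᵀ` is positive semidefinite, so `K(t)` is positive semidefinite, and
`1 - K(t) = (1 - K) + t h hᵀ ≥ 0`.  `X` does not change, and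
`Y(t) = Y + t al tau Hh R Hh` (`EC_sub_left`, `EC_smul_left`, `EC_vecMulVec`) is positive definite for `t ≥ 0`.
If `|h|^2 > 0`, then for `0 < t` (small) `tr K(t) < tr K`, so by `hmin` the state `(x, U, K(t))` is not
admissible, that is `F(x, U, K(t)) > 2 ≥ F(x, U, K)`.  By `pow_inv_expand` with `X := Y`,
`X1 := - al tau Hh R Hh`, `X2 := 0` (`Ex2_affine`): `F(x,U,K(t)) - F(x,U,K) = t f1 + t^2 g(t)` with `g`
continuous at `0` and
`f1 = - b^p/N p al tau tr(S^(p+1) Hh R Hh) + 96/k |h|^2`.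
As this is positive for all small `t > 0`, `f1 ≥ 0`:
`b^p/N p al tau tr (S^(p+1) Hh R Hh) ≤ 96/k |h|^2`, which also holds trivially if `h = 0`.
Now `|h|^2 = g · Gᵀ G g ≤ |g|^2`: `1 - G Gᵀ ≥ 0` implies `|Gᵀ z| ≤ |z|` for all `z`, and
`|G g|^2 = g · Gᵀ (G g) ≤ |g| |G g|`.  By `R_ge`, `tr (S^(p+1) Hh Hh) ≤ 6b tr (S^(p+1) Hh R Hh)`, and
`tau ≥ 8` (`le_tau`).  Altogether
`tr (S^(p+1) Hh Hh) ≤ 6 b (96/k) (N / (b^p p al 8)) |g|^2 = 72 N / (k b^l p al) |g|^2`, `p = l+1`.
-/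

set_option autoImplicit false
set_option linter.unusedSectionVars false

open scoped Matrix Topology
open Filter

namespace MSp

variable {m κ : Type} [Fintype m] [DecidableEq m] [Fintype κ] [DecidableEq κ]

namespace WasteAux

theorem normsq_le {K G : Matrix κ κ ℝ} (hK1 : (1 - K).PosSemidef) (hG : K = G * Gᵀ)
    (g : κ → ℝ) : (G *ᵥ g) ⬝ᵥ (G *ᵥ g) ≤ g ⬝ᵥ g := by
  set v := G *ᵥ g with hv
  have h1 := psd_quad hK1 v
  rw [Matrix.sub_mulVec, Matrix.one_mulVec, dotProduct_sub, hG, ← Matrix.mulVec_mulVec] at h1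
  have h2 : v ⬝ᵥ (G *ᵥ (Gᵀ *ᵥ v)) = (Gᵀ *ᵥ v) ⬝ᵥ (Gᵀ *ᵥ v) := by
    rw [Matrix.dotProduct_mulVec, ← Matrix.mulVec_transpose]
  have h4 : (Gᵀ *ᵥ v) ⬝ᵥ g = v ⬝ᵥ v := by
    rw [Matrix.mulVec_transpose, ← Matrix.dotProduct_mulVec]
  have h3 : 0 ≤ (Gᵀ *ᵥ v - g) ⬝ᵥ (Gᵀ *ᵥ v - g) := by
    unfold dotProduct
    exact Finset.sum_nonneg fun i _ => mul_self_nonneg _
  rw [sub_dotProduct, dotProduct_sub, dotProduct_sub, h4, dotProduct_comm g, h4] at h3
  rw [h2] at h1
  linarith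

theorem one_sub_psd (g : κ → ℝ) {t : ℝ} (ht : 0 ≤ t) (ht1 : t * (g ⬝ᵥ g) ≤ 1) :
    (1 - t • Matrix.vecMulVec g g : Matrix κ κ ℝ).PosSemidef := by
  refine psd_of_quad ?_ ?_
  · rw [Matrix.transpose_sub, Matrix.transpose_one, Matrix.transpose_smul,
      Matrix.transpose_vecMulVec]
  · intro z
    rw [Matrix.sub_mulVec, Matrix.one_mulVec, dotProduct_sub, Matrix.smul_mulVec,
      dotProduct_smul, Matrix.vecMulVec_mulVec, dotProduct_smul]
    have hcs : (g ⬝ᵥ z) ^ 2 ≤ (g ⬝ᵥ g) * (z ⬝ᵥ z) := by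
      have := Finset.sum_mul_sq_le_sq_mul_sq Finset.univ g z
      simpa [dotProduct, sq] using this
    have hz : 0 ≤ z ⬝ᵥ z := by
      unfold dotProduct
      exact Finset.sum_nonneg fun i _ => mul_self_nonneg _
    rw [dotProduct_comm z g]
    simp only [smul_eq_mul, MulOpposite.smul_eq_mul_unop, MulOpposite.unop_op]
    nlinarith [mul_le_mul_of_nonneg_left hcs ht, mul_le_mul_of_nonneg_right ht1 hz]

theorem K_psd {K G : Matrix κ κ ℝ} (hG : K = G * Gᵀ) (g : κ → ℝ) {t : ℝ} (ht : 0 ≤ t)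
    (ht1 : t * (g ⬝ᵥ g) ≤ 1) :
    (K - t • Matrix.vecMulVec (G *ᵥ g) (G *ᵥ g)).PosSemidef := by
  have h := psd_conj (one_sub_psd g ht ht1) G
  have e : G * (1 - t • Matrix.vecMulVec g g) * Gᵀ
      = K - t • Matrix.vecMulVec (G *ᵥ g) (G *ᵥ g) := by
    rw [Matrix.mul_sub, Matrix.mul_one, Matrix.sub_mul, hG, Matrix.mul_smul, Matrix.smul_mul,
      Matrix.mul_vecMulVec, Matrix.vecMulVec_mul, Matrix.vecMul_transpose]
  rwa [e] at h

theorem trace_vv (v : κ → ℝ) : (Matrix.vecMulVec v v).trace = v ⬝ᵥ v := by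
  simp [Matrix.trace, Matrix.vecMulVec_apply, dotProduct]

end WasteAux

theorem waste (D : Dat m κ) {x : κ → ℝ} {U : Matrix m m ℝ} {K G : Matrix κ κ ℝ}
    (h : D.Good x U K) (hmin : ∀ U' K', D.Good x U' K' → K.trace ≤ K'.trace)
    (hG : K = G * Gᵀ) (g : κ → ℝ) :
    (D.S x U K ^ (D.p + 1) * H D.A (G *ᵥ g) * H D.A (G *ᵥ g)).trace
      ≤ 72 * D.N / (D.k * D.b ^ D.l * (D.p : ℝ) * D.al) * ∑ c, g c ^ 2 := by
  have hv1 := WasteAux.normsq_le h.hK1 hG g
  set v := G *ᵥ g with hv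
  set V := H D.A v with hV
  have hVs : Vᵀ = V := H_transpose D.A D.symA v
  have hk := D.k_pos
  have hb := D.b_pos
  have hal := D.al_pos
  have hN := D.N_pos
  have htau := le_tau D h
  have hRpd : (D.R x U).PosDef := pd_inv h.hX
  have hSpd : (D.S x U K).PosDef := pd_inv h.hY
  have hSp : (D.S x U K ^ (D.p + 1)).PosSemidef := psd_pow hSpd.posSemidef _
  have hVRV : (V * D.R x U * V).PosSemidef := psd_sandwich hRpd.posSemidef hVs
  have hp0 : (0 : ℝ) < D.p := by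
    have : 0 < D.p := by unfold Dat.p; omega
    exact_mod_cast this
  have hvv : 0 ≤ v ⬝ᵥ v := by
    unfold dotProduct
    exact Finset.sum_nonneg fun i _ => mul_self_nonneg _
  have hgg : 0 ≤ g ⬝ᵥ g := by
    unfold dotProduct
    exact Finset.sum_nonneg fun i _ => mul_self_nonneg _
  have hat : 0 ≤ D.al * D.tau x := by positivity
  have hT0 : 0 ≤ (D.S x U K ^ (D.p + 1) * (V * D.R x U * V)).trace := psd_trace_nonneg hSp hVRV
  -- the key inequality
  have key : D.b ^ D.p / D.N * ((D.p : ℝ) * ((D.al * D.tau x) *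
      (D.S x U K ^ (D.p + 1) * (V * D.R x U * V)).trace)) ≤ 96 / D.k * (v ⬝ᵥ v) := by
    by_contra hcon
    push Not at hcon
    have hv0 : 0 < v ⬝ᵥ v := by
      rcases hvv.lt_or_eq with h0 | h0
      · exact h0
      · exfalso
        have hvz : v = 0 := by
          funext i
          have : v i * v i = 0 := by
            have h1 : ∑ i, v i * v i = 0 := h0.symm
            exact (Finset.sum_eq_zero_iff_of_nonneg fun i _ => mul_self_nonneg _).1 h1 i
              (Finset.mem_univ i)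
          simpa using this
        have hVz : V = 0 := by rw [hV, hvz]; simp [H]
        rw [hVz, ← h0] at hcon
        simp at hcon
    set W : Matrix m m ℝ := (D.al * D.tau x) • (V * D.R x U * V) with hW
    obtain ⟨f2, hf2, -⟩ := pow_inv_expand (X := D.Y x U K) (X1 := -W) (X2 := 0) h.hY
      (by rw [Matrix.transpose_neg, hW, Matrix.transpose_smul, psd_sym hVRV]) D.p
      (f := fun t => D.Y x U K + t • W) (by simpa using Ex2_affine (D.Y x U K) W)
    obtain ⟨g2, hg2c, hg20, hg2⟩ := hf2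
    -- the first order coefficient
    set c : ℝ := D.b ^ D.p / D.N * ((D.p : ℝ) * ((D.Y x U K)⁻¹ ^ (D.p + 1) * -W).trace)
      + 96 / D.k * (v ⬝ᵥ v) with hc
    have hc0 : c < 0 := by
      have e1 : ((D.Y x U K)⁻¹ ^ (D.p + 1) * -W).trace
          = - ((D.al * D.tau x) * (D.S x U K ^ (D.p + 1) * (V * D.R x U * V)).trace) := by
        rw [Matrix.mul_neg, Matrix.trace_neg, hW, Matrix.mul_smul, Matrix.trace_smul, smul_eq_mul]
        rfl
      rw [hc, e1]
      linarith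
    have hev : ∀ᶠ t in 𝓝[>] (0 : ℝ), c + t * (D.b ^ D.p / D.N * g2 t) < 0 := by
      have hcont : ContinuousAt (fun t => c + t * (D.b ^ D.p / D.N * g2 t)) 0 := by
        fun_prop
      have : ∀ᶠ t in 𝓝 (0 : ℝ), c + t * (D.b ^ D.p / D.N * g2 t) < 0 := by
        apply hcont.eventually_lt continuousAt_const
        simpa using hc0
      exact this.filter_mono nhdsWithin_le_nhds
    have hev2 : ∀ᶠ t in 𝓝[>] (0 : ℝ), t * (g ⬝ᵥ g) ≤ 1 := by
      have hcont : ContinuousAt (fun t : ℝ => t * (g ⬝ᵥ g)) 0 := by fun_prop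
      have : ∀ᶠ t in 𝓝 (0 : ℝ), t * (g ⬝ᵥ g) < 1 := by
        apply hcont.eventually_lt continuousAt_const
        simp
      exact (this.filter_mono nhdsWithin_le_nhds).mono fun t ht => ht.le
    have hev3 := (hg2.filter_mono nhdsWithin_le_nhds : ∀ᶠ t in 𝓝[>] (0 : ℝ), _)
    have hev4 : ∀ᶠ t in 𝓝[>] (0 : ℝ), 0 < t := eventually_mem_nhdsWithin
    obtain ⟨t, ht1, ht2, ht3, ht4⟩ := (hev.and (hev2.and (hev3.and hev4))).exists
    set K' : Matrix κ κ ℝ := K - t • Matrix.vecMulVec v v with hK'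
    have hY' : D.Y x U K' = D.Y x U K + t • W := by
      unfold Dat.Y
      rw [hK', EC_sub_left, EC_smul_left, EC_vecMulVec, hW, ← hV]
      rw [smul_sub, smul_smul, smul_smul, mul_comm t]
      unfold Dat.R
      abel
    have htr : (1 - K').trace = (1 - K).trace + t * (v ⬝ᵥ v) := by
      rw [hK', Matrix.trace_sub, Matrix.trace_sub, Matrix.trace_sub, Matrix.trace_smul,
        WasteAux.trace_vv, smul_eq_mul]
      ring
    have htr' : K'.trace = K.trace - t * (v ⬝ᵥ v) := by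
      rw [hK', Matrix.trace_sub, Matrix.trace_smul, WasteAux.trace_vv, smul_eq_mul]
    have hF' : D.F x U K' ≤ 2 := by
      have hF0 := h.hF
      have e1 : D.F x U K' = D.F x U K + t * (c + t * (D.b ^ D.p / D.N * g2 t)) := by
        have ht3' : ((D.Y x U K + t • W)⁻¹ ^ D.p).trace = _ := ht3
        unfold Dat.F
        rw [hY', ht3', htr, hc]
        simp only [smul_eq_mul]
        ring
      rw [e1]
      nlinarith
    have hgood : D.Good x U K' := by
      refine ⟨h.hx, WasteAux.K_psd hG g ht4.le ht2, ?_, h.he, h.hX, ?_, hF'⟩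
      · have e1 : 1 - K' = (1 - K) + t • Matrix.vecMulVec v v := by rw [hK']; abel
        rw [e1]
        refine psd_add h.hK1 (psd_smul ?_ ht4.le)
        refine psd_of_quad (Matrix.transpose_vecMulVec v v) fun z => ?_
        rw [Matrix.vecMulVec_mulVec, dotProduct_smul, dotProduct_comm z v]
        simp only [MulOpposite.smul_eq_mul_unop, MulOpposite.unop_op]
        exact mul_self_nonneg _
      · rw [hY']
        exact h.hY.add_posSemidef (psd_smul (psd_smul hVRV hat) ht4.le)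
    have := hmin U K' hgood
    rw [htr'] at this
    have : 0 < t * (v ⬝ᵥ v) := mul_pos ht4 hv0
    linarith
  -- comparison of R with a multiple of the identity
  have hcomp : (D.S x U K ^ (D.p + 1) * V * V).trace
      ≤ 6 * D.b * (D.S x U K ^ (D.p + 1) * (V * D.R x U * V)).trace := by
    have h1 := psd_sandwich (R_ge D h) hVs
    have h2 := psd_trace_nonneg hSp h1
    have e1 : V * (D.R x U - (1 / (6 * D.b)) • (1 : Matrix m m ℝ)) * V
        = V * D.R x U * V - (1 / (6 * D.b)) • (V * V) := by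
      rw [Matrix.mul_sub, Matrix.sub_mul, Matrix.mul_smul, Matrix.mul_one, Matrix.smul_mul]
    rw [e1, Matrix.mul_sub, Matrix.trace_sub, Matrix.mul_smul, Matrix.trace_smul, smul_eq_mul]
      at h2
    rw [Matrix.mul_assoc]
    have h3 : 6 * D.b * ((1 / (6 * D.b)) * (D.S x U K ^ (D.p + 1) * (V * V)).trace)
        = (D.S x U K ^ (D.p + 1) * (V * V)).trace := by
      field_simp
    nlinarith
  have hgs : ∑ c, g c ^ 2 = g ⬝ᵥ g := by simp [dotProduct, sq]
  rw [hgs]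
  refine hcomp.trans ?_
  set T := (D.S x U K ^ (D.p + 1) * (V * D.R x U * V)).trace with hT
  have hpb : D.b ^ D.p = D.b ^ D.l * D.b := by unfold Dat.p; exact pow_succ _ _
  have hbl : 0 < D.b ^ D.l := pow_pos hb _
  have hk1 : D.b ^ D.p / D.N * ((D.p : ℝ) * ((D.al * 8) * T))
      ≤ D.b ^ D.p / D.N * ((D.p : ℝ) * ((D.al * D.tau x) * T)) := by
    have : (D.al * 8) * T ≤ (D.al * D.tau x) * T :=
      mul_le_mul_of_nonneg_right (mul_le_mul_of_nonneg_left htau hal.le) hT0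
    have h0 : 0 < D.b ^ D.p / D.N := div_pos (pow_pos hb _) hN
    exact mul_le_mul_of_nonneg_left (mul_le_mul_of_nonneg_left this hp0.le) h0.le
  have hk2 : 96 / D.k * (v ⬝ᵥ v) ≤ 96 / D.k * (g ⬝ᵥ g) :=
    mul_le_mul_of_nonneg_left hv1 (by positivity)
  have hk3 := (hk1.trans key).trans hk2
  rw [hpb] at hk3
  have hfin : 6 * D.b * T = (6 * D.N / (8 * (D.b ^ D.l * (D.p : ℝ) * D.al))) *
      (D.b ^ D.l * D.b / D.N * ((D.p : ℝ) * ((D.al * 8) * T))) := by
    field_simp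
  rw [hfin]
  refine (mul_le_mul_of_nonneg_left hk3 (by positivity)).trans (le_of_eq ?_)
  field_simp
  ring

end MSp
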