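import Pool.Agent.Lib.MSp.DriftR
import Pool.Agent.Lib.MSp.DriftY
import Pool.Agent.Lib.MSp.NumF
import Pool.Agent.Lib.MSp.Waste
import Pool.Agent.Lib.MSp.Split
import Pool.Agent.Lib.MSp.Cut

/-!
# The potential decreases on average

Names: `R = D.R x U`, `S = D.S x U K`, `Hj = H D.A (v j)`, `E = ∑_i Hj R Hj`, `V = (al/w) E`,
`EK = EC D.A K`, `T = S^(p+1)`, `tau = D.tau x`, `Xj = EK(R Hj R)`, `G0 = tr (T EK(R E R)) ≥ 0`.

Proof.  `w > 0` because `4 w ≥ card κ ≥ 8`.  Sum the definition of `c2`: by `drift_R` the first part vanishes;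
by `drift_Y`, `∑ tr (T Dr_j) ≤ - al (al-1) tau G0`; and `Nz_j = (al tau) Xj`, so
`∑ tr (T Nz_j S Nz_j) = (al tau)^2 ∑ tr (T Xj S Xj)`.
Factor `K = G Gᵀ` (`psd_factor`), cut `S = S0 + S1` at `10/b` (`cut`) and apply `split_bound` with `r = 10/b`,
`eta0 = 128 N/b^4`, `eta1 = 96 N/(10^l b^4)`, `etaS = 72 N/(k b^l p al)` (hypotheses `h0`, `h1` and `waste`):
`∑ tr (T Xj S Xj) ≤ 2 r r k G0 + 2 eta0 etaS k tr S1 + 2 eta1 etaS k tr S`.
The `G0` term is absorbed by the negative drift (`num_absorb`).  The trace bounds: `b tr S ≤ 4 N`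
(`trS_one`), and by the cut with `j = l`: `(10/b)^l tr S1 ≤ tr S^(l+1) ≤ 3 N / b^p` (`trS_p`, `p = l+1`), so
`tr S1 ≤ 3 N/(10^l b)`.  `num_rest` bounds the rest by something `< 1/4`, and the last terms of
`c2` contribute `- w / k ≤ - 1/4`.
-/

set_option autoImplicit false
set_option linter.unusedSectionVars false

open scoped Matrix Topology
open Filter

namespace MSp

variable {m κ : Type} [Fintype m] [DecidableEq m] [Fintype κ] [DecidableEq κ]

theorem drift (D : Dat m κ) {x : κ → ℝ} {U : Matrix m m ℝ} {K : Matrix κ κ ℝ}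
    (h : D.Good x U K) (hmin : ∀ U' K', D.Good x U' K' → K.trace ≤ K'.trace)
    {R0 R1 : Matrix m m ℝ} (hR0p : R0.PosSemidef) (hR1p : R1.PosSemidef)
    (hRR : R0 + R1 = D.R x U) (hR0 : ((10 / D.b) • D.R x U - R0 * R0).PosSemidef)
    {w : ℕ} (hw : Fintype.card κ ≤ 4 * w) (v : Fin w → κ → ℝ)
    (hKv : (K - (1 / 2 : ℝ) • ∑ j, Matrix.vecMulVec (v j) (v j)).PosSemidef)
    (h0 : ∀ y : Fin w → ℝ, (D.R x U * D.R x U * H D.A (∑ j, y j • v j) * (R0 * R0)
        * H D.A (∑ j, y j • v j)).trace ≤ 128 * D.N / D.b ^ 4 * ∑ j, y j ^ 2)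
    (h1 : ∀ y : Fin w → ℝ, (D.R x U * D.R x U * H D.A (∑ j, y j • v j) * (R1 * R1)
        * H D.A (∑ j, y j • v j)).trace ≤ 96 * D.N / (10 ^ D.l * D.b ^ 4) * ∑ j, y j ^ 2) :
    ∑ j, D.c2 x U K (v j) ((D.al / (w : ℝ)) • ∑ i, H D.A (v i) * D.R x U * H D.A (v i)) < 0 := by
  have hk8 := D.eight_le_k
  have hk := D.k_pos
  have hb := D.b_pos
  have hN := D.N_pos
  have hal := D.al_pos
  have hp : (0 : ℝ) < (D.p : ℝ) := by rw [D.p_cast]; positivity
  have hw4 : D.k ≤ 4 * (w : ℝ) := by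
    unfold Dat.k
    exact_mod_cast hw
  have hw0 : 0 < w := by
    have h8 := D.eight_le
    omega
  have hRp : (D.R x U).PosSemidef := (pd_inv h.hX).posSemidef
  have hSp : (D.S x U K).PosSemidef := (pd_inv h.hY).posSemidef
  set R := D.R x U with hRdef
  set S := D.S x U K with hSdef
  set T := S ^ (D.p + 1) with hTdef
  have hT : T.PosSemidef := psd_pow hSp _
  set E := ∑ i, H D.A (v i) * R * H D.A (v i) with hEdef
  set V := (D.al / (w : ℝ)) • E with hVdef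
  have hEp : E.PosSemidef := psd_sum _ fun i _ => psd_sandwich hRp (H_transpose D.A D.symA _)
  set G0 := (T * EC D.A K (R * E * R)).trace with hG0def
  have hG0 : 0 ≤ G0 := psd_trace_nonneg hT (EC_psd D.symA h.hK (psd_sandwich hEp (psd_sym hRp)))
  have htau0 : 0 ≤ D.tau x := le_trans (by norm_num) (le_tau D h)
  have htau1 := tau_le D h
  -- the two parts of the sum
  have dR := drift_R D hw0 R (fun j => H D.A (v j))
  have dY := drift_Y D h hw v hKv hT
  obtain ⟨G, hG⟩ := psd_factor h.hK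
  have hr : 0 < 10 / D.b := by positivity
  obtain ⟨S0, S1, hS0p, hS1p, hSS, hS0, -, -, hSj, -⟩ := cut hSp hr
  have hS1 : (10 / D.b) ^ D.l * S1.trace ≤ (S ^ D.p).trace := by
    have h3 := trace_le (hSj D.l)
    rw [Matrix.trace_smul, smul_eq_mul] at h3
    exact h3
  have hs1 : S1.trace ≤ 3 * D.N / (10 ^ D.l * D.b) := by
    have h3 := trS_p D h
    rw [le_div_iff₀ (by positivity)]
    have h4 : D.b ^ D.p * ((10 / D.b) ^ D.l * S1.trace) ≤ 3 * D.N :=
      (mul_le_mul_of_nonneg_left hS1 (by positivity)).trans h3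
    have h5 : D.b ^ D.p * ((10 / D.b) ^ D.l * S1.trace) = S1.trace * (10 ^ D.l * D.b) := by
      have h6 : D.p = D.l + 1 := rfl
      rw [h6, div_pow, pow_succ]
      field_simp
    linarith
  have hs : S.trace ≤ 4 * D.N / D.b := by
    rw [le_div_iff₀ hb, mul_comm]
    exact trS_one D h
  have hsb := split_bound D.symA D.sqA hG h.hK1 hRp hR0p hR1p hRR hS0p hS1p hSS hT hr.le hR0 hS0 v
    (eta0 := 128 * D.N / D.b ^ 4) (eta1 := 96 * D.N / (10 ^ D.l * D.b ^ 4))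
    (etaS := 72 * D.N / (D.k * D.b ^ D.l * (D.p : ℝ) * D.al))
    (by positivity) (by positivity) (by positivity) h0 h1 (fun g => waste D h hmin hG g)
  have na := num_absorb D htau0 htau1 hG0
  have nr := num_rest D htau0 htau1 (trace_nonneg hS1p) (trace_nonneg hSp) hs1 hs
  -- the noise
  have hNz : ∀ j, (T * D.Nz x U K (v j) * S * D.Nz x U K (v j)).trace =
      (D.al * D.tau x) ^ 2 * (T * EC D.A K (R * H D.A (v j) * R) * S *
        EC D.A K (R * H D.A (v j) * R)).trace := by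
    intro j
    unfold Dat.Nz
    rw [← hRdef]
    simp only [Matrix.mul_smul, Matrix.smul_mul, Matrix.trace_smul, smul_eq_mul]
    ring
  have hsum : ∑ j, D.c2 x U K (v j) V =
      D.b ^ D.q / D.N * (∑ j, (-(D.q : ℝ) * (R ^ (D.q + 1) * V).trace
        + (D.q : ℝ) * ((D.q : ℝ) + 1) / 2 * (R ^ (D.q + 1) * H D.A (v j) * R * H D.A (v j)).trace))
      + D.b ^ D.p / D.N * ((D.p : ℝ) * (∑ j, (T * D.Dr x U K (v j) V).trace)
        + (D.p : ℝ) * ((D.p : ℝ) + 1) / 2 * (∑ j, (T * D.Nz x U K (v j) * S * D.Nz x U K (v j)).trace))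
      - (w : ℝ) / D.k := by
    have h3 : ∀ j, D.c2 x U K (v j) V = D.b ^ D.q / D.N * (-(D.q : ℝ) * (R ^ (D.q + 1) * V).trace
        + (D.q : ℝ) * ((D.q : ℝ) + 1) / 2 * (R ^ (D.q + 1) * H D.A (v j) * R * H D.A (v j)).trace)
      + D.b ^ D.p / D.N * ((D.p : ℝ) * (T * D.Dr x U K (v j) V).trace
        + (D.p : ℝ) * ((D.p : ℝ) + 1) / 2 * (T * D.Nz x U K (v j) * S * D.Nz x U K (v j)).trace)
      - 1 / D.k := fun j => rfl
    rw [Finset.sum_congr rfl fun j _ => h3 j, Finset.sum_sub_distrib, Finset.sum_add_distrib,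
      ← Finset.mul_sum, ← Finset.mul_sum, Finset.sum_add_distrib (f := fun j => (D.p : ℝ) * _),
      ← Finset.mul_sum, ← Finset.mul_sum, Finset.sum_const, Finset.card_univ, Fintype.card_fin,
      nsmul_eq_mul, mul_one_div]
  rw [hsum, dR, mul_zero, zero_add, Finset.sum_congr rfl fun j _ => hNz j, ← Finset.mul_sum]
  have hwk : (1 : ℝ) / 4 ≤ (w : ℝ) / D.k := by
    rw [div_le_div_iff₀ (by norm_num) hk]
    linarith
  set Z := ∑ j, (T * EC D.A K (R * H D.A (v j) * R) * S * EC D.A K (R * H D.A (v j) * R)).trace with hZ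
  have hcoef : 0 ≤ (D.p : ℝ) * ((D.p : ℝ) + 1) / 2 * (D.al * D.tau x) ^ 2 := by positivity
  have hZ' := mul_le_mul_of_nonneg_left hsb hcoef
  have hkc : (Fintype.card κ : ℝ) = D.k := rfl
  rw [hkc] at hZ'
  have hY' := mul_le_mul_of_nonneg_left dY hp.le
  have hbN : 0 ≤ D.b ^ D.p / D.N := by positivity
  have hin : (D.p : ℝ) * (∑ j, (T * D.Dr x U K (v j) V).trace)
      + (D.p : ℝ) * ((D.p : ℝ) + 1) / 2 * ((D.al * D.tau x) ^ 2 * Z) ≤
      (D.p : ℝ) * ((D.p : ℝ) + 1) / 2 * (D.al * D.tau x) ^ 2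
      * (2 * (128 * D.N / D.b ^ 4 * (72 * D.N / (D.k * D.b ^ D.l * (D.p : ℝ) * D.al)) * D.k * S1.trace)
        + 2 * (96 * D.N / (10 ^ D.l * D.b ^ 4)
            * (72 * D.N / (D.k * D.b ^ D.l * (D.p : ℝ) * D.al)) * D.k * S.trace)) := by
    have e1 : (D.p : ℝ) * ((D.p : ℝ) + 1) / 2 * ((D.al * D.tau x) ^ 2 * Z) =
        (D.p : ℝ) * ((D.p : ℝ) + 1) / 2 * (D.al * D.tau x) ^ 2 * Z := by ring
    rw [e1]
    refine (add_le_add hY' hZ').trans ?_
    have e2 : (D.p : ℝ) * (-(D.al * (D.al - 1) * D.tau x) * G0) =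
        -((D.p : ℝ) * (D.al * (D.al - 1) * D.tau x) * G0) := by ring
    rw [e2]
    have e3 : ∀ u1 u2 u3 c : ℝ, c * (u1 + u2 + u3) = c * u1 + c * (u2 + u3) := fun _ _ _ _ => by ring
    rw [e3]
    linarith
  have hfin := mul_le_mul_of_nonneg_left hin hbN
  linarith

end MSp
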