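import Pool.Agent.Lib.MSp.DB

/-!
# The inner potential does not change on average

Proof.  With `E = ∑_i Hj i * R * Hj i` the sum over `j` of the first terms is
`- w q (al / w) tr (R^(q+1) E) = - q al tr (R^(q+1) E)`, and
`∑_j tr (R^(q+1) Hj R Hj) = tr (R^(q+1) E)` (`Matrix.mul_assoc`, `Finset.mul_sum`, `Matrix.trace_sum`).  Use
`al = (q+1)/2` (`D.al_eq`).
-/

set_option autoImplicit false
set_option linter.unusedSectionVars false

open scoped Matrix Topology
open Filter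

namespace MSp

variable {m κ : Type} [Fintype m] [DecidableEq m] [Fintype κ] [DecidableEq κ]

theorem drift_R (D : Dat m κ) {w : ℕ} (hw : 0 < w) (R : Matrix m m ℝ)
    (Hj : Fin w → Matrix m m ℝ) :
    ∑ j, (-(D.q : ℝ) * (R ^ (D.q + 1) * ((D.al / (w : ℝ)) • ∑ i, Hj i * R * Hj i)).trace
      + (D.q : ℝ) * ((D.q : ℝ) + 1) / 2 * (R ^ (D.q + 1) * Hj j * R * Hj j).trace) = 0 := by
  have hw' : (w : ℝ) ≠ 0 := by positivity
  have h1 : (R ^ (D.q + 1) * ((D.al / (w : ℝ)) • ∑ i, Hj i * R * Hj i)).trace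
      = (D.al / (w : ℝ)) * ∑ j, (R ^ (D.q + 1) * Hj j * R * Hj j).trace := by
    have h3 : ∀ j, R ^ (D.q + 1) * (Hj j * R * Hj j) = R ^ (D.q + 1) * Hj j * R * Hj j := by
      intro j
      rw [← Matrix.mul_assoc, ← Matrix.mul_assoc]
    rw [Matrix.mul_smul, Matrix.trace_smul, smul_eq_mul, Finset.mul_sum, Matrix.trace_sum]
    simp only [h3]
  rw [h1, Finset.sum_add_distrib, Finset.sum_const, Finset.card_univ, Fintype.card_fin,
    ← Finset.mul_sum, nsmul_eq_mul, D.al_eq]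
  generalize (∑ j, (R ^ (D.q + 1) * Hj j * R * Hj j).trace) = T
  generalize (D.q : ℝ) = r
  have h2 : (w : ℝ) * (-r * ((r + 1) / 2 / (w : ℝ) * T)) = -r * ((r + 1) / 2 * T) := by
    rw [div_mul_eq_mul_div]
    field_simp
  rw [h2]
  ring

end MSp
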