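import Pool.Agent.Lib.MSp.Psd

/-!
# Basic properties of the map `EC`

Proofs.  The linearity statements are immediate from the definition (`simp [EC, ...]`,
`Finset.sum_add_distrib`, `Matrix.mul_add`, ...).
`EC_transpose`: transpose the double sum and exchange the two summation indices.
`EC_factor`: `(G Gᵀ)_{ab} = ∑_c G_{ac} G_{bc}`; expand both sides.  `EC_vecMulVec`: expand.
`EC_psd`: `C = G Gᵀ` by `psd_factor`; then `EC_factor`, `psd_sum`, `psd_sandwich` and `H_transpose`.
`EC_mono_left`, `EC_mono_right`: linearity and `EC_psd`.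
`EC_one_le`: by `EC_mono_left` (`C ≤ 1`, `M = 1`), `EC A C 1 ≤ EC A 1 1 = ∑_a A_a A_a ≤ ∑_a 1 = (card κ) 1`.
`EC_continuous`: finite sums of products of continuous functions (entries of a matrix are continuous).
-/

set_option autoImplicit false
set_option linter.unusedSectionVars false

open scoped Matrix Topology
open Filter

namespace MSp

variable {m κ : Type} [Fintype m] [DecidableEq m] [Fintype κ] [DecidableEq κ]

namespace ECbAux

theorem H_mul_mul (A : κ → Matrix m m ℝ) (y z : κ → ℝ) (M : Matrix m m ℝ) :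
    H A y * M * H A z = ∑ a, ∑ c, (y a * z c) • (A a * M * A c) := by
  unfold H
  rw [Finset.sum_mul, Finset.sum_mul]
  refine Finset.sum_congr rfl fun a _ => ?_
  rw [Finset.mul_sum]
  refine Finset.sum_congr rfl fun c _ => ?_
  rw [Matrix.smul_mul, Matrix.smul_mul, Matrix.mul_smul, smul_smul]

end ECbAux

theorem EC_add_right (A : κ → Matrix m m ℝ) (C : Matrix κ κ ℝ) (M M' : Matrix m m ℝ) :
    EC A C (M + M') = EC A C M + EC A C M' := by
  simp only [EC, Matrix.mul_add, Matrix.add_mul, smul_add, Finset.sum_add_distrib]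

theorem EC_sub_right (A : κ → Matrix m m ℝ) (C : Matrix κ κ ℝ) (M M' : Matrix m m ℝ) :
    EC A C (M - M') = EC A C M - EC A C M' := by
  simp only [EC, Matrix.mul_sub, Matrix.sub_mul, smul_sub, Finset.sum_sub_distrib]

theorem EC_smul_right (A : κ → Matrix m m ℝ) (C : Matrix κ κ ℝ) (c : ℝ) (M : Matrix m m ℝ) :
    EC A C (c • M) = c • EC A C M := by
  simp only [EC, Matrix.mul_smul, Matrix.smul_mul, Finset.smul_sum]
  refine Finset.sum_congr rfl fun a _ => Finset.sum_congr rfl fun b _ => ?_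
  rw [smul_comm]

theorem EC_sum_right {ι : Type} (s : Finset ι) (A : κ → Matrix m m ℝ) (C : Matrix κ κ ℝ)
    (M : ι → Matrix m m ℝ) : EC A C (∑ i ∈ s, M i) = ∑ i ∈ s, EC A C (M i) := by
  classical
  induction s using Finset.induction_on with
  | empty => simp [EC]
  | insert i s hi ih => rw [Finset.sum_insert hi, Finset.sum_insert hi, EC_add_right, ih]

theorem EC_add_left (A : κ → Matrix m m ℝ) (C C' : Matrix κ κ ℝ) (M : Matrix m m ℝ) :
    EC A (C + C') M = EC A C M + EC A C' M := by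
  simp only [EC, Matrix.add_apply, add_smul, Finset.sum_add_distrib]

theorem EC_sub_left (A : κ → Matrix m m ℝ) (C C' : Matrix κ κ ℝ) (M : Matrix m m ℝ) :
    EC A (C - C') M = EC A C M - EC A C' M := by
  simp only [EC, Matrix.sub_apply, sub_smul, Finset.sum_sub_distrib]

theorem EC_smul_left (A : κ → Matrix m m ℝ) (c : ℝ) (C : Matrix κ κ ℝ) (M : Matrix m m ℝ) :
    EC A (c • C) M = c • EC A C M := by
  simp only [EC, Matrix.smul_apply, smul_eq_mul, Finset.smul_sum, smul_smul]

theorem EC_sum_left {ι : Type} (s : Finset ι) (A : κ → Matrix m m ℝ) (C : ι → Matrix κ κ ℝ)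
    (M : Matrix m m ℝ) : EC A (∑ i ∈ s, C i) M = ∑ i ∈ s, EC A (C i) M := by
  classical
  induction s using Finset.induction_on with
  | empty => simp [EC]
  | insert i s hi ih => rw [Finset.sum_insert hi, Finset.sum_insert hi, EC_add_left, ih]

theorem EC_transpose {A : κ → Matrix m m ℝ} (hA : ∀ i, (A i)ᵀ = A i) {C : Matrix κ κ ℝ}
    (hC : Cᵀ = C) (M : Matrix m m ℝ) : (EC A C M)ᵀ = EC A C Mᵀ := by
  simp only [EC, Matrix.transpose_sum, Matrix.transpose_smul, Matrix.transpose_mul, hA]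
  rw [Finset.sum_comm]
  refine Finset.sum_congr rfl fun a _ => Finset.sum_congr rfl fun b _ => ?_
  have h : C b a = C a b := by
    conv_lhs => rw [← hC]
    rfl
  rw [h, Matrix.mul_assoc]

theorem EC_vecMulVec (A : κ → Matrix m m ℝ) (v : κ → ℝ) (M : Matrix m m ℝ) :
    EC A (Matrix.vecMulVec v v) M = H A v * M * H A v := by
  rw [ECbAux.H_mul_mul]
  rfl

theorem EC_factor (A : κ → Matrix m m ℝ) (G : Matrix κ κ ℝ) (M : Matrix m m ℝ) :
    EC A (G * Gᵀ) M = ∑ c, H A (fun a => G a c) * M * H A (fun a => G a c) := by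
  have h : G * Gᵀ = ∑ c, Matrix.vecMulVec (fun a => G a c) (fun a => G a c) := by
    ext a b
    rw [Matrix.mul_apply, Matrix.sum_apply]
    rfl
  rw [h, EC_sum_left]
  exact Finset.sum_congr rfl fun c _ => EC_vecMulVec A _ M

theorem EC_psd {A : κ → Matrix m m ℝ} (hA : ∀ i, (A i)ᵀ = A i) {C : Matrix κ κ ℝ}
    (hC : C.PosSemidef) {M : Matrix m m ℝ} (hM : M.PosSemidef) : (EC A C M).PosSemidef := by
  obtain ⟨G, rfl⟩ := psd_factor hC
  rw [EC_factor]
  exact psd_sum _ fun c _ => psd_sandwich hM (H_transpose A hA _)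

theorem EC_mono_left {A : κ → Matrix m m ℝ} (hA : ∀ i, (A i)ᵀ = A i) {C C' : Matrix κ κ ℝ}
    (h : (C' - C).PosSemidef) {M : Matrix m m ℝ} (hM : M.PosSemidef) :
    (EC A C' M - EC A C M).PosSemidef := by
  rw [← EC_sub_left]
  exact EC_psd hA h hM

theorem EC_mono_right {A : κ → Matrix m m ℝ} (hA : ∀ i, (A i)ᵀ = A i) {C : Matrix κ κ ℝ}
    (hC : C.PosSemidef) {M M' : Matrix m m ℝ} (h : (M' - M).PosSemidef) :
    (EC A C M' - EC A C M).PosSemidef := by
  rw [← EC_sub_right]
  exact EC_psd hA hC h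

theorem EC_one_le {A : κ → Matrix m m ℝ} (hA : ∀ i, (A i)ᵀ = A i)
    (hA1 : ∀ i, (1 - A i * A i).PosSemidef) {C : Matrix κ κ ℝ} (h : (1 - C).PosSemidef) :
    ((Fintype.card κ : ℝ) • (1 : Matrix m m ℝ) - EC A C 1).PosSemidef := by
  have h1 := EC_mono_left hA h (psd_one (m := m))
  have h2 : EC A 1 (1 : Matrix m m ℝ) = ∑ a, A a * A a := by
    unfold EC
    refine Finset.sum_congr rfl fun a _ => ?_
    rw [Finset.sum_eq_single a]
    · simp
    · intro b _ hb
      rw [Matrix.one_apply_ne hb.symm, zero_smul]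
    · intro ha
      exact absurd (Finset.mem_univ a) ha
  have h3 : ((Fintype.card κ : ℝ) • (1 : Matrix m m ℝ) - EC A 1 1).PosSemidef := by
    have h4 : (Fintype.card κ : ℝ) • (1 : Matrix m m ℝ) - EC A 1 1 = ∑ a, (1 - A a * A a) := by
      rw [h2, Finset.sum_sub_distrib, Finset.sum_const, Finset.card_univ, Nat.cast_smul_eq_nsmul]
    rw [h4]
    exact psd_sum _ fun a _ => hA1 a
  have h5 := psd_add h3 h1
  rwa [sub_add_sub_cancel] at h5

theorem EC_continuous (A : κ → Matrix m m ℝ) :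
    Continuous fun z : Matrix κ κ ℝ × Matrix m m ℝ => EC A z.1 z.2 := by
  unfold EC
  refine continuous_finsetSum _ fun a _ => continuous_finsetSum _ fun c _ => ?_
  exact (Continuous.matrix_elem continuous_fst a c).smul
    ((continuous_const.matrix_mul continuous_snd).matrix_mul continuous_const)

end MSp
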