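import Pool.Agent.Lib.MSp.Psd

/-!
# Few large eigenvalues

Proof of `few_large`.  `B = O diag(d) Oᵀ`, `d ≥ 0` (`spectral_psd`).  Let `T` be the set of the vectors
`O e_i` (the columns of `O`) with `d_i > t`.  Then `t card {i | d_i > t} ≤ ∑_i d_i = tr B`.  If `y` is
orthogonal to all columns with `d_i > t`, then `y · B y = ∑_i d_i (Oᵀ y)_i^2 ≤ t ∑_i (Oᵀ y)_i^2 = t |y|^2`.

Proof of `few_small`.  `K = O diag(d) Oᵀ` with `0 ≤ d_i ≤ 1`.  Let `T` be the set of columns `O e_i` with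
`d_i < 1/2`; `tr (1-K) = ∑ (1 - d_i) ≥ card {i | d_i < 1/2} / 2`.  Let `v_1, ..., v_w` be orthonormal and
orthogonal to `T`.  For `z : κ → ℝ` let `z' = ∑_{i : d_i ≥ 1/2} (Oᵀ z)_i O e_i`.  Then
`z · K z = ∑ d_i (Oᵀ z)_i^2 ≥ |z'|^2 / 2`, and `v_j · z = v_j · z'`, and by the Bessel inequality
`∑_j (v_j · z')^2 ≤ |z'|^2` (expand `0 ≤ |z' - ∑_j (v_j · z') v_j|^2 = |z'|^2 - ∑_j (v_j · z')^2`).
So `z · (K - 1/2 ∑ v_j v_jᵀ) z ≥ 0`; the matrix is symmetric (`psd_of_quad`).
-/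

set_option autoImplicit false
set_option linter.unusedSectionVars false

open scoped Matrix Topology
open Filter

namespace MSp

variable {m κ : Type} [Fintype m] [DecidableEq m] [Fintype κ] [DecidableEq κ]

namespace EigAAux

theorem quad_eq (O : Matrix κ κ ℝ) (d : κ → ℝ) (y : κ → ℝ) :
    y ⬝ᵥ (O * Matrix.diagonal d * Oᵀ) *ᵥ y = ∑ i, d i * (Oᵀ *ᵥ y) i ^ 2 := by
  rw [Matrix.mul_assoc, ← Matrix.mulVec_mulVec, Matrix.dotProduct_mulVec, ← Matrix.mulVec_transpose,
    ← Matrix.mulVec_mulVec, dotProduct]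
  refine Finset.sum_congr rfl fun i _ => ?_
  rw [Matrix.mulVec_diagonal]
  ring

theorem norm_eq {O : Matrix κ κ ℝ} (h : O * Oᵀ = 1) (y z : κ → ℝ) :
    (Oᵀ *ᵥ y) ⬝ᵥ (Oᵀ *ᵥ z) = y ⬝ᵥ z := by
  rw [Matrix.dotProduct_mulVec, ← Matrix.mulVec_transpose, Matrix.transpose_transpose,
    Matrix.mulVec_mulVec, h, Matrix.one_mulVec]

theorem col_dot (O : Matrix κ κ ℝ) (y : κ → ℝ) (i : κ) :
    (fun k => O k i) ⬝ᵥ y = (Oᵀ *ᵥ y) i := rfl

theorem trace_eq {O : Matrix κ κ ℝ} (h : Oᵀ * O = 1) (d : κ → ℝ) :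
    (O * Matrix.diagonal d * Oᵀ).trace = ∑ i, d i := by
  rw [Matrix.trace_mul_comm, ← Matrix.mul_assoc, h, Matrix.one_mul, Matrix.trace_diagonal]

theorem bessel {w : ℕ} (a : Fin w → κ → ℝ) (ha : ∀ i j, a i ⬝ᵥ a j = if i = j then 1 else 0)
    (c : κ → ℝ) : ∑ j, (a j ⬝ᵥ c) ^ 2 ≤ ∑ i, c i ^ 2 := by
  set b : Fin w → ℝ := fun j => a j ⬝ᵥ c with hb
  set x : κ → ℝ := ∑ j, b j • a j with hx
  have h1 : ∀ z : κ → ℝ, z ⬝ᵥ x = ∑ j, b j * (z ⬝ᵥ a j) := by
    intro z
    rw [hx, dotProduct_sum]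
    exact Finset.sum_congr rfl fun j _ => by rw [dotProduct_smul, smul_eq_mul]
  have h2 : c ⬝ᵥ x = ∑ j, b j ^ 2 := by
    rw [h1]
    refine Finset.sum_congr rfl fun j _ => ?_
    rw [dotProduct_comm c (a j)]
    simp only [hb]
    ring
  have h3 : ∀ j, a j ⬝ᵥ x = b j := by
    intro j
    rw [h1]
    simp [ha]
  have h4 : x ⬝ᵥ x = ∑ j, b j ^ 2 := by
    rw [h1]
    refine Finset.sum_congr rfl fun j _ => ?_
    rw [dotProduct_comm x (a j), h3]
    ring
  have h5 : 0 ≤ (c - x) ⬝ᵥ (c - x) := by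
    rw [dotProduct]
    exact Finset.sum_nonneg fun i _ => mul_self_nonneg _
  have h6 : (c - x) ⬝ᵥ (c - x) = c ⬝ᵥ c - 2 * (c ⬝ᵥ x) + x ⬝ᵥ x := by
    rw [sub_dotProduct, dotProduct_sub, dotProduct_sub, dotProduct_comm x c]
    ring
  have h7 : c ⬝ᵥ c = ∑ i, c i ^ 2 := by
    rw [dotProduct]
    exact Finset.sum_congr rfl fun i _ => by ring
  rw [h6, h2, h4, h7] at h5
  linarith

end EigAAux

open EigAAux in
theorem few_large {B : Matrix κ κ ℝ} (hB : B.PosSemidef) {t : ℝ} (ht : 0 < t) :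
    ∃ T : Finset (κ → ℝ), t * (T.card : ℝ) ≤ B.trace ∧
      ∀ y : κ → ℝ, (∀ u ∈ T, u ⬝ᵥ y = 0) → y ⬝ᵥ B *ᵥ y ≤ t * ∑ i, y i ^ 2 := by
  classical
  obtain ⟨O, d, h1, h2, h3, h4⟩ := spectral_psd hB
  refine ⟨(Finset.univ.filter fun i => t < d i).image fun i => fun k => O k i, ?_, ?_⟩
  · have hc : ((((Finset.univ.filter fun i => t < d i).image fun i => fun k => O k i).card : ℕ) : ℝ)
        ≤ ((Finset.univ.filter fun i => t < d i).card : ℝ) := by
      exact_mod_cast Finset.card_image_le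
    have h5 : t * ((Finset.univ.filter fun i => t < d i).card : ℝ)
        ≤ ∑ i ∈ Finset.univ.filter (fun i => t < d i), d i := by
      rw [mul_comm, ← nsmul_eq_mul]
      exact Finset.card_nsmul_le_sum _ _ _ fun i hi => (Finset.mem_filter.1 hi).2.le
    have h6 : ∑ i ∈ Finset.univ.filter (fun i => t < d i), d i ≤ ∑ i, d i :=
      Finset.sum_le_sum_of_subset_of_nonneg (Finset.filter_subset _ _) fun i _ _ => h4 i
    rw [h3, trace_eq h2]
    calc _ ≤ t * ((Finset.univ.filter fun i => t < d i).card : ℝ) := by gcongr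
      _ ≤ _ := h5.trans h6
  · intro y hy
    rw [h3, quad_eq]
    have h7 : ∑ i, y i ^ 2 = ∑ i, (Oᵀ *ᵥ y) i ^ 2 := by
      have := norm_eq h1 y y
      rw [dotProduct, dotProduct] at this
      simp only [← pow_two] at this
      exact this.symm
    rw [h7, Finset.mul_sum]
    refine Finset.sum_le_sum fun i _ => ?_
    by_cases hi : t < d i
    · have : (Oᵀ *ᵥ y) i = 0 := by
        rw [← col_dot]
        exact hy _ (Finset.mem_image.2 ⟨i, Finset.mem_filter.2 ⟨Finset.mem_univ _, hi⟩, rfl⟩)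
      rw [this]
      simp
    · exact mul_le_mul_of_nonneg_right (not_lt.1 hi) (sq_nonneg _)

open EigAAux in
theorem few_small {K : Matrix κ κ ℝ} (hK : K.PosSemidef) (hK1 : (1 - K).PosSemidef) :
    ∃ T : Finset (κ → ℝ), (T.card : ℝ) ≤ 2 * (1 - K).trace ∧
      ∀ (w : ℕ) (v : Fin w → κ → ℝ), (∀ i j, v i ⬝ᵥ v j = if i = j then 1 else 0) →
        (∀ j, ∀ u ∈ T, u ⬝ᵥ v j = 0) →
        (K - (1 / 2 : ℝ) • ∑ j, Matrix.vecMulVec (v j) (v j)).PosSemidef := by
  classical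
  obtain ⟨O, d, h1, h2, h3, h4⟩ := spectral_psd hK
  have hd1 : ∀ i, d i ≤ 1 := by
    intro i
    have h5 := psd_conj hK1 Oᵀ
    have h6 : Oᵀ * (1 - K) * Oᵀᵀ = 1 - Matrix.diagonal d := by
      rw [Matrix.transpose_transpose, Matrix.mul_sub, Matrix.mul_one, Matrix.sub_mul, h2, h3,
        Matrix.mul_assoc, Matrix.mul_assoc, Matrix.mul_assoc, h2, Matrix.mul_one,
        ← Matrix.mul_assoc, h2, Matrix.one_mul]
    rw [h6] at h5
    have := psd_quad h5 (Pi.single i 1)
    simp [Matrix.sub_apply] at this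
    linarith
  refine ⟨(Finset.univ.filter fun i => d i < 1 / 2).image fun i => fun k => O k i, ?_, ?_⟩
  · have hc : ((((Finset.univ.filter fun i => d i < 1 / 2).image
        fun i => fun k => O k i).card : ℕ) : ℝ)
        ≤ ((Finset.univ.filter fun i => d i < 1 / 2).card : ℝ) := by
      exact_mod_cast Finset.card_image_le
    have h5 : ((Finset.univ.filter fun i => d i < 1 / 2).card : ℝ)
        ≤ ∑ i ∈ Finset.univ.filter (fun i => d i < 1 / 2), 2 * (1 - d i) := by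
      have := Finset.card_nsmul_le_sum (Finset.univ.filter fun i => d i < 1 / 2)
        (fun i => 2 * (1 - d i)) 1 fun i hi => by
          have := (Finset.mem_filter.1 hi).2
          linarith
      simpa using this
    have h6 : ∑ i ∈ Finset.univ.filter (fun i => d i < 1 / 2), 2 * (1 - d i)
        ≤ ∑ i, 2 * (1 - d i) :=
      Finset.sum_le_sum_of_subset_of_nonneg (Finset.filter_subset _ _) fun i _ _ => by
        have := hd1 i
        linarith
    have h7 : 2 * (1 - K).trace = ∑ i, 2 * (1 - d i) := by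
      rw [Matrix.trace_sub, h3, trace_eq h2, ← Finset.mul_sum, Finset.sum_sub_distrib]
      simp
    rw [h7]
    exact hc.trans (h5.trans h6)
  · intro w v hv hT
    refine psd_of_quad ?_ ?_
    · rw [Matrix.transpose_sub, psd_sym hK, Matrix.transpose_smul, Matrix.transpose_sum]
      congr 2
      exact Finset.sum_congr rfl fun j _ => by
        ext a b
        simp [Matrix.vecMulVec_apply, mul_comm]
    · intro z
      have hz : z ⬝ᵥ (K - (1 / 2 : ℝ) • ∑ j, Matrix.vecMulVec (v j) (v j)) *ᵥ z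
          = z ⬝ᵥ K *ᵥ z - 1 / 2 * ∑ j, (v j ⬝ᵥ z) ^ 2 := by
        rw [Matrix.sub_mulVec, dotProduct_sub, Matrix.smul_mulVec, dotProduct_smul,
          Matrix.sum_mulVec, dotProduct_sum, smul_eq_mul]
        congr 2
        refine Finset.sum_congr rfl fun j _ => ?_
        rw [Matrix.vecMulVec_mulVec]
        simp only [dotProduct_smul, dotProduct_comm z (v j)]
        simp [pow_two]
      rw [hz]
      set c : κ → ℝ := Oᵀ *ᵥ z with hc
      set c' : κ → ℝ := fun i => if d i < 1 / 2 then 0 else c i with hc'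
      have e1 : z ⬝ᵥ K *ᵥ z = ∑ i, d i * c i ^ 2 := by rw [h3, quad_eq]
      have e2 : ∀ j, v j ⬝ᵥ z = (Oᵀ *ᵥ v j) ⬝ᵥ c' := by
        intro j
        rw [← norm_eq h1, dotProduct, dotProduct]
        refine Finset.sum_congr rfl fun i _ => ?_
        by_cases hi : d i < 1 / 2
        · have : (Oᵀ *ᵥ v j) i = 0 := by
            rw [← col_dot]
            exact hT j _ (Finset.mem_image.2
              ⟨i, Finset.mem_filter.2 ⟨Finset.mem_univ _, hi⟩, rfl⟩)
          rw [this]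
          simp
        · simp only [hc', if_neg hi, hc]
      have e3 := bessel (fun j => Oᵀ *ᵥ v j) (fun i j => by rw [norm_eq h1, hv]) c'
      have e4 : 1 / 2 * ∑ i, c' i ^ 2 ≤ ∑ i, d i * c i ^ 2 := by
        rw [Finset.mul_sum]
        refine Finset.sum_le_sum fun i _ => ?_
        by_cases hi : d i < 1 / 2
        · simp only [hc', if_pos hi]
          have := mul_nonneg (h4 i) (sq_nonneg (c i))
          simpa using this
        · simp only [hc', if_neg hi]
          exact mul_le_mul_of_nonneg_right (not_lt.1 hi) (sq_nonneg _)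
      rw [e1]
      simp only [e2]
      linarith

end MSp
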