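import Pool.Agent.Lib.MSp.Psd

/-!
# Calculus of second order expansions

Proofs.  All are direct from the definition: if `f = f0 + t f1 + t^2 g` and `f' = f0' + t f1' + t^2 g'`
near `0`, then `f + f' = (f0+f0') + t (f1+f1') + t^2 (g+g')`, and for a product
`f f' = f0 f0' + t (f0 f1' + f1 f0') + t^2 [f0 g' + f1 f1' + g f0' + t (f1 g' + g f1') + t^2 g g']`,
where the bracket is continuous at `0` with value `f0 f2' + f1 f1' + f2 f0'`.
`Ex2_linear`: apply the continuous linear map (`L (g t)` is continuous at `0`).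
`Ex2_continuousAt`: `f` agrees near `0` with a function continuous at `0` (in particular at `0`
itself, so `f 0 = f0`).
`Ex2_inv`: put `R = X⁻¹`, `Z t = f t = X + t X1 + t^2 g t`.  `Z` is continuous at `0` and `Z 0 = X` is
invertible, so `Z t` is invertible near `0` (`det` is continuous) and `(Z t)⁻¹` is continuous at `0`
(the inverse is `Ring.inverse (det) • adjugate`, continuous where `det ≠ 0`; see `Matrix.inv_def` and `Continuous.matrix_adjugate`).
For such `t`: `(Z t)⁻¹ = R - R (Z t - X) (Z t)⁻¹ = R - t R X1 (Z t)⁻¹ - t^2 R g (Z t)⁻¹`; insert the formula once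
more into the second term: `(Z t)⁻¹ = R - t R X1 R + t^2 [R X1 R (X1 + t g) (Z t)⁻¹ - R g (Z t)⁻¹]`.
The bracket is continuous at `0` with value `R X1 R X1 R - R X2 R`.
`Ex2_lt`: near `0`, `f t = f0 + t f1 + t^2 g t` with `g t < 0`; for `t ≠ 0` of the sign of `- f1` (any
sign if `f1 = 0`), `f t < f0`.
-/

set_option autoImplicit false
set_option linter.unusedSectionVars false

open scoped Matrix Topology
open Filter

namespace MSp

variable {m κ : Type} [Fintype m] [DecidableEq m] [Fintype κ] [DecidableEq κ]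

section

variable {E E' : Type} [TopologicalSpace E] [AddCommGroup E] [Module ℝ E]
  [IsTopologicalAddGroup E] [ContinuousSMul ℝ E]
  [TopologicalSpace E'] [AddCommGroup E'] [Module ℝ E']
  [IsTopologicalAddGroup E'] [ContinuousSMul ℝ E']

theorem Ex2_const (c : E) : Ex2 (fun _ => c) c 0 0 := by
  refine ⟨fun _ => 0, continuousAt_const, rfl, Eventually.of_forall fun t => ?_⟩
  simp

theorem Ex2_affine (c v : E) : Ex2 (fun t => c + t • v) c v 0 := by
  refine ⟨fun _ => 0, continuousAt_const, rfl, Eventually.of_forall fun t => ?_⟩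
  simp

theorem Ex2_congr {f f' : ℝ → E} {f0 f1 f2 : E} (h : Ex2 f f0 f1 f2) (hff : ∀ t, f' t = f t) :
    Ex2 f' f0 f1 f2 := by
  have e : f' = f := funext hff
  rw [e]
  exact h

theorem Ex2_add {f f' : ℝ → E} {f0 f1 f2 f0' f1' f2' : E} (h : Ex2 f f0 f1 f2)
    (h' : Ex2 f' f0' f1' f2') : Ex2 (fun t => f t + f' t) (f0 + f0') (f1 + f1') (f2 + f2') := by
  obtain ⟨g, hg, hg0, he⟩ := h
  obtain ⟨g', hg', hg0', he'⟩ := h'
  refine ⟨fun t => g t + g' t, hg.add hg', by simp only [hg0, hg0'], ?_⟩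
  filter_upwards [he, he'] with t h1 h2
  rw [h1, h2]
  module

theorem Ex2_sub {f f' : ℝ → E} {f0 f1 f2 f0' f1' f2' : E} (h : Ex2 f f0 f1 f2)
    (h' : Ex2 f' f0' f1' f2') : Ex2 (fun t => f t - f' t) (f0 - f0') (f1 - f1') (f2 - f2') := by
  obtain ⟨g, hg, hg0, he⟩ := h
  obtain ⟨g', hg', hg0', he'⟩ := h'
  refine ⟨fun t => g t - g' t, hg.sub hg', by simp only [hg0, hg0'], ?_⟩
  filter_upwards [he, he'] with t h1 h2
  rw [h1, h2]
  module

theorem Ex2_sq_smul (v : E) : Ex2 (fun t => t ^ 2 • v) 0 0 v := by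
  refine ⟨fun _ => v, continuousAt_const, rfl, Eventually.of_forall fun t => ?_⟩
  simp

theorem Ex2_linear (L : E →ₗ[ℝ] E') (hL : Continuous L) {f : ℝ → E} {f0 f1 f2 : E}
    (h : Ex2 f f0 f1 f2) : Ex2 (fun t => L (f t)) (L f0) (L f1) (L f2) := by
  obtain ⟨g, hg, hg0, he⟩ := h
  refine ⟨fun t => L (g t), hL.continuousAt.comp hg, by simp only [hg0], ?_⟩
  filter_upwards [he] with t h1
  rw [h1, map_add, map_add, map_smul, map_smul]

theorem Ex2_continuousAt {f : ℝ → E} {f0 f1 f2 : E} (h : Ex2 f f0 f1 f2) :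
    ContinuousAt f 0 ∧ f 0 = f0 := by
  obtain ⟨g, hg, hg0, he⟩ := h
  constructor
  · have h1 : ContinuousAt (fun t : ℝ => f0 + t • f1 + t ^ 2 • g t) 0 := by
      have c1 : ContinuousAt (fun t : ℝ => t) 0 := continuousAt_id
      exact (continuousAt_const.add (c1.smul continuousAt_const)).add ((c1.pow 2).smul hg)
    exact h1.congr (he.mono fun t ht => ht.symm)
  · have := he.self_of_nhds
    rw [this]
    simp

theorem Ex2_smul {a : ℝ → ℝ} {a0 a1 a2 : ℝ} {f : ℝ → E} {f0 f1 f2 : E} (ha : Ex2 a a0 a1 a2)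
    (h : Ex2 f f0 f1 f2) :
    Ex2 (fun t => a t • f t) (a0 • f0) (a0 • f1 + a1 • f0) (a0 • f2 + a1 • f1 + a2 • f0) := by
  obtain ⟨g, hg, hg0, he⟩ := h
  obtain ⟨b, hb, hb0, hea⟩ := ha
  have c1 : ContinuousAt (fun t : ℝ => t) 0 := continuousAt_id
  refine ⟨fun t => a0 • g t + a1 • f1 + b t • f0 + (t • (a1 • g t + b t • f1) +
    t ^ 2 • (b t • g t)), ?_, ?_, ?_⟩
  · exact (((continuousAt_const.smul hg).add continuousAt_const).add
      (hb.smul continuousAt_const)).add ((c1.smul ((continuousAt_const.smul hg).add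
      (hb.smul continuousAt_const))).add ((c1.pow 2).smul (hb.smul hg)))
  · simp [hg0, hb0]
  · filter_upwards [he, hea] with t h1 h2
    rw [h1, h2]
    simp only [smul_eq_mul]
    module

end

theorem Ex2_mul {f f' : ℝ → Matrix m m ℝ} {f0 f1 f2 f0' f1' f2' : Matrix m m ℝ}
    (h : Ex2 f f0 f1 f2) (h' : Ex2 f' f0' f1' f2') :
    Ex2 (fun t => f t * f' t) (f0 * f0') (f0 * f1' + f1 * f0')
      (f0 * f2' + f1 * f1' + f2 * f0') := by
  obtain ⟨g, hg, hg0, he⟩ := h
  obtain ⟨g', hg', hg0', he'⟩ := h'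
  have c1 : ContinuousAt (fun t : ℝ => t) 0 := continuousAt_id
  refine ⟨fun t => f0 * g' t + f1 * f1' + g t * f0' + (t • (f1 * g' t + g t * f1') +
    t ^ 2 • (g t * g' t)), ?_, ?_, ?_⟩
  · exact (((continuousAt_const.mul hg').add continuousAt_const).add
      (hg.mul continuousAt_const)).add ((c1.smul ((continuousAt_const.mul hg').add
      (hg.mul continuousAt_const))).add ((c1.pow 2).smul (hg.mul hg')))
  · simp [hg0, hg0']
  · filter_upwards [he, he'] with t h1 h2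
    rw [h1, h2]
    simp only [add_mul, mul_add, smul_mul_assoc, mul_smul_comm, smul_add, smul_smul]
    module

theorem Ex2_trace {f : ℝ → Matrix m m ℝ} {f0 f1 f2 : Matrix m m ℝ} (h : Ex2 f f0 f1 f2) :
    Ex2 (fun t => (f t).trace) f0.trace f1.trace f2.trace := by
  exact Ex2_linear (Matrix.traceLinearMap m ℝ ℝ) (by
    show Continuous fun M : Matrix m m ℝ => M.trace
    exact continuous_id.matrix_trace) h

theorem Ex2_inv {X X1 X2 : Matrix m m ℝ} (hX : IsUnit X.det) {f : ℝ → Matrix m m ℝ}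
    (hf : Ex2 f X X1 X2) :
    Ex2 (fun t => (f t)⁻¹) X⁻¹ (-(X⁻¹ * X1 * X⁻¹))
      (X⁻¹ * X1 * X⁻¹ * X1 * X⁻¹ - X⁻¹ * X2 * X⁻¹) := by
  obtain ⟨hc, hf0⟩ := Ex2_continuousAt hf
  obtain ⟨g, hg, hg0, he⟩ := hf
  have c1 : ContinuousAt (fun t : ℝ => t) 0 := continuousAt_id
  have hdet : ContinuousAt (fun t => (f t).det) 0 := by
    have h1 : Continuous fun M : Matrix m m ℝ => M.det := continuous_id.matrix_det
    exact h1.continuousAt.comp hc
  have hd0 : (f 0).det ≠ 0 := by rw [hf0]; exact hX.ne_zero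
  have hev : ∀ᶠ t in 𝓝 (0 : ℝ), (f t).det ≠ 0 := hdet.eventually_ne hd0
  have hinv : ContinuousAt (fun t => (f t)⁻¹) 0 := by
    have h2 : (fun t => (f t)⁻¹) = fun t => ((f t).det)⁻¹ • (f t).adjugate := by
      funext t
      rw [Matrix.inv_def, Ring.inverse_eq_inv']
    rw [h2]
    have h3 : Continuous fun M : Matrix m m ℝ => M.adjugate := continuous_id.matrix_adjugate
    exact (hdet.inv₀ hd0).smul (h3.continuousAt.comp hc)
  refine ⟨fun t => X⁻¹ * X1 * X⁻¹ * (X1 + t • g t) * (f t)⁻¹ - X⁻¹ * g t * (f t)⁻¹, ?_, ?_, ?_⟩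
  · exact ((continuousAt_const.mul (continuousAt_const.add (c1.smul hg))).mul hinv).sub
      ((continuousAt_const.mul hg).mul hinv)
  · simp [hf0, hg0]
  · filter_upwards [he, hev] with t h1 h2
    have hu : IsUnit (f t).det := isUnit_iff_ne_zero.2 h2
    have e1 : f t * (f t)⁻¹ = 1 := Matrix.mul_nonsing_inv _ hu
    have e2 : X⁻¹ * X = 1 := Matrix.nonsing_inv_mul _ hX
    -- first formula
    have e3 : (f t)⁻¹ = X⁻¹ - X⁻¹ * (t • X1 + t ^ 2 • g t) * (f t)⁻¹ := by
      have e4 : t • X1 + t ^ 2 • g t = f t - X := by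
        rw [h1]
        abel
      rw [e4, mul_sub, sub_mul, mul_assoc, e1, e2]
      simp
    set Z := (f t)⁻¹ with hZ
    have e5 : X⁻¹ * X1 * Z = X⁻¹ * X1 * X⁻¹ - X⁻¹ * X1 * (X⁻¹ * (t • X1 + t ^ 2 • g t) * Z) := by
      conv_lhs => rw [e3]
      rw [mul_sub]
    have e6 : Z = X⁻¹ - (t • (X⁻¹ * X1 * Z) + t ^ 2 • (X⁻¹ * g t * Z)) := by
      conv_lhs => rw [e3]
      rw [mul_add, add_mul, mul_smul_comm, mul_smul_comm, smul_mul_assoc, smul_mul_assoc]
    conv_lhs => rw [e6, e5]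
    simp only [add_mul, mul_add, smul_mul_assoc, mul_smul_comm, smul_add, smul_sub, smul_smul,
      mul_assoc]
    module

theorem Ex2_lt {f : ℝ → ℝ} {f0 f1 f2 : ℝ} (h : Ex2 f f0 f1 f2) (h2 : f2 < 0) {P : ℝ → Prop}
    (hP : ∀ᶠ t in 𝓝 (0 : ℝ), P t) : ∃ t : ℝ, t ≠ 0 ∧ P t ∧ f t < f0 := by
  obtain ⟨g, hg, hg0, he⟩ := h
  have hneg : ∀ᶠ t in 𝓝 (0 : ℝ), g t < 0 := hg.eventually_lt_const (by rw [hg0]; exact h2)
  obtain ⟨ε, hε, hball⟩ := Metric.eventually_nhds_iff.1 (hP.and (he.and hneg))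
  obtain ⟨t, ht0, htε, htf⟩ : ∃ t : ℝ, t ≠ 0 ∧ |t| < ε ∧ t * f1 ≤ 0 := by
    rcases le_total f1 0 with h1 | h1
    · refine ⟨ε / 2, by positivity, ?_, ?_⟩
      · rw [abs_of_pos (by positivity)]
        linarith
      · exact mul_nonpos_of_nonneg_of_nonpos (by positivity) h1
    · refine ⟨-(ε / 2), by simpa using hε.ne', ?_, ?_⟩
      · rw [abs_neg, abs_of_pos (by positivity)]
        linarith
      · exact mul_nonpos_of_nonpos_of_nonneg (by linarith) h1
  obtain ⟨p1, p2, p3⟩ := hball (y := t) (by rw [Real.dist_eq, sub_zero]; exact htε)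
  refine ⟨t, ht0, p1, ?_⟩
  rw [p2]
  have h3 : 0 < t ^ 2 := by positivity
  have h4 : t ^ 2 * g t < 0 := mul_neg_of_pos_of_neg h3 p3
  simp only [smul_eq_mul]
  linarith

end MSp
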