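import Pool.Agent.Lib.MSp.Start
import Pool.Agent.Lib.MSp.Cpt

/-!
# An extremal admissible state

Proof.  The set of admissible states is compact (`good_compact`) and nonempty (`good_start`).  The
continuous function `e` attains its maximum `M` on it.  The set of admissible states with `e = M` is
compact (closed subset) and nonempty; the continuous function `tr K` attains its minimum on it.
-/

set_option autoImplicit false
set_option linter.unusedSectionVars false

open scoped Matrix Topology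
open Filter

namespace MSp

variable {m κ : Type} [Fintype m] [DecidableEq m] [Fintype κ] [DecidableEq κ]

theorem exists_extremal (D : Dat m κ) : ∃ (x : κ → ℝ) (U : Matrix m m ℝ) (K : Matrix κ κ ℝ),
    D.Good x U K ∧ (∀ x' U' K', D.Good x' U' K' → D.e x' ≤ D.e x) ∧
      ∀ U' K', D.Good x U' K' → K.trace ≤ K'.trace := by
  have hc := good_compact D
  have hne : {z : (κ → ℝ) × Matrix m m ℝ × Matrix κ κ ℝ | D.Good z.1 z.2.1 z.2.2}.Nonempty :=
    ⟨(D.x0, D.b • (1 : Matrix m m ℝ), 1), good_start D⟩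
  have hce : Continuous fun z : (κ → ℝ) × Matrix m m ℝ × Matrix κ κ ℝ => D.e z.1 := by
    unfold Dat.e
    fun_prop
  obtain ⟨z, hz, hmax⟩ := hc.exists_isMaxOn hne hce.continuousOn
  have hc2 : IsCompact ({y : (κ → ℝ) × Matrix m m ℝ × Matrix κ κ ℝ | D.Good y.1 y.2.1 y.2.2} ∩
      {y | y.1 = z.1}) :=
    hc.inter_right (isClosed_eq continuous_fst continuous_const)
  have hck : Continuous fun y : (κ → ℝ) × Matrix m m ℝ × Matrix κ κ ℝ => y.2.2.trace :=
    (continuous_snd.comp continuous_snd).matrix_trace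
  obtain ⟨y, hy, hmin⟩ := hc2.exists_isMinOn ⟨z, hz, rfl⟩ hck.continuousOn
  obtain ⟨hy1, hy2⟩ := hy
  refine ⟨y.1, y.2.1, y.2.2, hy1, ?_, ?_⟩
  · intro x' U' K' h
    have := hmax (show (x', U', K') ∈ {z : (κ → ℝ) × Matrix m m ℝ × Matrix κ κ ℝ |
      D.Good z.1 z.2.1 z.2.2} from h)
    have h2 : y.1 = z.1 := hy2
    rw [h2]
    exact this
  · intro U' K' h
    have h2 : y.1 = z.1 := hy2
    exact hmin (show (y.1, U', K') ∈ ({y : (κ → ℝ) × Matrix m m ℝ × Matrix κ κ ℝ |
      D.Good y.1 y.2.1 y.2.2} ∩ {y | y.1 = z.1}) from ⟨h, h2⟩)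

end MSp
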