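import Pool.Agent.Lib.MSp.Psd

/-!
# Lower bound for the inverse

Proof.  `X = O diag(d) Oᵀ` with `d_i > 0`; `c 1 - X` positive semidefinite gives `d_i ≤ c` (test with
`O e_i`), so `X⁻¹ - (1/c) 1 = O diag(1/d_i - 1/c) Oᵀ` is positive semidefinite.
-/

set_option autoImplicit false
set_option linter.unusedSectionVars false

open scoped Matrix Topology
open Filter

namespace MSp

variable {m κ : Type} [Fintype m] [DecidableEq m] [Fintype κ] [DecidableEq κ]

theorem inv_lower {X : Matrix m m ℝ} (hX : X.PosDef) {c : ℝ} (hc : 0 < c)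
    (h : (c • (1 : Matrix m m ℝ) - X).PosSemidef) :
    (X⁻¹ - (1 / c) • (1 : Matrix m m ℝ)).PosSemidef := by
  -- `X⁻¹ - 1/c = (1/c) (W (c - X) W + (1/c) (c-X) W (c-X))`-type identities are avoided: diagonalise
  obtain ⟨O, d, hO1, hO2, hOX⟩ := spectral (pd_sym hX)
  have hdiag : Oᵀ * X * O = Matrix.diagonal d := by
    rw [hOX, Matrix.mul_assoc, Matrix.mul_assoc, Matrix.mul_assoc, hO2, Matrix.mul_one,
      ← Matrix.mul_assoc, hO2, Matrix.one_mul]
  have hcd : Matrix.diagonal (fun i => c - d i) = Oᵀ * (c • (1 : Matrix m m ℝ) - X) * O := by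
    rw [Matrix.mul_sub, Matrix.sub_mul, hdiag, Matrix.mul_smul, Matrix.mul_one, Matrix.smul_mul,
      hO2, ← Matrix.diagonal_one, ← Matrix.diagonal_smul, Matrix.diagonal_sub]
    congr 1
    funext i
    simp
  have hcd1 : ∀ i, d i ≤ c := by
    intro i
    have h1 : (Matrix.diagonal (fun i => c - d i)).PosSemidef := by
      rw [hcd]
      have h2 := psd_conj h Oᵀ
      rwa [Matrix.transpose_transpose] at h2
    have h2 := (Matrix.posSemidef_diagonal_iff.1 h1) i
    linarith
  have hd0 : ∀ i, 0 < d i := by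
    intro i
    have h1 : (Matrix.diagonal d).PosDef := by
      rw [← hdiag]
      have hu : IsUnit O := by
        rw [Matrix.isUnit_iff_isUnit_det]
        exact Matrix.isUnit_det_of_right_inverse hO1
      have h2 := hX.conjTranspose_mul_mul_same (B := O) (by
        rw [Matrix.mulVec_injective_iff_isUnit]
        exact hu)
      rwa [Matrix.conjTranspose_eq_transpose_of_trivial] at h2
    exact (Matrix.posDef_diagonal_iff.1 h1) i
  have hinv : X⁻¹ = O * Matrix.diagonal (fun i => (d i)⁻¹) * Oᵀ := by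
    refine Matrix.inv_eq_right_inv ?_
    rw [hOX]
    calc O * Matrix.diagonal d * Oᵀ * (O * Matrix.diagonal (fun i => (d i)⁻¹) * Oᵀ)
        = O * (Matrix.diagonal d * (Oᵀ * O) * Matrix.diagonal (fun i => (d i)⁻¹)) * Oᵀ := by
          simp only [Matrix.mul_assoc]
      _ = O * Oᵀ := by
          rw [hO2, Matrix.mul_one, Matrix.diagonal_mul_diagonal]
          have e : Matrix.diagonal (fun i => d i * (d i)⁻¹) = (1 : Matrix m m ℝ) := by
            rw [← Matrix.diagonal_one]
            congr 1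
            funext i
            exact mul_inv_cancel₀ (hd0 i).ne'
          rw [e, Matrix.mul_one]
      _ = 1 := hO1
  have hfin : X⁻¹ - (1 / c) • (1 : Matrix m m ℝ) =
      O * Matrix.diagonal (fun i => (d i)⁻¹ - 1 / c) * Oᵀ := by
    have e : Matrix.diagonal (fun i => (d i)⁻¹ - 1 / c) =
        Matrix.diagonal (fun i => (d i)⁻¹) - (1 / c) • (1 : Matrix m m ℝ) := by
      rw [← Matrix.diagonal_one, ← Matrix.diagonal_smul, Matrix.diagonal_sub]
      congr 1
      funext i
      simp
    rw [e, Matrix.mul_sub, Matrix.sub_mul, ← hinv, Matrix.mul_smul, Matrix.mul_one,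
      Matrix.smul_mul, hO1]
  rw [hfin]
  refine psd_conj (Matrix.posSemidef_diagonal_iff.2 fun i => ?_) O
  have h1 : 1 / c ≤ 1 / d i := one_div_le_one_div_of_le (hd0 i) (hcd1 i)
  rw [one_div (d i)] at h1
  exact sub_nonneg.2 h1

end MSp
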