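import Pool.Agent.Lib.MSp.Defs

/-!
# The recursion for the total error

Proof.  Put `t = log (N/k) ≥ 0` and `l = 1 + ⌈2 t / log 10⌉₊`.  Then `10^(l-1) ≥ exp(2 t) = (N/k)^2`, and
`l ≤ 2 + 2 t/log 10 ≤ 2 + t` as `log 10 ≥ 2` (`e^2 < 10`), so `l + 2 ≤ 4 + t`.  Hence
`3 sqrt(2400 (l+2) k) ≤ 147 g(k)`, `g(k) = sqrt (k (4 + log(N/k)))`  (`9 * 2400 = 21600 ≤ 147^2 = 21609`).
Next, for `1 ≤ k' ≤ k/2`: `k' (4 + log(N/k')) ≤ (k/2)(4 + log(2N/k))`, because the function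
`y ↦ y (4 + log (N/y))` is increasing on `(0, N]` (derivative `3 + log(N/y)`; alternatively with
`y = k/2`, `k' = s y`, `0 < s ≤ 1`: `s y (4 + log(N/y) - log s)` and `s - s log s ≤ 1`, `s ≤ 1`, so it is at most
`y (4 + log (N/y))`, using `4 + log (N/y) ≥ 1`), and
`(k/2)(4 + log 2 + t) ≤ (k/2)(4.7 + t) ≤ 0.59 k (4 + t)`.  So `g(k') ≤ 0.77 g(k)` (`0.77^2 = 0.5929`), which is
also true for `k' = 0`.  Finally `147 + 0.77 * 700 = 686 ≤ 700`.
-/

set_option autoImplicit false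
set_option linter.unusedSectionVars false

open scoped Matrix Topology
open Filter

namespace MSp

variable {m κ : Type} [Fintype m] [DecidableEq m] [Fintype κ] [DecidableEq κ]

private theorem numT_mul_sqrt {c : ℝ} (hc : 0 ≤ c) (x : ℝ) :
    c * Real.sqrt x = Real.sqrt (c ^ 2 * x) := by
  rw [Real.sqrt_mul (by positivity), Real.sqrt_sq hc]

/-- the square root at most half of the size -/
private theorem numT_half {N : ℝ} {k k' : ℕ} (hk : 8 ≤ k) (hkN : (k : ℝ) ≤ N) (h : 2 * k' ≤ k) :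
    Real.sqrt ((k' : ℝ) * (4 + Real.log (N / (k' : ℝ))))
      ≤ 0.77 * Real.sqrt ((k : ℝ) * (4 + Real.log (N / (k : ℝ)))) := by
  have hk0 : (0 : ℝ) < k := by
    have : (8 : ℝ) ≤ k := by exact_mod_cast hk
    linarith
  have hN0 : 0 < N := lt_of_lt_of_le hk0 hkN
  have ht : 0 ≤ Real.log (N / (k : ℝ)) := by
    apply Real.log_nonneg
    rw [le_div_iff₀ hk0]; linarith
  have hlog2 : Real.log 2 < 0.6931471808 := Real.log_two_lt_d9
  have hlog2' : 0 < Real.log 2 := Real.log_pos (by norm_num)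
  set t := Real.log (N / (k : ℝ)) with htdef
  rw [numT_mul_sqrt (by norm_num : (0 : ℝ) ≤ 0.77)]
  apply Real.sqrt_le_sqrt
  rcases Nat.eq_zero_or_pos k' with h0 | h0
  · subst h0
    simp only [Nat.cast_zero, zero_mul]
    positivity
  have hk'0 : (0 : ℝ) < k' := by exact_mod_cast h0
  have h2 : 2 * (k' : ℝ) ≤ k := by exact_mod_cast h
  have hlogs : Real.log ((k : ℝ) / (2 * k')) ≤ (k : ℝ) / (2 * k') - 1 :=
    Real.log_le_sub_one_of_pos (by positivity)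
  have hdec : Real.log (N / (k' : ℝ)) = t + Real.log 2 + Real.log ((k : ℝ) / (2 * k')) := by
    rw [htdef, Real.log_div hN0.ne' hk'0.ne', Real.log_div hN0.ne' hk0.ne',
      Real.log_div hk0.ne' (by positivity), Real.log_mul (by norm_num) hk'0.ne']
    ring
  rw [hdec]
  have h3 : (k' : ℝ) * Real.log ((k : ℝ) / (2 * k')) ≤ k / 2 - k' := by
    have := mul_le_mul_of_nonneg_left hlogs hk'0.le
    have e : (k' : ℝ) * ((k : ℝ) / (2 * k') - 1) = k / 2 - k' := by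
      field_simp
    linarith
  have h4 : (k' : ℝ) * (4 + t + Real.log 2) + (k / 2 - k') ≤ k / 2 * (4 + t + Real.log 2) := by
    have : 0 ≤ (k / 2 - (k' : ℝ)) * (4 + t + Real.log 2 - 1) := by
      apply mul_nonneg <;> linarith
    nlinarith
  have h5 : (k : ℝ) / 2 * (4 + t + Real.log 2) ≤ 0.77 ^ 2 * ((k : ℝ) * (4 + t)) := by
    have : 0 ≤ (k : ℝ) * (0.77 ^ 2 * (4 + t) - (4 + t + Real.log 2) / 2) := by
      apply mul_nonneg hk0.le
      norm_num
      linarith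
    nlinarith
  calc (k' : ℝ) * (4 + (t + Real.log 2 + Real.log ((k : ℝ) / (2 * k'))))
      = (k' : ℝ) * (4 + t + Real.log 2) + (k' : ℝ) * Real.log ((k : ℝ) / (2 * k')) := by ring
    _ ≤ (k' : ℝ) * (4 + t + Real.log 2) + (k / 2 - k') := by linarith
    _ ≤ _ := h4
    _ ≤ _ := h5

theorem num_step {N : ℝ} {k : ℕ} (hk : 8 ≤ k) (hkN : (k : ℝ) ≤ N) :
    ∃ l : ℕ, 1 ≤ l ∧ (N / (k : ℝ)) ^ 2 ≤ 10 ^ (l - 1) ∧ ∀ k' : ℕ, 2 * k' ≤ k →
      3 * Real.sqrt (2400 * ((l : ℝ) + 2) * (k : ℝ))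
        + 700 * Real.sqrt ((k' : ℝ) * (4 + Real.log (N / (k' : ℝ))))
      ≤ 700 * Real.sqrt ((k : ℝ) * (4 + Real.log (N / (k : ℝ)))) := by
  have hk0 : (0 : ℝ) < k := by
    have : (8 : ℝ) ≤ k := by exact_mod_cast hk
    linarith
  have hN0 : 0 < N := lt_of_lt_of_le hk0 hkN
  have ht : 0 ≤ Real.log (N / (k : ℝ)) := by
    apply Real.log_nonneg
    rw [le_div_iff₀ hk0]; linarith
  have hlog10 : 2 ≤ Real.log 10 := by
    rw [Real.le_log_iff_exp_le (by norm_num)]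
    have h1 : Real.exp 2 = Real.exp 1 * Real.exp 1 := by
      rw [← Real.exp_add]; norm_num
    have h2 := Real.exp_one_lt_d9
    have h3 := Real.exp_pos 1
    rw [h1]
    nlinarith
  have hl10 : 0 < Real.log 10 := by linarith
  refine ⟨1 + ⌈2 * Real.log (N / (k : ℝ)) / Real.log 10⌉₊, by omega, ?_, ?_⟩
  · rw [Nat.add_sub_cancel_left]
    have hpos : 0 < N / (k : ℝ) := by positivity
    have h1 : (N / (k : ℝ)) ^ 2 = Real.exp (2 * Real.log (N / (k : ℝ))) := by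
      rw [two_mul, Real.exp_add, Real.exp_log hpos]; ring
    have h2 : (10 : ℝ) ^ ⌈2 * Real.log (N / (k : ℝ)) / Real.log 10⌉₊
        = Real.exp ((⌈2 * Real.log (N / (k : ℝ)) / Real.log 10⌉₊ : ℝ) * Real.log 10) := by
      rw [Real.exp_nat_mul, Real.exp_log (by norm_num)]
    rw [h1, h2]
    apply Real.exp_le_exp.2
    have h3 := Nat.le_ceil (2 * Real.log (N / (k : ℝ)) / Real.log 10)
    rw [div_le_iff₀ hl10] at h3
    linarith
  · intro k' hk'
    have h1 := numT_half hk hkN hk'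
    have hceil := Nat.ceil_lt_add_one (a := 2 * Real.log (N / (k : ℝ)) / Real.log 10) (by positivity)
    have hdiv : 2 * Real.log (N / (k : ℝ)) / Real.log 10 ≤ Real.log (N / (k : ℝ)) := by
      rw [div_le_iff₀ hl10]
      nlinarith
    push_cast
    set t := Real.log (N / (k : ℝ)) with htdef
    set c : ℝ := (⌈2 * t / Real.log 10⌉₊ : ℝ) with hc
    have h2 : (3 : ℝ) * Real.sqrt (2400 * ((1 + c) + 2) * (k : ℝ))
        ≤ 147 * Real.sqrt ((k : ℝ) * (4 + t)) := by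
      rw [numT_mul_sqrt (by norm_num : (0 : ℝ) ≤ 3), numT_mul_sqrt (by norm_num : (0 : ℝ) ≤ 147)]
      apply Real.sqrt_le_sqrt
      have h3 : 1 + c + 2 ≤ 4 + t := by linarith
      have h4 : (1 + c + 2) * (k : ℝ) ≤ (4 + t) * k := mul_le_mul_of_nonneg_right h3 hk0.le
      have h5 : 0 ≤ (4 + t) * (k : ℝ) := by positivity
      nlinarith
    have h6 : 0 ≤ Real.sqrt ((k : ℝ) * (4 + t)) := Real.sqrt_nonneg _
    nlinarith

theorem num_base {N : ℝ} {k : ℕ} (hk : k < 8) (hkN : (k : ℝ) ≤ N) :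
    (k : ℝ) ≤ 700 * Real.sqrt ((k : ℝ) * (4 + Real.log (N / (k : ℝ)))) := by
  rcases Nat.eq_zero_or_pos k with h0 | h0
  · subst h0
    simp only [Nat.cast_zero, zero_mul, Real.sqrt_zero, mul_zero, le_refl]
  have hk0 : (0 : ℝ) < k := by exact_mod_cast h0
  have hk8 : (k : ℝ) ≤ 8 := by exact_mod_cast hk.le
  have ht : 0 ≤ Real.log (N / (k : ℝ)) := by
    apply Real.log_nonneg
    rw [le_div_iff₀ hk0]; linarith
  have h1 : Real.sqrt ((k : ℝ) * k) ≤ Real.sqrt (700 ^ 2 * ((k : ℝ) * (4 + Real.log (N / (k : ℝ))))) := by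
    apply Real.sqrt_le_sqrt
    have h2 : (k : ℝ) * k ≤ k * (700 ^ 2 * (4 + Real.log (N / (k : ℝ)))) := by
      apply mul_le_mul_of_nonneg_left _ hk0.le
      nlinarith
    linarith
  rw [Real.sqrt_mul_self hk0.le, ← numT_mul_sqrt (by norm_num : (0 : ℝ) ≤ 700)] at h1
  exact h1

end MSp
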