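import Pool.Agent.Lib.MSp.Base
import Pool.Agent.Lib.MSp.Apply
import Pool.Agent.Lib.MSp.NumT

/-!
# All coordinates

Proof.  Strong induction on `k`.  If `k < 8` use `base_round` and `num_base`
(`c ≤ c'` and `c 1 - M ≥ 0` imply `c' 1 - M ≥ 0`).  If `k ≥ 8` take `l` from `num_step` (`k ≤ card ι ≤ N`),
`x` from `apply_round`, `k' = card {i | |x i| ≠ 1} ≤ k/2 < k`, and `z` from the induction hypothesis for `x`;
`z - x0 = (z - x) + (x - x0)` and the errors add up (`H_add`), with the sum bounded by `num_step`.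
-/

set_option autoImplicit false
set_option linter.unusedSectionVars false

open scoped Matrix Topology
open Filter

namespace MSp

variable {m κ : Type} [Fintype m] [DecidableEq m] [Fintype κ] [DecidableEq κ]

namespace IterAux

theorem mono {M : Matrix m m ℝ} {c c' : ℝ} (hcc : c ≤ c')
    (h : (c • (1 : Matrix m m ℝ) + M).PosSemidef) : (c' • (1 : Matrix m m ℝ) + M).PosSemidef := by
  have h1 := psd_add h (psd_smul (psd_one (m := m)) (sub_nonneg.2 hcc))
  have e : c • (1 : Matrix m m ℝ) + M + (c' - c) • (1 : Matrix m m ℝ) =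
      c' • (1 : Matrix m m ℝ) + M := by
    rw [sub_smul]
    abel
  rwa [e] at h1

theorem comb {M M' : Matrix m m ℝ} {c c' c'' : ℝ} (hcc : c + c' ≤ c'')
    (h : (c • (1 : Matrix m m ℝ) + M).PosSemidef) (h' : (c' • (1 : Matrix m m ℝ) + M').PosSemidef) :
    (c'' • (1 : Matrix m m ℝ) + (M' + M)).PosSemidef := by
  have h1 := psd_add h h'
  have e : c • (1 : Matrix m m ℝ) + M + (c' • (1 : Matrix m m ℝ) + M') =
      (c + c') • (1 : Matrix m m ℝ) + (M' + M) := by
    rw [add_smul]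
    abel
  rw [e] at h1
  exact mono hcc h1

end IterAux

open IterAux in
theorem iter_round {ι : Type} [Fintype ι] [DecidableEq ι] {A : ι → Matrix m m ℝ}
    {J : Matrix m m ℝ} (hA : ∀ i, (A i)ᵀ = A i) (hA1 : ∀ i, (1 - A i * A i).PosSemidef)
    (hJ : J * Jᵀ = 1) (hJA : ∀ i, J * A i * Jᵀ = - A i)
    {N : ℝ} (hN : (Fintype.card m : ℝ) ≤ N) (hN0 : 0 < N) (hNι : (Fintype.card ι : ℝ) ≤ N)
    (k : ℕ) (x0 : ι → ℝ) (hx0 : ∀ i, |x0 i| ≤ 1)
    (hk : (Finset.univ.filter fun i => |x0 i| ≠ 1).card = k) :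
    ∃ z : ι → ℝ, (∀ i, z i = 1 ∨ z i = -1) ∧
      ((700 * Real.sqrt ((k : ℝ) * (4 + Real.log (N / (k : ℝ))))) • (1 : Matrix m m ℝ)
        - H A (z - x0)).PosSemidef ∧
      ((700 * Real.sqrt ((k : ℝ) * (4 + Real.log (N / (k : ℝ))))) • (1 : Matrix m m ℝ)
        + H A (z - x0)).PosSemidef := by
  induction k using Nat.strong_induction_on generalizing x0 with
  | _ k ih =>
    have hkN : (k : ℝ) ≤ N := by
      refine le_trans ?_ hNι
      rw [← hk]
      exact_mod_cast (Finset.card_le_univ _)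
    by_cases hk8 : 8 ≤ k
    · obtain ⟨l, hl, hr, hstep⟩ := num_step hk8 hkN
      obtain ⟨x, hx, hcard, hx1, hx2⟩ := apply_round hA hA1 hJ hJA hx0 hN hN0 hk hk8 hl hr
      obtain ⟨z, hz, hz1, hz2⟩ := ih _ (by omega) x hx rfl
      have hs := hstep _ hcard
      have e : z - x0 = (z - x) + (x - x0) := by abel
      refine ⟨z, hz, ?_, ?_⟩
      · rw [e, H_add, sub_eq_add_neg, neg_add]
        rw [sub_eq_add_neg] at hx1 hz1
        exact comb hs hx1 hz1
      · rw [e, H_add]
        exact comb hs hx2 hz2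
    · obtain ⟨z, hz, h1, h2⟩ := base_round hA hA1 hx0 hk
      have hb := num_base (not_le.1 hk8) hkN
      refine ⟨z, hz, ?_, ?_⟩
      · rw [sub_eq_add_neg] at h1 ⊢
        exact mono hb h1
      · exact mono hb h2

end MSp
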