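import Pool.Agent.Lib.MSp.ECb

/-!
# The Kadison-Schwarz inequality for `EC`

Proof.  Write `K = G Gᵀ` (`psd_factor`), `f_c = H A (G · c)`, so that `EC A K M = ∑_c f_c M f_c`
(`EC_factor`) with symmetric `f_c`, and `∑_c f_c f_c = EC A K 1 ≤ (card κ) 1` (`EC_one_le`).  Use
`psd_of_quad`.  Let `z : m → ℝ`, `w_c = Mᵀ f_c z`, `u = (EC A K M)ᵀ z = ∑_c f_c w_c`.  Then
`z · (EC A K (M Mᵀ)) z = ∑_c |w_c|^2` and `z · (EC A K M)(EC A K M)ᵀ z = |u|^2`.  Now
`|u|^2 = ∑_c (f_c u) · w_c ≤ sqrt(∑_c |f_c u|^2) sqrt(∑_c |w_c|^2)` and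
`∑_c |f_c u|^2 = u · (EC A K 1) u ≤ k |u|^2`, hence `|u|^4 ≤ k |u|^2 ∑ |w_c|^2` and
`|u|^2 ≤ k ∑_c |w_c|^2`, as wanted.  (To avoid square roots: for every real `t`,
`0 ≤ ∑_c |f_c u - t w_c|^2`, i.e. `2 t |u|^2 ≤ k |u|^2 + t^2 ∑|w_c|^2`; take `t = k`, `k > 0`:
`2 k |u|^2 ≤ k |u|^2 + k^2 ∑ |w_c|^2`.  If `k = 0` then `κ` is empty and everything vanishes.)
-/

set_option autoImplicit false
set_option linter.unusedSectionVars false

open scoped Matrix Topology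
open Filter

namespace MSp

variable {m κ : Type} [Fintype m] [DecidableEq m] [Fintype κ] [DecidableEq κ]

namespace KSAux

theorem dot_self_nonneg (v : m → ℝ) : 0 ≤ v ⬝ᵥ v :=
  Finset.sum_nonneg fun i _ => mul_self_nonneg (v i)

theorem quad_mul_transpose (N : Matrix m m ℝ) (z : m → ℝ) :
    z ⬝ᵥ (N * Nᵀ) *ᵥ z = (Nᵀ *ᵥ z) ⬝ᵥ (Nᵀ *ᵥ z) := by
  rw [← Matrix.mulVec_mulVec, Matrix.dotProduct_mulVec, Matrix.mulVec_transpose]

end KSAux

open KSAux

theorem kadison_schwarz {A : κ → Matrix m m ℝ} (hA : ∀ i, (A i)ᵀ = A i)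
    (hA1 : ∀ i, (1 - A i * A i).PosSemidef) {K : Matrix κ κ ℝ} (hK : K.PosSemidef)
    (hK1 : (1 - K).PosSemidef) (M : Matrix m m ℝ) :
    ((Fintype.card κ : ℝ) • EC A K (M * Mᵀ) - EC A K M * (EC A K M)ᵀ).PosSemidef := by
  obtain ⟨G, hG⟩ := psd_factor hK
  set f : κ → Matrix m m ℝ := fun c => H A (fun a => G a c) with hf
  have hfs : ∀ c, (f c)ᵀ = f c := fun c => H_transpose A hA _
  have hE : ∀ M' : Matrix m m ℝ, EC A K M' = ∑ c, f c * M' * f c := by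
    intro M'
    rw [hG, EC_factor]
  have hMM : EC A K (M * Mᵀ) = ∑ c, (f c * M) * (f c * M)ᵀ := by
    rw [hE]
    refine Finset.sum_congr rfl fun c _ => ?_
    rw [Matrix.transpose_mul, hfs, ← Matrix.mul_assoc, ← Matrix.mul_assoc]
  have hET : (EC A K M)ᵀ = ∑ c, f c * (f c * M)ᵀ := by
    rw [hE, Matrix.transpose_sum]
    refine Finset.sum_congr rfl fun c _ => ?_
    rw [Matrix.transpose_mul (f c * M), hfs]
  refine psd_of_quad ?_ fun z => ?_
  · rw [Matrix.transpose_sub, Matrix.transpose_smul, Matrix.transpose_mul,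
      Matrix.transpose_transpose, hMM, Matrix.transpose_sum]
    congr 2
    refine Finset.sum_congr rfl fun c _ => ?_
    rw [Matrix.transpose_mul, Matrix.transpose_transpose]
  · set w : κ → m → ℝ := fun c => (f c * M)ᵀ *ᵥ z with hw
    set u : m → ℝ := (EC A K M)ᵀ *ᵥ z with hu
    have hu1 : u = ∑ c, f c *ᵥ w c := by
      rw [hu, hET, Matrix.sum_mulVec]
      refine Finset.sum_congr rfl fun c _ => ?_
      rw [← Matrix.mulVec_mulVec]
    have h1 : z ⬝ᵥ (EC A K (M * Mᵀ)) *ᵥ z = ∑ c, w c ⬝ᵥ w c := by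
      rw [hMM, Matrix.sum_mulVec, dotProduct_sum]
      exact Finset.sum_congr rfl fun c _ => quad_mul_transpose _ _
    have h2 : z ⬝ᵥ (EC A K M * (EC A K M)ᵀ) *ᵥ z = u ⬝ᵥ u := quad_mul_transpose _ _
    have h3 : u ⬝ᵥ u = ∑ c, (f c *ᵥ u) ⬝ᵥ w c := by
      conv_lhs => rw [hu1]
      rw [sum_dotProduct]
      refine Finset.sum_congr rfl fun c _ => ?_
      rw [dotProduct_comm, Matrix.dotProduct_mulVec, ← Matrix.mulVec_transpose, hfs]
      rw [hu1]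
    have h4 : ∑ c, (f c *ᵥ u) ⬝ᵥ (f c *ᵥ u) ≤ (Fintype.card κ : ℝ) * (u ⬝ᵥ u) := by
      have h5 := psd_quad (EC_one_le hA hA1 hK1) u
      have h6 : u ⬝ᵥ (EC A K 1) *ᵥ u = ∑ c, (f c *ᵥ u) ⬝ᵥ (f c *ᵥ u) := by
        rw [hE, Matrix.sum_mulVec, dotProduct_sum]
        refine Finset.sum_congr rfl fun c _ => ?_
        have h7 := quad_mul_transpose (f c) u
        rw [hfs] at h7
        rw [Matrix.mul_one, h7]
      rw [Matrix.sub_mulVec, dotProduct_sub, h6, Matrix.smul_mulVec, Matrix.one_mulVec,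
        dotProduct_smul, smul_eq_mul] at h5
      linarith
    rw [Matrix.sub_mulVec, dotProduct_sub, h2, Matrix.smul_mulVec, dotProduct_smul, smul_eq_mul,
      h1]
    rcases Nat.eq_zero_or_pos (Fintype.card κ) with hk | hk
    · have : IsEmpty κ := Fintype.card_eq_zero_iff.1 hk
      have hu0 : u ⬝ᵥ u = 0 := by
        rw [h3]
        simp
      rw [hu0]
      simp
    · have hk' : (0 : ℝ) < (Fintype.card κ : ℝ) := by exact_mod_cast hk
      set k : ℝ := (Fintype.card κ : ℝ) with hkdef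
      have h8 : 0 ≤ ∑ c, (f c *ᵥ u - k • w c) ⬝ᵥ (f c *ᵥ u - k • w c) :=
        Finset.sum_nonneg fun c _ => dot_self_nonneg _
      have h9 : ∑ c, (f c *ᵥ u - k • w c) ⬝ᵥ (f c *ᵥ u - k • w c) =
          ∑ c, (f c *ᵥ u) ⬝ᵥ (f c *ᵥ u) - 2 * k * ∑ c, (f c *ᵥ u) ⬝ᵥ w c
            + k ^ 2 * ∑ c, w c ⬝ᵥ w c := by
        rw [Finset.mul_sum, Finset.mul_sum, ← Finset.sum_sub_distrib, ← Finset.sum_add_distrib]
        refine Finset.sum_congr rfl fun c _ => ?_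
        rw [sub_dotProduct, dotProduct_sub, dotProduct_sub, smul_dotProduct, smul_dotProduct,
          dotProduct_smul, dotProduct_smul, dotProduct_comm (w c) (f c *ᵥ u)]
        simp only [smul_eq_mul]
        ring
      rw [h9, ← h3] at h8
      have h10 : 0 ≤ k * (k * ∑ c, w c ⬝ᵥ w c - u ⬝ᵥ u) := by nlinarith
      exact nonneg_of_mul_nonneg_right h10 hk'

end MSp
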