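import Pool.Agent.Lib.MSp.Psd

/-!
# An orthonormal family orthogonal to given vectors

Proof.  In the Euclidean space `EuclideanSpace ℝ κ` let `S` be the span of `T`; its dimension is at most
`card T` (`finrank_span_finset_le_card`), so its orthogonal complement has dimension at least
`card κ - card T ≥ w` and has an orthonormal basis (`stdOrthonormalBasis`); take `w` of its vectors.
-/

set_option autoImplicit false
set_option linter.unusedSectionVars false

open scoped Matrix Topology
open Filter

namespace MSp

variable {m κ : Type} [Fintype m] [DecidableEq m] [Fintype κ] [DecidableEq κ]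

theorem exists_ortho (T : Finset (κ → ℝ)) (w : ℕ) (hw : w + T.card ≤ Fintype.card κ) :
    ∃ v : Fin w → κ → ℝ, (∀ i j, v i ⬝ᵥ v j = if i = j then 1 else 0) ∧
      ∀ j, ∀ u ∈ T, u ⬝ᵥ v j = 0 := by
  classical
  set f : (κ → ℝ) → EuclideanSpace ℝ κ := fun u => WithLp.toLp 2 u with hf
  set S : Submodule ℝ (EuclideanSpace ℝ κ) := Submodule.span ℝ ((T.image f : Finset _) : Set _)
    with hS
  have h1 : Module.finrank ℝ S ≤ T.card :=
    (finrank_span_finset_le_card (T.image f)).trans Finset.card_image_le
  have h2 : Module.finrank ℝ S + Module.finrank ℝ Sᗮ = Fintype.card κ := by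
    rw [Submodule.finrank_add_finrank_orthogonal, finrank_euclideanSpace]
  have h3 : w ≤ Module.finrank ℝ Sᗮ := by omega
  let b := stdOrthonormalBasis ℝ Sᗮ
  have hinner : ∀ x y : EuclideanSpace ℝ κ, (inner ℝ x y : ℝ) = (fun i => x i) ⬝ᵥ (fun i => y i) := by
    intro x y
    simp [PiLp.inner_apply, dotProduct, mul_comm]
  refine ⟨fun i a => ((b (Fin.castLE h3 i) : Sᗮ) : EuclideanSpace ℝ κ) a, ?_, ?_⟩
  · intro i j
    have h4 := (orthonormal_iff_ite.mp b.orthonormal) (Fin.castLE h3 i) (Fin.castLE h3 j)
    rw [Submodule.coe_inner, hinner] at h4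
    rw [h4]
    simp [Fin.castLE_inj]
  · intro j u hu
    have h5 : f u ∈ S := Submodule.subset_span (by
      simp only [Finset.coe_image]
      exact ⟨u, hu, rfl⟩)
    have h6 := (Submodule.mem_orthogonal S _).mp (b (Fin.castLE h3 j)).2 (f u) h5
    rw [hinner] at h6
    exact h6

end MSp
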