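import Pool.Agent.Lib.MSp.EigA
import Pool.Agent.Lib.MSp.OrthoF

/-!
# Choice of the directions

Proof.  Let `T0, T1` be the sets of `few_large` for `B0, t0` and `B1, t1`, `T2` the set of `few_small`,
`T3` the set of unit vectors `Pi.single i 1` with `i ∉ Fr`, and `T4 = {x}`; `T` the union.  The
cardinalities: `card T0 ≤ tr B0 / t0 ≤ k/32`, `card T1 ≤ k/32`, `card T2 ≤ 2 k/32 = k/16`,
`card T3 ≤ k - card Fr < k/2`, i.e. `card T3 + card Fr ≤ k`, `card T4 ≤ 1`.  Put `w = k - card T`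
(natural subtraction; it is `≥ 0` as an honest difference).  Then
`w ≥ card Fr - 1 - k/8 > k/2 - 1 - k/8 = 3k/8 - 1`, and `3k/8 - 1 ≥ k/4` because `k ≥ 8`; so `k ≤ 4 w`.
Take the family of `exists_ortho`.  For `y : Fin w → ℝ` the vector `u = ∑ y_j v_j` is orthogonal to `T`
and `∑ u_i^2 = ∑ y_j^2` by orthonormality.
-/

set_option autoImplicit false
set_option linter.unusedSectionVars false

open scoped Matrix Topology
open Filter

namespace MSp

variable {m κ : Type} [Fintype m] [DecidableEq m] [Fintype κ] [DecidableEq κ]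

namespace LightAux

theorem dot_comb {w : ℕ} (v : Fin w → κ → ℝ) (u : κ → ℝ) (y : Fin w → ℝ) :
    u ⬝ᵥ (∑ j, y j • v j) = ∑ j, y j * (u ⬝ᵥ v j) := by
  rw [dotProduct_sum]
  refine Finset.sum_congr rfl ?_
  intro j _
  rw [dotProduct_smul, smul_eq_mul]

theorem norm_comb {w : ℕ} (v : Fin w → κ → ℝ)
    (hv : ∀ i j, v i ⬝ᵥ v j = if i = j then 1 else 0) (y : Fin w → ℝ) :
    ∑ i, (∑ j, y j • v j) i ^ 2 = ∑ j, y j ^ 2 := by
  have h1 : ∑ i, (∑ j, y j • v j) i ^ 2 = (∑ j, y j • v j) ⬝ᵥ (∑ j, y j • v j) := by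
    rw [dotProduct]
    refine Finset.sum_congr rfl ?_
    intro i _
    rw [sq]
  rw [h1, dot_comb]
  refine Finset.sum_congr rfl ?_
  intro j _
  rw [dotProduct_comm, dot_comb]
  have h2 : ∑ i, y i * (v j ⬝ᵥ v i) = y j := by
    rw [Finset.sum_eq_single j]
    · rw [hv, if_pos rfl, mul_one]
    · intro i _ hij
      rw [hv, if_neg (fun h => hij h.symm), mul_zero]
    · intro h
      exact absurd (Finset.mem_univ j) h
  rw [h2, sq]

theorem card_le_of {c k : ℕ} {t : ℝ} (ht : 0 < t) {B : ℝ} (h : t * (c : ℝ) ≤ B)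
    (hB : B ≤ (k : ℝ) / 32 * t) : 32 * c ≤ k := by
  have h1 : t * (c : ℝ) ≤ t * ((k : ℝ) / 32) := by
    rw [mul_comm t ((k : ℝ) / 32)]
    exact h.trans hB
  have h2 : (c : ℝ) ≤ (k : ℝ) / 32 := le_of_mul_le_mul_left h1 ht
  have h3 : (32 : ℝ) * (c : ℝ) ≤ (k : ℝ) := by linarith
  exact_mod_cast h3

end LightAux

theorem exists_light {K B0 B1 : Matrix κ κ ℝ} (hk : 8 ≤ Fintype.card κ) (hK : K.PosSemidef)
    (hK1 : (1 - K).PosSemidef) (hKt : (1 - K).trace ≤ (Fintype.card κ : ℝ) / 32)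
    (hB0 : B0.PosSemidef) (hB1 : B1.PosSemidef) {t0 t1 : ℝ} (ht0 : 0 < t0) (ht1 : 0 < t1)
    (hB0t : B0.trace ≤ (Fintype.card κ : ℝ) / 32 * t0)
    (hB1t : B1.trace ≤ (Fintype.card κ : ℝ) / 32 * t1) (x : κ → ℝ) (Fr : Finset κ)
    (hFr : Fintype.card κ < 2 * Fr.card) :
    ∃ (w : ℕ) (v : Fin w → κ → ℝ), Fintype.card κ ≤ 4 * w ∧
      (∀ i j, v i ⬝ᵥ v j = if i = j then 1 else 0) ∧ (∀ j, v j ⬝ᵥ x = 0) ∧
      (∀ j, ∀ i ∉ Fr, v j i = 0) ∧
      (K - (1 / 2 : ℝ) • ∑ j, Matrix.vecMulVec (v j) (v j)).PosSemidef ∧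
      (∀ y : Fin w → ℝ, (∑ j, y j • v j) ⬝ᵥ B0 *ᵥ (∑ j, y j • v j) ≤ t0 * ∑ j, y j ^ 2) ∧
      (∀ y : Fin w → ℝ, (∑ j, y j • v j) ⬝ᵥ B1 *ᵥ (∑ j, y j • v j) ≤ t1 * ∑ j, y j ^ 2) := by
  classical
  obtain ⟨T0, hT0c, hT0⟩ := few_large hB0 ht0
  obtain ⟨T1, hT1c, hT1⟩ := few_large hB1 ht1
  obtain ⟨T2, hT2c, hT2⟩ := few_small hK hK1
  let T3 : Finset (κ → ℝ) := (Frᶜ).image (fun i => (Pi.single i 1 : κ → ℝ))
  have c0 : 32 * T0.card ≤ Fintype.card κ := LightAux.card_le_of ht0 hT0c hB0t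
  have c1 : 32 * T1.card ≤ Fintype.card κ := LightAux.card_le_of ht1 hT1c hB1t
  have c2 : 16 * T2.card ≤ Fintype.card κ := by
    have h3 : (16 : ℝ) * (T2.card : ℝ) ≤ (Fintype.card κ : ℝ) := by linarith
    exact_mod_cast h3
  have c3 : T3.card + Fr.card ≤ Fintype.card κ := by
    have h1 : T3.card ≤ (Frᶜ).card := Finset.card_image_le
    have h2 := Finset.card_add_card_compl Fr
    omega
  let T : Finset (κ → ℝ) := T0 ∪ (T1 ∪ (T2 ∪ (T3 ∪ {x})))
  have cT : T.card ≤ T0.card + (T1.card + (T2.card + (T3.card + 1))) := by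
    refine (Finset.card_union_le _ _).trans (Nat.add_le_add_left ?_ _)
    refine (Finset.card_union_le _ _).trans (Nat.add_le_add_left ?_ _)
    refine (Finset.card_union_le _ _).trans (Nat.add_le_add_left ?_ _)
    refine (Finset.card_union_le _ _).trans (Nat.add_le_add_left ?_ _)
    exact le_of_eq (Finset.card_singleton x)
  have hw1 : (Fintype.card κ - T.card) + T.card ≤ Fintype.card κ := by omega
  have hw2 : Fintype.card κ ≤ 4 * (Fintype.card κ - T.card) := by omega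
  obtain ⟨v, hv, hvT⟩ := exists_ortho T (Fintype.card κ - T.card) hw1
  have m0 : ∀ u ∈ T0, u ∈ T := fun u hu => Finset.mem_union_left _ hu
  have m1 : ∀ u ∈ T1, u ∈ T := fun u hu =>
    Finset.mem_union_right _ (Finset.mem_union_left _ hu)
  have m2 : ∀ u ∈ T2, u ∈ T := fun u hu =>
    Finset.mem_union_right _ (Finset.mem_union_right _ (Finset.mem_union_left _ hu))
  have m3 : ∀ u ∈ T3, u ∈ T := fun u hu =>
    Finset.mem_union_right _ (Finset.mem_union_right _ (Finset.mem_union_right _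
      (Finset.mem_union_left _ hu)))
  have m4 : x ∈ T :=
    Finset.mem_union_right _ (Finset.mem_union_right _ (Finset.mem_union_right _
      (Finset.mem_union_right _ (Finset.mem_singleton_self x))))
  refine ⟨Fintype.card κ - T.card, v, hw2, hv, ?_, ?_, ?_, ?_, ?_⟩
  · intro j
    rw [dotProduct_comm]
    exact hvT j x m4
  · intro j i hi
    have h1 := hvT j (Pi.single i 1) (m3 _ (Finset.mem_image.mpr
      ⟨i, Finset.mem_compl.mpr hi, rfl⟩))
    rwa [single_one_dotProduct] at h1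
  · exact hT2 _ v hv (fun j u hu => hvT j u (m2 u hu))
  · intro y
    have h1 := hT0 (∑ j, y j • v j) (fun u hu => by
      rw [LightAux.dot_comb]
      refine Finset.sum_eq_zero ?_
      intro j _
      rw [hvT j u (m0 u hu), mul_zero])
    rwa [LightAux.norm_comb v hv] at h1
  · intro y
    have h1 := hT1 (∑ j, y j • v j) (fun u hu => by
      rw [LightAux.dot_comb]
      refine Finset.sum_eq_zero ?_
      intro j _
      rw [hvT j u (m1 u hu), mul_zero])
    rwa [LightAux.norm_comb v hv] at h1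

end MSp
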