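import Pool.Agent.Lib.MSp.Psd

/-!
# The quadratic form `y ↦ tr (P H(y) T H(y))`

Proof.  Expand `H A y = ∑ y_a A_a` for `quad_eq`.  Symmetry of the matrix: transposing inside the trace,
`tr (P A_a T A_b) = tr (A_b T A_a P) = tr (P A_b T A_a)` (`P`, `T`, `A` symmetric, cyclicity).
Nonnegativity: `tr (P H T H)` with `H T H ≥ 0` (`psd_sandwich`, `H_transpose`), `psd_trace_nonneg`.
-/

set_option autoImplicit false
set_option linter.unusedSectionVars false

open scoped Matrix Topology
open Filter

namespace MSp

variable {m κ : Type} [Fintype m] [DecidableEq m] [Fintype κ] [DecidableEq κ]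

theorem quad_eq (A : κ → Matrix m m ℝ) (P T : Matrix m m ℝ) (y : κ → ℝ) :
    y ⬝ᵥ (Matrix.of fun a c => (P * A a * T * A c).trace) *ᵥ y
      = (P * H A y * T * H A y).trace := by
  have h1 : P * H A y * T * H A y = ∑ a, ∑ c, (y a * y c) • (P * A a * T * A c) := by
    simp only [H, Finset.mul_sum, Finset.sum_mul, Matrix.mul_smul, Matrix.smul_mul, smul_smul]
    rw [Finset.sum_comm]
    refine Finset.sum_congr rfl fun a _ => Finset.sum_congr rfl fun c _ => ?_
    rw [mul_comm (y c)]
  rw [h1]
  simp only [Matrix.trace_sum, Matrix.trace_smul, dotProduct, Matrix.mulVec, Matrix.of_apply,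
    Finset.mul_sum, smul_eq_mul]
  refine Finset.sum_congr rfl fun a _ => Finset.sum_congr rfl fun c _ => ?_
  ring

theorem quad_psd {A : κ → Matrix m m ℝ} (hA : ∀ i, (A i)ᵀ = A i) {P T : Matrix m m ℝ}
    (hP : P.PosSemidef) (hT : T.PosSemidef) :
    (Matrix.of fun a c => (P * A a * T * A c).trace : Matrix κ κ ℝ).PosSemidef := by
  refine psd_of_quad ?_ fun z => ?_
  · ext a c
    rw [Matrix.transpose_apply, Matrix.of_apply, Matrix.of_apply]
    have h1 : (P * A c * T * A a)ᵀ = A a * T * A c * P := by
      rw [Matrix.transpose_mul, Matrix.transpose_mul, Matrix.transpose_mul, hA, hA, psd_sym hP,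
        psd_sym hT]
      simp only [Matrix.mul_assoc]
    rw [← Matrix.trace_transpose, h1, Matrix.trace_mul_comm]
    simp only [Matrix.mul_assoc]
  · rw [quad_eq]
    have h2 : P * H A z * T * H A z = P * (H A z * T * H A z) := by
      simp only [Matrix.mul_assoc]
    rw [h2]
    exact psd_trace_nonneg hP (psd_sandwich hT (H_transpose A hA z))

end MSp
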