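import Pool.Agent.Lib.MSp.StateB
import Pool.Agent.Lib.MSp.Light
import Pool.Agent.Lib.MSp.Quad
import Pool.Agent.Lib.MSp.TrInt

/-!
# Choice of the directions at an admissible state

Names: `R = D.R x U` (positive definite), `k = D.k`, `b = D.b`, `r = 10/b`.

Proof.  Apply `exists_light` with `B0 = (tr (R R A_a (R0 R0) A_c))_{a,c}`, `B1` the same with `R1`
(`quad_psd`; `R R`, `R0 R0`, `R1 R1` are positive semidefinite), `t0 = 128 N/b^4`,
`t1 = 96 N/(10^l b^4)`, `Fr = {i | |x_i| ≠ 1}`, and `tr_one_sub_K`.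
The traces: `tr B0 = ∑_a tr (R R A_a (R0 R0) A_a) ≤ ∑_a tr (R^2 A_a R^2 A_a) ≤ k tr R^4 ≤ 4 k N/b^4`
(`h0sq` and monotonicity; `trace_young`; `trR_four`), which is `k/32 t0`.
`tr B1 ≤ ∑_a (b/10)^l tr (R^2 A_a R^(l+2) A_a) ≤ (b/10)^l k tr R^(l+4) ≤ (b/10)^l k 3 N / b^q`
(`h1sq` gives `R1 R1 ≤ (b/10)^l R^(l+2)`; `trace_young`; `trR_q`, `q = l+4`), which is
`3 k N/(10^l b^4) = k/32 t1`.  Convert the quadratic forms with `quad_eq`.
-/

set_option autoImplicit false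
set_option linter.unusedSectionVars false

open scoped Matrix Topology
open Filter

namespace MSp

variable {m κ : Type} [Fintype m] [DecidableEq m] [Fintype κ] [DecidableEq κ]

namespace LightDAux

theorem tr_cyc (P A T : Matrix m m ℝ) : (P * A * T * A).trace = (A * P * A * T).trace := by
  rw [Matrix.trace_mul_comm, ← Matrix.mul_assoc, ← Matrix.mul_assoc]

/-- comparison of the weights -/
theorem tr_le {P A T T' : Matrix m m ℝ} (hP : P.PosSemidef) (hA : Aᵀ = A) (h : (T' - T).PosSemidef) :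
    (P * A * T * A).trace ≤ (P * A * T' * A).trace := by
  rw [tr_cyc, tr_cyc]
  exact trace_mono (psd_sandwich hP hA) h

end LightDAux

theorem light_family (D : Dat m κ) {x : κ → ℝ} {U : Matrix m m ℝ} {K : Matrix κ κ ℝ}
    (h : D.Good x U K) {R0 R1 : Matrix m m ℝ} (hR0 : R0.PosSemidef) (hR1 : R1.PosSemidef)
    (h0sq : (D.R x U * D.R x U - R0 * R0).PosSemidef)
    (h1sq : (D.R x U ^ (D.l + 2) - (10 / D.b) ^ D.l • (R1 * R1)).PosSemidef)
    (hfree : Fintype.card κ < 2 * (Finset.univ.filter fun i => |x i| ≠ 1).card) :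
    ∃ (w : ℕ) (v : Fin w → κ → ℝ), Fintype.card κ ≤ 4 * w ∧
      (∀ i j, v i ⬝ᵥ v j = if i = j then 1 else 0) ∧ (∀ j, v j ⬝ᵥ x = 0) ∧
      (∀ j, ∀ i, |x i| = 1 → v j i = 0) ∧
      (K - (1 / 2 : ℝ) • ∑ j, Matrix.vecMulVec (v j) (v j)).PosSemidef ∧
      (∀ y : Fin w → ℝ, (D.R x U * D.R x U * H D.A (∑ j, y j • v j) * (R0 * R0)
        * H D.A (∑ j, y j • v j)).trace ≤ 128 * D.N / D.b ^ 4 * ∑ j, y j ^ 2) ∧
      (∀ y : Fin w → ℝ, (D.R x U * D.R x U * H D.A (∑ j, y j • v j) * (R1 * R1)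
        * H D.A (∑ j, y j • v j)).trace ≤ 96 * D.N / (10 ^ D.l * D.b ^ 4) * ∑ j, y j ^ 2) := by
  set R : Matrix m m ℝ := D.R x U with hR
  have hRd : R.PosDef := pd_inv h.hX
  have hRp : R.PosSemidef := hRd.posSemidef
  have hPe : R * R = R ^ 2 := (pow_two R).symm
  have hP : (R * R).PosSemidef := by rw [hPe]; exact psd_pow hRp 2
  have hT0 : (R0 * R0).PosSemidef := by rw [← pow_two]; exact psd_pow hR0 2
  have hT1 : (R1 * R1).PosSemidef := by rw [← pow_two]; exact psd_pow hR1 2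
  have hb : 0 < D.b := D.b_pos
  have hN : 0 < D.N := D.N_pos
  have hk0 : (0 : ℝ) ≤ (Fintype.card κ : ℝ) := Nat.cast_nonneg _
  have ht0 : 0 < 128 * D.N / D.b ^ 4 := by positivity
  have ht1 : 0 < 96 * D.N / (10 ^ D.l * D.b ^ 4) := by positivity
  set B0 : Matrix κ κ ℝ := Matrix.of fun a c => (R * R * D.A a * (R0 * R0) * D.A c).trace with hB0
  set B1 : Matrix κ κ ℝ := Matrix.of fun a c => (R * R * D.A a * (R1 * R1) * D.A c).trace with hB1
  have hB0p : B0.PosSemidef := quad_psd D.symA hP hT0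
  have hB1p : B1.PosSemidef := quad_psd D.symA hP hT1
  -- the traces
  have c0 : ∀ a, (R * R * D.A a * (R0 * R0) * D.A a).trace ≤ 4 * D.N / D.b ^ 4 := by
    intro a
    refine (LightDAux.tr_le hP (D.symA a) h0sq).trans ?_
    rw [hPe]
    refine (trace_young hRp (D.symA a) (D.sqA a) 2 2).trans ?_
    have h4 := trR_four D h
    rw [le_div_iff₀ (by positivity), mul_comm]
    exact h4
  have c1 : ∀ a, (R * R * D.A a * (R1 * R1) * D.A a).trace ≤ 3 * D.N / (10 ^ D.l * D.b ^ 4) := by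
    intro a
    have h1 := LightDAux.tr_le hP (D.symA a) h1sq
    rw [Matrix.mul_smul, Matrix.smul_mul, Matrix.trace_smul, smul_eq_mul] at h1
    have h2 : (R * R * D.A a * R ^ (D.l + 2) * D.A a).trace ≤ (R ^ (2 + (D.l + 2))).trace := by
      rw [hPe]
      exact trace_young hRp (D.symA a) (D.sqA a) 2 (D.l + 2)
    have h3 : D.b ^ (D.l + 4) * (R ^ (D.l + 4)).trace ≤ 3 * D.N := trR_q D h
    have e : 2 + (D.l + 2) = D.l + 4 := by ring
    rw [e] at h2
    have h4 : (10 / D.b) ^ D.l * (R * R * D.A a * (R1 * R1) * D.A a).trace ≤ (R ^ (D.l + 4)).trace :=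
      h1.trans h2
    have h5 : D.b ^ (D.l + 4) * ((10 / D.b) ^ D.l * (R * R * D.A a * (R1 * R1) * D.A a).trace) ≤ 3 * D.N :=
      (mul_le_mul_of_nonneg_left h4 (by positivity)).trans h3
    have e2 : D.b ^ (D.l + 4) * ((10 / D.b) ^ D.l * (R * R * D.A a * (R1 * R1) * D.A a).trace) =
        (R * R * D.A a * (R1 * R1) * D.A a).trace * (10 ^ D.l * D.b ^ 4) := by
      rw [div_pow, pow_add]
      field_simp
    rw [e2] at h5
    rw [le_div_iff₀ (by positivity)]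
    exact h5
  have hB0t : B0.trace ≤ (Fintype.card κ : ℝ) / 32 * (128 * D.N / D.b ^ 4) := by
    have h1 : B0.trace ≤ ∑ _a : κ, 4 * D.N / D.b ^ 4 := Finset.sum_le_sum fun a _ => c0 a
    rw [Finset.sum_const, Finset.card_univ, nsmul_eq_mul] at h1
    refine h1.trans (le_of_eq ?_)
    ring
  have hB1t : B1.trace ≤ (Fintype.card κ : ℝ) / 32 * (96 * D.N / (10 ^ D.l * D.b ^ 4)) := by
    have h1 : B1.trace ≤ ∑ _a : κ, 3 * D.N / (10 ^ D.l * D.b ^ 4) := Finset.sum_le_sum fun a _ => c1 a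
    rw [Finset.sum_const, Finset.card_univ, nsmul_eq_mul] at h1
    refine h1.trans (le_of_eq ?_)
    ring
  obtain ⟨w, v, h1, h2, h3, h4, h5, h6, h7⟩ := exists_light D.eight_le h.hK h.hK1 (tr_one_sub_K D h)
    hB0p hB1p ht0 ht1 hB0t hB1t x (Finset.univ.filter fun i => |x i| ≠ 1) hfree
  refine ⟨w, v, h1, h2, h3, fun j i hi => h4 j i ?_, h5, fun y => ?_, fun y => ?_⟩
  · rw [Finset.mem_filter]
    exact fun h8 => h8.2 hi
  · have h8 := h6 y
    rw [hB0, quad_eq] at h8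
    exact h8
  · have h8 := h7 y
    rw [hB1, quad_eq] at h8
    exact h8

end MSp
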