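import Pool.Agent.Lib.MSp.Iter
import Pool.Agent.Lib.MSp.Dil

/-!
# The linear discrepancy theorem for matrices

Proof.  If `n = 0` the sum is zero.  Otherwise apply `iter_round` to `ι = Fin n`, the dilations
`dil (A i)`, `J = dilJ d`, `N = max (2 d) n` and `k = card {i | |x0 i| ≠ 1} ≤ n`; then `norm_of_dil` and
`dil_sum` give the norm bound `c = 700 sqrt (k (4 + log(N/k)))`.  With `L = max 1 (sqrt (log (d/n)))`:
if `k = 0` this is zero.  If `1 ≤ k ≤ n`, put `k = s n`, `0 < s ≤ 1`: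
`k (4 + log (N/k)) = s n (4 + log (N/n) - log s) ≤ n (4 + log (N/n)) + n` (as `- s log s ≤ 1` and `log (N/n) ≥ 0`),
and `log(N/n) ≤ 1 + L^2`: if `2d ≤ n` it is zero, otherwise `log(2d/n) ≤ 1 + log (d/n) ≤ 1 + L^2`
(`log (d/n) ≤ L^2`: clear if `log (d/n) ≤ 0`, otherwise `sqrt` squared).  So
`k (4 + log (N/k)) ≤ n (6 + L^2) ≤ 7 n L^2` and `700 sqrt 7 ≤ 2000`.
-/

set_option autoImplicit false
set_option linter.unusedSectionVars false

open scoped Matrix Topology
open Filter

namespace MSp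

variable {m κ : Type} [Fintype m] [DecidableEq m] [Fintype κ] [DecidableEq κ]

private theorem num_bound {d n : ℕ} (hn : 0 < n) {k : ℕ} (hk : k ≤ n) {N : ℝ}
    (hN : N = max (2 * (d : ℝ)) (n : ℝ)) :
    700 * Real.sqrt ((k : ℝ) * (4 + Real.log (N / (k : ℝ)))) ≤
      2000 * Real.sqrt (n : ℝ) * max 1 (Real.sqrt (Real.log ((d : ℝ) / (n : ℝ)))) := by
  set L : ℝ := max 1 (Real.sqrt (Real.log ((d : ℝ) / (n : ℝ)))) with hL
  have hn0 : (0 : ℝ) < n := by exact_mod_cast hn
  have hL1 : 1 ≤ L := le_max_left _ _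
  have hL2 : 1 ≤ L ^ 2 := by nlinarith
  have hkn : (k : ℝ) ≤ n := by exact_mod_cast hk
  have hNn : (n : ℝ) ≤ N := by rw [hN]; exact le_max_right _ _
  have hN0 : 0 < N := by linarith
  -- `log (d / n) ≤ L²`
  have hlog : Real.log ((d : ℝ) / (n : ℝ)) ≤ L ^ 2 := by
    by_cases h : Real.log ((d : ℝ) / (n : ℝ)) ≤ 0
    · linarith
    · push Not at h
      have h1 : Real.sqrt (Real.log ((d : ℝ) / (n : ℝ))) ≤ L := le_max_right _ _
      have h2 := pow_le_pow_left₀ (Real.sqrt_nonneg _) h1 2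
      rwa [Real.sq_sqrt h.le] at h2
  have hlogN : Real.log (N / (n : ℝ)) ≤ 1 + L ^ 2 := by
    by_cases h : 2 * (d : ℝ) ≤ n
    · rw [hN, max_eq_right h, div_self hn0.ne', Real.log_one]
      linarith
    · push Not at h
      have hd : (0 : ℝ) < d := by linarith
      rw [hN, max_eq_left h.le, mul_div_assoc,
        Real.log_mul (by norm_num) (by positivity)]
      have := Real.log_two_lt_d9
      linarith
  have hlogN0 : 0 ≤ Real.log (N / (n : ℝ)) :=
    Real.log_nonneg (by rw [le_div_iff₀ hn0]; linarith)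
  have key : (k : ℝ) * (4 + Real.log (N / (k : ℝ))) ≤ 7 * n * L ^ 2 := by
    rcases Nat.eq_zero_or_pos k with rfl | hk0
    · simp only [Nat.cast_zero, zero_mul]
      positivity
    · have hk0' : (0 : ℝ) < k := by exact_mod_cast hk0
      have h1 : Real.log (N / (k : ℝ)) = Real.log (N / (n : ℝ)) + Real.log ((n : ℝ) / k) := by
        rw [← Real.log_mul (by positivity) (by positivity)]
        congr 1
        field_simp
      have h2 : Real.log ((n : ℝ) / k) ≤ (n : ℝ) / k - 1 :=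
        Real.log_le_sub_one_of_pos (by positivity)
      have h3 : (k : ℝ) * Real.log ((n : ℝ) / k) ≤ n := by
        calc (k : ℝ) * Real.log ((n : ℝ) / k) ≤ k * ((n : ℝ) / k - 1) :=
              mul_le_mul_of_nonneg_left h2 hk0'.le
          _ = n - k := by field_simp
          _ ≤ n := by linarith
      have h4 : (k : ℝ) * (4 + Real.log (N / (n : ℝ))) ≤ n * (4 + Real.log (N / (n : ℝ))) :=
        mul_le_mul_of_nonneg_right hkn (by linarith)
      calc (k : ℝ) * (4 + Real.log (N / (k : ℝ)))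
          = (k : ℝ) * (4 + Real.log (N / (n : ℝ))) + (k : ℝ) * Real.log ((n : ℝ) / k) := by
            rw [h1]; ring
        _ ≤ n * (4 + (1 + L ^ 2)) + n := by nlinarith
        _ ≤ 7 * n * L ^ 2 := by nlinarith
  have h7 : Real.sqrt 7 ≤ 20 / 7 := by
    rw [Real.sqrt_le_left (by norm_num)]; norm_num
  have h8 : Real.sqrt (7 * n * L ^ 2) = Real.sqrt 7 * Real.sqrt n * L := by
    rw [Real.sqrt_mul (by positivity), Real.sqrt_mul (by norm_num), Real.sqrt_sq (by linarith)]
  calc 700 * Real.sqrt ((k : ℝ) * (4 + Real.log (N / (k : ℝ))))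
      ≤ 700 * Real.sqrt (7 * n * L ^ 2) :=
        mul_le_mul_of_nonneg_left (Real.sqrt_le_sqrt key) (by norm_num)
    _ = (700 * Real.sqrt 7) * (Real.sqrt n * L) := by rw [h8]; ring
    _ ≤ 2000 * (Real.sqrt n * L) :=
        mul_le_mul_of_nonneg_right (by linarith) (by positivity)
    _ = _ := by ring

theorem lin_disc (d n : ℕ) (A : Fin n → Matrix (Fin d) (Fin d) ℝ)
    (hA : ∀ i, ‖Matrix.toEuclideanCLM (𝕜 := ℝ) (A i)‖ ≤ 1) (x0 : Fin n → ℝ)
    (hx0 : ∀ i, |x0 i| ≤ 1) :
    ∃ z : Fin n → ℝ, (∀ i, z i = 1 ∨ z i = -1) ∧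
      ‖Matrix.toEuclideanCLM (𝕜 := ℝ) (∑ i, (z i - x0 i) • A i)‖ ≤
        2000 * Real.sqrt (n : ℝ) * max 1 (Real.sqrt (Real.log ((d : ℝ) / (n : ℝ)))) := by
  rcases Nat.eq_zero_or_pos n with rfl | hn
  · refine ⟨fun _ => 1, fun i => i.elim0, ?_⟩
    simp
  · have hn0 : (0 : ℝ) < n := by exact_mod_cast hn
    obtain ⟨z, hz, h1, -⟩ := iter_round (m := Fin d ⊕ Fin d) (A := fun i => dil (A i))
      (J := dilJ d) (fun i => dil_sym _) (fun i => dil_sq (hA i)) (dil_J_orth d)
      (fun i => dil_J_conj _) (N := max (2 * (d : ℝ)) (n : ℝ))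
      (by
        rw [Fintype.card_sum, Fintype.card_fin]
        push_cast
        exact le_max_of_le_left (by linarith))
      (lt_max_of_lt_right hn0) (by rw [Fintype.card_fin]; exact le_max_right _ _)
      _ x0 hx0 rfl
    refine ⟨z, hz, ?_⟩
    have h2 : H (fun i => dil (A i)) (z - x0) = dil (∑ i, (z i - x0 i) • A i) := dil_sum _ _
    rw [h2] at h1
    refine (norm_of_dil (by positivity) h1).trans (num_bound hn ?_ rfl)
    exact (Finset.card_le_univ _).trans (by rw [Fintype.card_fin])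

end MSp
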