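import Pool.Agent.Lib.MSp.StateB
import Pool.Agent.Lib.MSp.PowInv
import Pool.Agent.Lib.MSp.OpenPD

/-!
# The expansion of the potential along a step

Names: `R = D.R x U`, `S = D.S x U K`, `Hv = H D.A v`, `al`, `tau = D.tau x`, `k = D.k`,
`x t = x + t v`, `U t = U + t^2 V`.

Proof.  `e (x t) = e x + t^2` (`hvx`, `hv`), so `tau (x t) = tau - t^2 8/k`.
`X t = D.X (x t) (U t) = X - t Hv + t^2 V` (`H_add`, `H_smul`), an `Ex2` with coefficients
`X, -Hv, V` (`Ex2_affine`, `Ex2_sq_smul`, `Ex2_add`).  By `Ex2_inv`, `(X t)⁻¹` has the coefficients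
`R, R Hv R, R Hv R Hv R - R V R`.  `EC A K` is linear and continuous, so (`Ex2_linear`, `Ex2_smul`)
`Y t = 3b - U t - al (tau - t^2 8/k) E_K((X t)⁻¹)` has the coefficients
`Y`, `- al tau E_K(R Hv R) = - Nz`,
`- V + al 8/k E_K(R) - al tau E_K(R Hv R Hv R - R V R) = - Dr`
(`D.Nz`, `D.Dr` from `Defs`).  Both matrices are symmetric for every `t` (`H_transpose`, `EC_transpose`,
`Matrix.transpose_nonsing_inv`) and continuous at `0`, so they are positive definite near `0`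
(`eventually_posDef`).  For the continuity at `0` use `Ex2_continuousAt`.
`pow_inv_expand` for `X t` (`X1 = Hv`, `X2 = V`, `n = q`) and for `Y t` (`X1 = Nz`, `X2 = - Dr`, `n = p`)
bounds the second order coefficients of the two traces:
`- q tr(R^(q+1) V) + q(q+1)/2 tr(R^(q+1) Hv R Hv)` and
`p tr(S^(p+1) Dr) + p(p+1)/2 tr(S^(p+1) Nz S Nz)`.  The term `96/k tr(1-K)` is constant and
`- e/k` contributes `- 1/k`.
-/

set_option autoImplicit false
set_option linter.unusedSectionVars false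

open scoped Matrix Topology
open Filter

namespace MSp

variable {m κ : Type} [Fintype m] [DecidableEq m] [Fintype κ] [DecidableEq κ]


namespace StepAux

theorem e_line (D : Dat m κ) {x v : κ → ℝ} (hvx : v ⬝ᵥ x = 0) (hv : v ⬝ᵥ v = 1) (t : ℝ) :
    D.e (x + t • v) = D.e x + t ^ 2 := by
  have h1 : ∑ i, v i * x i = 0 := hvx
  have h2 : ∑ i, v i * v i = 1 := hv
  have h3 : ∑ i, (x + t • v) i ^ 2 = ∑ i, x i ^ 2 + 2 * t * ∑ i, v i * x i + t ^ 2 * ∑ i, v i * v i := by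
    rw [Finset.mul_sum, Finset.mul_sum, ← Finset.sum_add_distrib, ← Finset.sum_add_distrib]
    refine Finset.sum_congr rfl fun i _ => ?_
    simp only [Pi.add_apply, Pi.smul_apply, smul_eq_mul]
    ring
  unfold Dat.e
  rw [h3, h1, h2]
  ring

theorem tau_line (D : Dat m κ) {x v : κ → ℝ} (hvx : v ⬝ᵥ x = 0) (hv : v ⬝ᵥ v = 1) (t : ℝ) :
    D.tau (x + t • v) = D.tau x - t ^ 2 * (8 / D.k) := by
  unfold Dat.tau
  rw [e_line D hvx hv t]
  ring

theorem X_line (D : Dat m κ) (x v : κ → ℝ) (U V : Matrix m m ℝ) (t : ℝ) :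
    D.X (x + t • v) (U + t ^ 2 • V) = D.X x U + t • (-H D.A v) + t ^ 2 • V := by
  unfold Dat.X
  have h1 : x + t • v - D.x0 = (x - D.x0) + t • v := by abel
  rw [h1, H_add, H_smul, smul_neg]
  abel

/-- the linear map `EC A K` -/
def ecL (A : κ → Matrix m m ℝ) (K : Matrix κ κ ℝ) : Matrix m m ℝ →ₗ[ℝ] Matrix m m ℝ where
  toFun := EC A K
  map_add' := EC_add_right A K
  map_smul' := EC_smul_right A K

theorem ecL_cont (A : κ → Matrix m m ℝ) (K : Matrix κ κ ℝ) : Continuous (ecL A K) := by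
  have h := EC_continuous A
  exact h.comp (continuous_const.prodMk continuous_id)

end StepAux

open StepAux

theorem step_expand (D : Dat m κ) {x : κ → ℝ} {U : Matrix m m ℝ} {K : Matrix κ κ ℝ}
    (h : D.Good x U K) {v : κ → ℝ} {V : Matrix m m ℝ} (hvx : v ⬝ᵥ x = 0) (hv : v ⬝ᵥ v = 1)
    (hV : Vᵀ = V) :
    (∀ t : ℝ, D.e (x + t • v) = D.e x + t ^ 2) ∧
    (∀ᶠ t in 𝓝 (0 : ℝ), (D.X (x + t • v) (U + t ^ 2 • V)).PosDef ∧
      (D.Y (x + t • v) (U + t ^ 2 • V) K).PosDef) ∧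
    ∃ f1 f2 : ℝ, Ex2 (fun t => D.F (x + t • v) (U + t ^ 2 • V) K) (D.F x U K) f1 f2 ∧
      f2 ≤ D.c2 x U K v V := by
  have he := e_line D hvx hv
  have htau := tau_line D hvx hv
  refine ⟨he, ?_⟩
  have hXs : (D.X x U)ᵀ = D.X x U := pd_sym h.hX
  have hKs : Kᵀ = K := psd_sym h.hK
  have hHs : ∀ y, (H D.A y)ᵀ = H D.A y := H_transpose D.A D.symA
  have hUs : Uᵀ = U := by
    have h1 : U = D.X x U + H D.A (x - D.x0) := by
      unfold Dat.X
      abel
    rw [h1, Matrix.transpose_add, hXs, hHs]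
  have hRs : (D.R x U)ᵀ = D.R x U := by
    unfold Dat.R
    rw [Matrix.transpose_nonsing_inv, hXs]
  have hXts : ∀ t : ℝ, (D.X (x + t • v) (U + t ^ 2 • V))ᵀ = D.X (x + t • v) (U + t ^ 2 • V) := by
    intro t
    unfold Dat.X
    rw [Matrix.transpose_sub, Matrix.transpose_add, Matrix.transpose_smul, hUs, hV, hHs]
  have hYts : ∀ t : ℝ, (D.Y (x + t • v) (U + t ^ 2 • V) K)ᵀ = D.Y (x + t • v) (U + t ^ 2 • V) K := by
    intro t
    unfold Dat.Y
    rw [Matrix.transpose_sub, Matrix.transpose_sub, Matrix.transpose_smul, Matrix.transpose_smul,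
      Matrix.transpose_one, Matrix.transpose_add, Matrix.transpose_smul, hUs, hV,
      EC_transpose D.symA hKs, Matrix.transpose_nonsing_inv, hXts]
  -- expansion of `X`
  have hX : Ex2 (fun t : ℝ => D.X (x + t • v) (U + t ^ 2 • V)) (D.X x U) (-H D.A v) V := by
    have h1 := Ex2_add (Ex2_affine (D.X x U) (-H D.A v)) (Ex2_sq_smul V)
    simp only [add_zero, zero_add] at h1
    exact Ex2_congr h1 (X_line D x v U V)
  have hR : Ex2 (fun t : ℝ => (D.X (x + t • v) (U + t ^ 2 • V))⁻¹) (D.R x U)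
      (D.R x U * H D.A v * D.R x U)
      (D.R x U * H D.A v * D.R x U * H D.A v * D.R x U - D.R x U * V * D.R x U) := by
    have h1 := Ex2_inv ((Matrix.isUnit_iff_isUnit_det _).1 h.hX.isUnit) hX
    have e1 : -((D.X x U)⁻¹ * -H D.A v * (D.X x U)⁻¹) = D.R x U * H D.A v * D.R x U := by
      unfold Dat.R
      rw [Matrix.mul_neg, Matrix.neg_mul, neg_neg]
    have e2 : (D.X x U)⁻¹ * -H D.A v * (D.X x U)⁻¹ * -H D.A v * (D.X x U)⁻¹ - (D.X x U)⁻¹ * V * (D.X x U)⁻¹ =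
        D.R x U * H D.A v * D.R x U * H D.A v * D.R x U - D.R x U * V * D.R x U := by
      unfold Dat.R
      simp only [Matrix.mul_neg, Matrix.neg_mul, neg_neg]
    rw [e1, e2] at h1
    exact h1
  have hE := Ex2_linear (ecL D.A K) (ecL_cont D.A K) hR
  have ha : Ex2 (fun t : ℝ => D.al * D.tau (x + t • v)) (D.al * D.tau x) 0 (-(8 * D.al / D.k)) := by
    have h1 := Ex2_add (Ex2_const (D.al * D.tau x)) (Ex2_sq_smul (-(8 * D.al / D.k)))
    simp only [add_zero, zero_add] at h1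
    refine Ex2_congr h1 fun t => ?_
    rw [htau t, smul_eq_mul]
    ring
  have haE := Ex2_smul ha hE
  have hU2 : Ex2 (fun t : ℝ => (3 * D.b) • (1 : Matrix m m ℝ) - (U + t ^ 2 • V))
      ((3 * D.b) • (1 : Matrix m m ℝ) - U) 0 (-V) := by
    have h1 := Ex2_sub (Ex2_const ((3 * D.b) • (1 : Matrix m m ℝ))) (Ex2_add (Ex2_const U) (Ex2_sq_smul V))
    simp only [add_zero, zero_add, sub_zero, zero_sub] at h1
    exact h1
  have hY : Ex2 (fun t : ℝ => D.Y (x + t • v) (U + t ^ 2 • V) K) (D.Y x U K) (-D.Nz x U K v)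
      (-D.Dr x U K v V) := by
    have h1 := Ex2_sub hU2 haE
    have e0 : (3 * D.b) • (1 : Matrix m m ℝ) - U - (D.al * D.tau x) • (ecL D.A K) (D.R x U) = D.Y x U K := rfl
    have e1 : (0 : Matrix m m ℝ) - ((D.al * D.tau x) • (ecL D.A K) (D.R x U * H D.A v * D.R x U) +
        (0 : ℝ) • (ecL D.A K) (D.R x U)) = -D.Nz x U K v := by
      rw [zero_smul, add_zero, zero_sub]
      rfl
    have e2 : -V - ((D.al * D.tau x) • (ecL D.A K) (D.R x U * H D.A v * D.R x U * H D.A v * D.R x U -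
        D.R x U * V * D.R x U) + (0 : ℝ) • (ecL D.A K) (D.R x U * H D.A v * D.R x U) +
        (-(8 * D.al / D.k)) • (ecL D.A K) (D.R x U)) = -D.Dr x U K v V := by
      rw [map_sub, smul_sub, zero_smul, neg_smul]
      unfold Dat.Dr
      show -V - (((D.al * D.tau x) • EC D.A K (D.R x U * H D.A v * D.R x U * H D.A v * D.R x U) -
        (D.al * D.tau x) • EC D.A K (D.R x U * V * D.R x U)) + 0 + -((8 * D.al / D.k) • EC D.A K (D.R x U))) = _
      abel
    rw [e0, e1, e2] at h1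
    exact h1
  have hNs : (D.Nz x U K v)ᵀ = D.Nz x U K v := by
    unfold Dat.Nz
    rw [Matrix.transpose_smul, EC_transpose D.symA hKs, Matrix.transpose_mul, Matrix.transpose_mul, hRs, hHs,
      Matrix.mul_assoc]
  have hcX := Ex2_continuousAt hX
  have hcY := Ex2_continuousAt hY
  have hPX : (D.X (x + (0 : ℝ) • v) (U + (0 : ℝ) ^ 2 • V)).PosDef := by
    have h1 : D.X (x + (0 : ℝ) • v) (U + (0 : ℝ) ^ 2 • V) = D.X x U := hcX.2
    rw [h1]
    exact h.hX
  have hPY : (D.Y (x + (0 : ℝ) • v) (U + (0 : ℝ) ^ 2 • V) K).PosDef := by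
    have h1 : D.Y (x + (0 : ℝ) • v) (U + (0 : ℝ) ^ 2 • V) K = D.Y x U K := hcY.2
    rw [h1]
    exact h.hY
  refine ⟨(eventually_posDef hcX.1 hPX hXts).and (eventually_posDef hcY.1 hPY hYts), ?_⟩
  obtain ⟨gx, hgx, hgx2⟩ := pow_inv_expand h.hX (hHs v) D.q hX
  obtain ⟨gy, hgy, hgy2⟩ := pow_inv_expand h.hY hNs D.p hY
  have hcx := Ex2_smul (Ex2_const (D.b ^ D.q / D.N)) hgx
  have hcy := Ex2_smul (Ex2_const (D.b ^ D.p / D.N)) hgy
  have hcc : Ex2 (fun t : ℝ => 96 / D.k * (1 - K).trace - D.e (x + t • v) / D.k)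
      (96 / D.k * (1 - K).trace - D.e x / D.k) 0 (-(1 / D.k)) := by
    have h1 := Ex2_add (Ex2_const (96 / D.k * (1 - K).trace - D.e x / D.k)) (Ex2_sq_smul (-(1 / D.k)))
    simp only [add_zero, zero_add] at h1
    refine Ex2_congr h1 fun t => ?_
    rw [he t, smul_eq_mul]
    ring
  have hF := Ex2_add (Ex2_add hcx hcy) hcc
  simp only [smul_eq_mul, zero_mul, add_zero] at hF
  have e3 : D.b ^ D.q / D.N * ((D.X x U)⁻¹ ^ D.q).trace + D.b ^ D.p / D.N * ((D.Y x U K)⁻¹ ^ D.p).trace +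
      (96 / D.k * (1 - K).trace - D.e x / D.k) = D.F x U K := by
    unfold Dat.F
    ring
  rw [e3] at hF
  refine ⟨_, _, Ex2_congr hF fun t => ?_, ?_⟩
  · unfold Dat.F
    ring
  · have hbq : 0 ≤ D.b ^ D.q / D.N := div_nonneg (pow_nonneg D.b_pos.le _) D.N_pos.le
    have hbp : 0 ≤ D.b ^ D.p / D.N := div_nonneg (pow_nonneg D.b_pos.le _) D.N_pos.le
    have h1 := mul_le_mul_of_nonneg_left hgx2 hbq
    have h2 := mul_le_mul_of_nonneg_left hgy2 hbp
    have e4 : -(D.p : ℝ) * ((D.Y x U K)⁻¹ ^ (D.p + 1) * -D.Dr x U K v V).trace =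
        (D.p : ℝ) * (D.S x U K ^ (D.p + 1) * D.Dr x U K v V).trace := by
      rw [Matrix.mul_neg, Matrix.trace_neg]
      unfold Dat.S
      ring
    rw [e4] at h2
    unfold Dat.c2
    unfold Dat.R Dat.S
    unfold Dat.S at h2
    linarith

end MSp
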