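import Pool.Agent.Lib.MSp.Extr
import Pool.Agent.Lib.MSp.Step
import Pool.Agent.Lib.MSp.LightD
import Pool.Agent.Lib.MSp.Drift

/-!
# One round of the colouring procedure
-/

set_option autoImplicit false
set_option linter.unusedSectionVars false

open scoped Matrix Topology
open Filter

namespace MSp

variable {m κ : Type} [Fintype m] [DecidableEq m] [Fintype κ] [DecidableEq κ]

/-- a point of the cube with at least half of the coordinates equal to `1` or `-1`, close to the
starting point -/
theorem main_round (D : Dat m κ) : ∃ x : κ → ℝ, (∀ i, |x i| ≤ 1) ∧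
    Fintype.card κ ≤ 2 * (Finset.univ.filter fun i => |x i| = 1).card ∧
    ((3 * D.b) • (1 : Matrix m m ℝ) - H D.A (x - D.x0)).PosSemidef ∧
    ((3 * D.b) • (1 : Matrix m m ℝ) + H D.A (x - D.x0)).PosSemidef := by
  obtain ⟨x, U, K, hg, hmax, hmin⟩ := exists_extremal D
  refine ⟨x, hg.hx, ?_, H_le D hg, neg_H_le D hg⟩
  by_contra hcon
  push Not at hcon
  have hfree : Fintype.card κ < 2 * (Finset.univ.filter fun i => |x i| ≠ 1).card := by
    have h1 : (Finset.univ.filter fun i => |x i| = 1).card
        + (Finset.univ.filter fun i => |x i| ≠ 1).card = Fintype.card κ := by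
      rw [← Finset.card_univ]
      exact Finset.card_filter_add_card_filter_not (fun i => |x i| = 1)
    omega
  have hRpd : (D.R x U).PosDef := pd_inv hg.hX
  have hRsym : (D.R x U)ᵀ = D.R x U := pd_sym hRpd
  obtain ⟨R0, R1, hR0p, hR1p, hRR, -, hR0, h0sq, -, h1sq⟩ :=
    cut hRpd.posSemidef (r := 10 / D.b) (by have := D.b_pos; positivity)
  obtain ⟨w, v, hw, horth, hvx, hvfree, hKv, h0, h1⟩ :=
    light_family D hg hR0p hR1p h0sq (h1sq D.l) hfree
  have hdr := drift D hg hmin hR0p hR1p hRR hR0 hw v hKv h0 h1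
  set V : Matrix m m ℝ := (D.al / (w : ℝ)) • ∑ i, H D.A (v i) * D.R x U * H D.A (v i) with hV
  obtain ⟨j, -, hj⟩ : ∃ j ∈ Finset.univ, D.c2 x U K (v j) V < 0 := by
    by_contra hne
    push Not at hne
    exact absurd hdr (not_lt.2 (Finset.sum_nonneg hne))
  have hVsym : Vᵀ = V := by
    rw [hV, Matrix.transpose_smul, Matrix.transpose_sum]
    congr 1
    refine Finset.sum_congr rfl fun i _ => ?_
    rw [Matrix.transpose_mul, Matrix.transpose_mul, H_transpose D.A D.symA, hRsym,
      Matrix.mul_assoc]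
  have hvj : v j ⬝ᵥ v j = 1 := by rw [horth]; simp
  obtain ⟨he, hpos, f1, f2, hF, hf2⟩ := step_expand D hg (hvx j) hvj hVsym
  have hcube : ∀ᶠ t in 𝓝 (0 : ℝ), ∀ i, |(x + t • v j) i| ≤ 1 := by
    rw [Filter.eventually_all]
    intro i
    by_cases hi : |x i| = 1
    · refine Eventually.of_forall fun t => ?_
      simp [hvfree j i hi, hi]
    · have hlt : |x i| < 1 := lt_of_le_of_ne (hg.hx i) hi
      have hc : ContinuousAt (fun t : ℝ => |(x + t • v j) i|) 0 := by
        simp only [Pi.add_apply, Pi.smul_apply, smul_eq_mul]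
        fun_prop
      have h3 : ∀ᶠ t in 𝓝 (0 : ℝ), |(x + t • v j) i| < 1 := by
        apply hc.eventually_lt continuousAt_const
        simpa using hlt
      exact h3.mono fun t ht => ht.le
  obtain ⟨t, ht0, ⟨⟨hX', hY'⟩, hx'⟩, hFt⟩ := Ex2_lt hF (lt_of_le_of_lt hf2 hj) (hpos.and hcube)
  have hgood : D.Good (x + t • v j) (U + t ^ 2 • V) K :=
    { hx := hx'
      hK := hg.hK
      hK1 := hg.hK1
      he := by rw [he]; have := hg.he; positivity
      hX := hX'
      hY := hY'
      hF := hFt.le.trans hg.hF }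
  have := hmax _ _ _ hgood
  rw [he] at this
  have : 0 < t ^ 2 := by positivity
  linarith

end MSp
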