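import Pool.Agent.Lib.MSp.Defs

/-!
# Basic facts on real positive semidefinite matrices
-/

set_option autoImplicit false
set_option linter.unusedSectionVars false

open scoped Matrix Topology

namespace MSp

section Psd

variable {m n : Type} [Fintype m] [DecidableEq m] [Fintype n] [DecidableEq n]

theorem psd_sym {P : Matrix m m ℝ} (hP : P.PosSemidef) : Pᵀ = P := by
  have := hP.isHermitian
  rwa [Matrix.IsHermitian, Matrix.conjTranspose_eq_transpose_of_trivial] at this

theorem pd_sym {P : Matrix m m ℝ} (hP : P.PosDef) : Pᵀ = P := psd_sym hP.posSemidef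

theorem psd_quad {P : Matrix m m ℝ} (hP : P.PosSemidef) (z : m → ℝ) : 0 ≤ z ⬝ᵥ P *ᵥ z := by
  have := hP.dotProduct_mulVec_nonneg z
  simpa using this

theorem psd_of_quad {P : Matrix m m ℝ} (hs : Pᵀ = P) (h : ∀ z : m → ℝ, 0 ≤ z ⬝ᵥ P *ᵥ z) :
    P.PosSemidef := by
  refine Matrix.PosSemidef.of_dotProduct_mulVec_nonneg ?_ ?_
  · rw [Matrix.IsHermitian, Matrix.conjTranspose_eq_transpose_of_trivial]; exact hs
  · intro z; simpa using h z

theorem psd_zero : (0 : Matrix m m ℝ).PosSemidef := Matrix.PosSemidef.zero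

theorem psd_one : (1 : Matrix m m ℝ).PosSemidef := Matrix.PosSemidef.one

theorem psd_add {P Q : Matrix m m ℝ} (hP : P.PosSemidef) (hQ : Q.PosSemidef) :
    (P + Q).PosSemidef := hP.add hQ

theorem psd_smul {P : Matrix m m ℝ} (hP : P.PosSemidef) {c : ℝ} (hc : 0 ≤ c) :
    (c • P).PosSemidef := hP.smul hc

theorem psd_sum {ι : Type} (s : Finset ι) {P : ι → Matrix m m ℝ}
    (h : ∀ i ∈ s, (P i).PosSemidef) : (∑ i ∈ s, P i).PosSemidef := by
  classical
  induction s using Finset.induction_on with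
  | empty => simpa using psd_zero
  | insert a s ha ih =>
    rw [Finset.sum_insert ha]
    exact psd_add (h a (Finset.mem_insert_self a s))
      (ih fun i hi => h i (Finset.mem_insert_of_mem hi))

theorem psd_pow {P : Matrix m m ℝ} (hP : P.PosSemidef) (j : ℕ) : (P ^ j).PosSemidef := hP.pow j

/-- `M P Mᵀ` is positive semidefinite -/
theorem psd_conj {P : Matrix m m ℝ} (hP : P.PosSemidef) (M : Matrix n m ℝ) :
    (M * P * Mᵀ).PosSemidef := by
  have := hP.mul_mul_conjTranspose_same M
  rwa [Matrix.conjTranspose_eq_transpose_of_trivial] at this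

theorem psd_sandwich {P M : Matrix m m ℝ} (hP : P.PosSemidef) (hM : Mᵀ = M) :
    (M * P * M).PosSemidef := by
  have := psd_conj hP M
  rwa [hM] at this

theorem psd_mul_transpose (M : Matrix m n ℝ) : (M * Mᵀ).PosSemidef := by
  have := Matrix.posSemidef_self_mul_conjTranspose M
  rwa [Matrix.conjTranspose_eq_transpose_of_trivial] at this

/-- the spectral theorem for real symmetric matrices -/
theorem spectral {P : Matrix m m ℝ} (hP : Pᵀ = P) : ∃ (O : Matrix m m ℝ) (d : m → ℝ),
    O * Oᵀ = 1 ∧ Oᵀ * O = 1 ∧ P = O * Matrix.diagonal d * Oᵀ := by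
  have hH : P.IsHermitian := by
    rw [Matrix.IsHermitian, Matrix.conjTranspose_eq_transpose_of_trivial]; exact hP
  refine ⟨(hH.eigenvectorUnitary : Matrix m m ℝ), hH.eigenvalues, ?_, ?_, ?_⟩
  · have := Unitary.coe_mul_star_self hH.eigenvectorUnitary
    rwa [Unitary.coe_star, Matrix.star_eq_conjTranspose,
      Matrix.conjTranspose_eq_transpose_of_trivial] at this
  · have := Unitary.coe_star_mul_self hH.eigenvectorUnitary
    rwa [Matrix.star_eq_conjTranspose, Matrix.conjTranspose_eq_transpose_of_trivial] at this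
  · have := hH.spectral_theorem
    rw [Unitary.conjStarAlgAut_apply, Matrix.star_eq_conjTranspose,
      Matrix.conjTranspose_eq_transpose_of_trivial] at this
    simpa using this

/-- the diagonal form of a positive semidefinite matrix -/
theorem spectral_psd {P : Matrix m m ℝ} (hP : P.PosSemidef) : ∃ (O : Matrix m m ℝ) (d : m → ℝ),
    O * Oᵀ = 1 ∧ Oᵀ * O = 1 ∧ P = O * Matrix.diagonal d * Oᵀ ∧ ∀ i, 0 ≤ d i := by
  obtain ⟨O, d, h1, h2, h3⟩ := spectral (psd_sym hP)
  refine ⟨O, d, h1, h2, h3, fun i => ?_⟩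
  have h4 : Oᵀ * P * O = Matrix.diagonal d := by
    rw [h3, Matrix.mul_assoc, Matrix.mul_assoc, Matrix.mul_assoc, h2, Matrix.mul_one,
      ← Matrix.mul_assoc, h2, Matrix.one_mul]
  have h5 : (Matrix.diagonal d).PosSemidef := by
    rw [← h4]
    have := hP.mul_mul_conjTranspose_same Oᵀ
    rwa [Matrix.conjTranspose_eq_transpose_of_trivial, Matrix.transpose_transpose] at this
  have := psd_quad h5 (Pi.single i 1)
  simpa [Matrix.mulVec_single_one] using this

/-- every positive semidefinite matrix is `T Tᵀ` -/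
theorem psd_factor {P : Matrix m m ℝ} (hP : P.PosSemidef) : ∃ T : Matrix m m ℝ, P = T * Tᵀ := by
  obtain ⟨O, d, h1, h2, h3, h4⟩ := spectral_psd hP
  refine ⟨O * Matrix.diagonal (fun i => Real.sqrt (d i)), ?_⟩
  rw [h3, Matrix.transpose_mul, Matrix.diagonal_transpose, Matrix.mul_assoc O, Matrix.mul_assoc O]
  congr 1
  rw [← Matrix.mul_assoc, Matrix.diagonal_mul_diagonal]
  congr 2
  funext i
  exact (Real.mul_self_sqrt (h4 i)).symm

theorem trace_nonneg {P : Matrix m m ℝ} (hP : P.PosSemidef) : 0 ≤ P.trace := hP.trace_nonneg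

theorem psd_trace_nonneg {P Q : Matrix m m ℝ} (hP : P.PosSemidef) (hQ : Q.PosSemidef) :
    0 ≤ (P * Q).trace := by
  obtain ⟨T, rfl⟩ := psd_factor hQ
  rw [← Matrix.mul_assoc, Matrix.trace_mul_comm, ← Matrix.mul_assoc]
  have := psd_conj hP Tᵀ
  rw [Matrix.transpose_transpose] at this
  exact trace_nonneg this

/-- monotonicity of the trace against a positive semidefinite matrix -/
theorem trace_mono {P A B : Matrix m m ℝ} (hP : P.PosSemidef) (h : (B - A).PosSemidef) :
    (P * A).trace ≤ (P * B).trace := by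
  have := psd_trace_nonneg hP h
  rw [Matrix.mul_sub, Matrix.trace_sub] at this
  linarith

theorem trace_mono' {P A B : Matrix m m ℝ} (hP : P.PosSemidef) (h : (B - A).PosSemidef) :
    (A * P).trace ≤ (B * P).trace := by
  rw [Matrix.trace_mul_comm A, Matrix.trace_mul_comm B]
  exact trace_mono hP h

theorem trace_le {A B : Matrix m m ℝ} (h : (B - A).PosSemidef) : A.trace ≤ B.trace := by
  have := trace_nonneg h
  rw [Matrix.trace_sub] at this
  linarith

/-- transitivity of the order -/
theorem psd_sub_trans {A B C : Matrix m m ℝ} (h1 : (B - A).PosSemidef) (h2 : (C - B).PosSemidef) :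
    (C - A).PosSemidef := by
  have := psd_add h2 h1
  rwa [sub_add_sub_cancel] at this

/-- the inverse of a positive definite matrix -/
theorem pd_inv {P : Matrix m m ℝ} (hP : P.PosDef) : (P⁻¹).PosDef := hP.inv

theorem pd_mul_inv {P : Matrix m m ℝ} (hP : P.PosDef) : P * P⁻¹ = 1 :=
  Matrix.mul_nonsing_inv _ ((Matrix.isUnit_iff_isUnit_det _).1 hP.isUnit)

theorem pd_inv_mul {P : Matrix m m ℝ} (hP : P.PosDef) : P⁻¹ * P = 1 :=
  Matrix.nonsing_inv_mul _ ((Matrix.isUnit_iff_isUnit_det _).1 hP.isUnit)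

end Psd

section HL

variable {m κ : Type} [Fintype m] [DecidableEq m] [Fintype κ] [DecidableEq κ]

theorem H_add (A : κ → Matrix m m ℝ) (y z : κ → ℝ) : H A (y + z) = H A y + H A z := by
  simp [H, add_smul, Finset.sum_add_distrib]

theorem H_sub (A : κ → Matrix m m ℝ) (y z : κ → ℝ) : H A (y - z) = H A y - H A z := by
  simp [H, sub_smul, Finset.sum_sub_distrib]

theorem H_smul (A : κ → Matrix m m ℝ) (c : ℝ) (y : κ → ℝ) : H A (c • y) = c • H A y := by
  simp [H, Finset.smul_sum, smul_smul]

theorem H_sum {ι : Type} (s : Finset ι) (A : κ → Matrix m m ℝ) (c : ι → ℝ) (y : ι → κ → ℝ) :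
    H A (∑ j ∈ s, c j • y j) = ∑ j ∈ s, c j • H A (y j) := by
  classical
  induction s using Finset.induction_on with
  | empty => simp [H]
  | insert a s ha ih => rw [Finset.sum_insert ha, Finset.sum_insert ha, H_add, H_smul, ih]

theorem H_transpose (A : κ → Matrix m m ℝ) (hA : ∀ i, (A i)ᵀ = A i) (y : κ → ℝ) :
    (H A y)ᵀ = H A y := by
  simp [H, Matrix.transpose_sum, hA]

theorem H_single (A : κ → Matrix m m ℝ) (i : κ) : H A (Pi.single i 1) = A i := by
  simp [H, Pi.single_apply, Finset.sum_ite_eq']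

end HL

end MSp
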