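import Pool.Agent.Lib.MSp.DB
import Pool.Agent.Lib.MSp.ECb

/-!
# The initial state is admissible

Proof.  `x = x0`, `U = b 1`, `K = 1`.  `e x0 = 0`, `tau = 16`, `H A (x0 - x0) = 0`, so `X = b 1`,
`X⁻¹ = (1/b) 1`.  `E_1((1/b) 1) = (1/b) EC A 1 1 ≤ (k/b) 1` (`EC_one_le`), hence
`Y - b 1 = 3b - b - 16 α (1/b) EC A 1 1 - b ≥ (b - 16 α k / b) 1 ≥ 0` because
`b^2 = 2400 (l+2) k ≥ 8 (l+5) k = 16 α k`.  So `Y` is positive definite, `Y ≥ b`.  The potential:
`b^q/N tr X⁻¹^q = card m / N ≤ 1`; `b^p/N tr Y⁻¹^p ≤ card m / N ≤ 1`: with `Y = O diag(d) Oᵀ` (`spectral`),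
`d_i ≥ b`, `tr Y⁻¹^p = ∑ d_i^(-p) ≤ card m b^(-p)`; the other two terms vanish.
-/

set_option autoImplicit false
set_option linter.unusedSectionVars false

open scoped Matrix Topology
open Filter

namespace MSp

variable {m κ : Type} [Fintype m] [DecidableEq m] [Fintype κ] [DecidableEq κ]

namespace StartAux

theorem dg_mul {O : Matrix m m ℝ} (hO : Oᵀ * O = 1) (f g : m → ℝ) :
    (O * Matrix.diagonal f * Oᵀ) * (O * Matrix.diagonal g * Oᵀ) =
      O * Matrix.diagonal (fun i => f i * g i) * Oᵀ := by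
  calc (O * Matrix.diagonal f * Oᵀ) * (O * Matrix.diagonal g * Oᵀ)
      = O * Matrix.diagonal f * (Oᵀ * O) * Matrix.diagonal g * Oᵀ := by
        simp only [Matrix.mul_assoc]
    _ = O * Matrix.diagonal (fun i => f i * g i) * Oᵀ := by
        rw [hO, Matrix.mul_one, Matrix.mul_assoc O, Matrix.diagonal_mul_diagonal]

theorem dg_one {O : Matrix m m ℝ} (h1 : O * Oᵀ = 1) :
    (1 : Matrix m m ℝ) = O * Matrix.diagonal (fun _ => (1 : ℝ)) * Oᵀ := by
  rw [Matrix.diagonal_one, Matrix.mul_one, h1]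

theorem dg_pow {O : Matrix m m ℝ} (h1 : O * Oᵀ = 1) (hO : Oᵀ * O = 1) (f : m → ℝ) (n : ℕ) :
    (O * Matrix.diagonal f * Oᵀ) ^ n = O * Matrix.diagonal (fun i => f i ^ n) * Oᵀ := by
  induction n with
  | zero =>
    simp only [pow_zero]
    exact dg_one h1
  | succ n ih =>
    rw [pow_succ, ih, dg_mul hO]
    congr 3

theorem dg_smul (O : Matrix m m ℝ) (c : ℝ) (f : m → ℝ) :
    c • (O * Matrix.diagonal f * Oᵀ) = O * Matrix.diagonal (fun i => c * f i) * Oᵀ := by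
  have h : Matrix.diagonal (fun i => c * f i) = c • Matrix.diagonal f := by
    rw [← Matrix.diagonal_smul]
    rfl
  rw [h, Matrix.mul_smul, Matrix.smul_mul]

theorem dg_sub (O : Matrix m m ℝ) (f g : m → ℝ) :
    O * Matrix.diagonal f * Oᵀ - O * Matrix.diagonal g * Oᵀ =
      O * Matrix.diagonal (fun i => f i - g i) * Oᵀ := by
  rw [← Matrix.diagonal_sub, Matrix.mul_sub, Matrix.sub_mul]

theorem dg_add (O : Matrix m m ℝ) (f g : m → ℝ) :
    O * Matrix.diagonal f * Oᵀ + O * Matrix.diagonal g * Oᵀ =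
      O * Matrix.diagonal (fun i => f i + g i) * Oᵀ := by
  rw [← Matrix.diagonal_add, Matrix.mul_add, Matrix.add_mul]

theorem dg_psd (O : Matrix m m ℝ) {f : m → ℝ} (hf : ∀ i, 0 ≤ f i) :
    (O * Matrix.diagonal f * Oᵀ).PosSemidef :=
  psd_conj (Matrix.PosSemidef.diagonal hf) O

end StartAux

open StartAux in
theorem good_start (D : Dat m κ) : D.Good D.x0 (D.b • (1 : Matrix m m ℝ)) 1 := by
  have hY0 : D.e D.x0 = 0 := by unfold Dat.e; ring
  have htau : D.tau D.x0 = 16 := by unfold Dat.tau; rw [hY0]; ring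
  have hb := D.b_pos
  have hk := D.k_pos
  have hN := D.N_pos
  have hX : D.X D.x0 (D.b • (1 : Matrix m m ℝ)) = D.b • (1 : Matrix m m ℝ) := by
    unfold Dat.X H
    simp
  have hXi : (D.b • (1 : Matrix m m ℝ))⁻¹ = D.b⁻¹ • (1 : Matrix m m ℝ) := by
    apply Matrix.inv_eq_right_inv
    rw [Matrix.smul_mul, Matrix.one_mul, smul_smul, mul_inv_cancel₀ hb.ne', one_smul]
  have hYd : D.Y D.x0 (D.b • (1 : Matrix m m ℝ)) 1 - D.b • (1 : Matrix m m ℝ) =
      (D.b - 16 * D.al * D.k / D.b) • (1 : Matrix m m ℝ) +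
        (16 * D.al / D.b) • ((Fintype.card κ : ℝ) • (1 : Matrix m m ℝ) - EC D.A 1 1) := by
    unfold Dat.Y
    rw [hX, hXi, htau, EC_smul_right]
    have hkk : D.k = (Fintype.card κ : ℝ) := rfl
    rw [hkk]
    module
  have hcoef : 0 ≤ D.b - 16 * D.al * D.k / D.b := by
    have h1 : 16 * D.al * D.k / D.b ≤ D.b := by
      rw [div_le_iff₀ hb, ← pow_two, D.b_sq]
      unfold Dat.al
      have hl := D.one_le_l'
      have : 0 ≤ (D.l : ℝ) * D.k := by positivity
      nlinarith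
    linarith
  have hal := D.al_pos
  have hYp : (D.Y D.x0 (D.b • (1 : Matrix m m ℝ)) 1 - D.b • (1 : Matrix m m ℝ)).PosSemidef := by
    rw [hYd]
    refine psd_add (psd_smul psd_one hcoef) (psd_smul (EC_one_le D.symA D.sqA ?_) (by positivity))
    rw [sub_self]
    exact psd_zero
  obtain ⟨O, d, h1, h2, h3, h4⟩ := spectral_psd hYp
  have hYf : D.Y D.x0 (D.b • (1 : Matrix m m ℝ)) 1 =
      O * Matrix.diagonal (fun i => D.b + d i) * Oᵀ := by
    have h5 : D.Y D.x0 (D.b • (1 : Matrix m m ℝ)) 1 = D.b • (1 : Matrix m m ℝ) +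
        (D.Y D.x0 (D.b • (1 : Matrix m m ℝ)) 1 - D.b • (1 : Matrix m m ℝ)) := by abel
    rw [h5, h3]
    conv_lhs => rw [dg_one h1]
    rw [dg_smul, dg_add]
    congr 3
    funext i
    ring
  have hpos : ∀ i, 0 < D.b + d i := fun i => by have := h4 i; linarith
  have hYi : (D.Y D.x0 (D.b • (1 : Matrix m m ℝ)) 1)⁻¹ =
      O * Matrix.diagonal (fun i => (D.b + d i)⁻¹) * Oᵀ := by
    apply Matrix.inv_eq_right_inv
    rw [hYf, dg_mul h2]
    have : (fun i => (D.b + d i) * (D.b + d i)⁻¹) = fun _ => (1 : ℝ) := by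
      funext i
      exact mul_inv_cancel₀ (hpos i).ne'
    rw [this]
    exact (dg_one h1).symm
  have hXpd : (D.b • (1 : Matrix m m ℝ)).PosDef := Matrix.PosDef.one.smul hb
  have hcard : (Fintype.card m : ℝ) / D.N ≤ 1 := by
    rw [div_le_one hN]
    exact D.card_le
  refine ⟨D.x0_le, psd_one, ?_, hY0.ge, ?_, ?_, ?_⟩
  · rw [sub_self]
    exact psd_zero
  · rw [hX]
    exact hXpd
  · have h5 : D.Y D.x0 (D.b • (1 : Matrix m m ℝ)) 1 = D.b • (1 : Matrix m m ℝ) +
        (D.Y D.x0 (D.b • (1 : Matrix m m ℝ)) 1 - D.b • (1 : Matrix m m ℝ)) := by abel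
    rw [h5]
    exact hXpd.add_posSemidef hYp
  · unfold Dat.F
    rw [hX, hXi, hYi, dg_pow h1 h2, hY0, sub_self, Matrix.trace_zero, mul_zero, zero_div,
      add_zero, sub_zero]
    have e1 : D.b ^ D.q / D.N * ((D.b⁻¹ • (1 : Matrix m m ℝ)) ^ D.q).trace ≤ 1 := by
      rw [smul_pow, one_pow, Matrix.trace_smul, Matrix.trace_one, smul_eq_mul, inv_pow]
      have : D.b ^ D.q / D.N * ((D.b ^ D.q)⁻¹ * (Fintype.card m : ℝ)) =
          (Fintype.card m : ℝ) / D.N := by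
        field_simp
      rw [this]
      exact hcard
    have e2 : (O * Matrix.diagonal (fun i => (D.b + d i)⁻¹ ^ D.p) * Oᵀ).trace ≤
        (Fintype.card m : ℝ) * (D.b⁻¹ ^ D.p) := by
      rw [Matrix.trace_mul_comm, ← Matrix.mul_assoc, h2, Matrix.one_mul, Matrix.trace_diagonal]
      calc ∑ i, (D.b + d i)⁻¹ ^ D.p ≤ ∑ _i : m, D.b⁻¹ ^ D.p := by
            refine Finset.sum_le_sum fun i _ => ?_
            refine pow_le_pow_left₀ (inv_nonneg.2 (hpos i).le) ?_ _
            exact inv_anti₀ hb (by have := h4 i; linarith)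
        _ = (Fintype.card m : ℝ) * (D.b⁻¹ ^ D.p) := by
            rw [Finset.sum_const, Finset.card_univ, nsmul_eq_mul]
    have e3 : D.b ^ D.p / D.N * (O * Matrix.diagonal (fun i => (D.b + d i)⁻¹ ^ D.p) * Oᵀ).trace
        ≤ 1 := by
      refine (mul_le_mul_of_nonneg_left e2 (by positivity)).trans ?_
      have : D.b ^ D.p / D.N * ((Fintype.card m : ℝ) * (D.b⁻¹ ^ D.p)) =
          (Fintype.card m : ℝ) / D.N := by
        rw [inv_pow]
        field_simp
      rw [this]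
      exact hcard
    linarith

end MSp
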