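import Pool.Agent.Lib.MSp.Psd

/-!
# Comparison of traces of powers
-/

set_option autoImplicit false
set_option linter.unusedSectionVars false

open scoped Matrix Topology
open Filter

namespace MSp

variable {m κ : Type} [Fintype m] [DecidableEq m] [Fintype κ] [DecidableEq κ]

namespace TrPowAux

theorem pow_eq {O : Matrix m m ℝ} {d : m → ℝ} (h : Oᵀ * O = 1) (h' : O * Oᵀ = 1) (i : ℕ) :
    (O * Matrix.diagonal d * Oᵀ) ^ i = O * Matrix.diagonal (fun j => d j ^ i) * Oᵀ := by
  induction i with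
  | zero => simp [h']
  | succ i ih =>
    rw [pow_succ, ih]
    calc O * Matrix.diagonal (fun j => d j ^ i) * Oᵀ * (O * Matrix.diagonal d * Oᵀ)
        = O * Matrix.diagonal (fun j => d j ^ i) * (Oᵀ * O) * Matrix.diagonal d * Oᵀ := by
          simp only [Matrix.mul_assoc]
      _ = O * (Matrix.diagonal (fun j => d j ^ i) * Matrix.diagonal d) * Oᵀ := by
          rw [h, Matrix.mul_one]
          simp only [Matrix.mul_assoc]
      _ = O * Matrix.diagonal (fun j => d j ^ (i + 1)) * Oᵀ := by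
          rw [Matrix.diagonal_mul_diagonal]
          simp only [pow_succ]

theorem trace_eq {O : Matrix m m ℝ} {d : m → ℝ} (h : Oᵀ * O = 1) (h' : O * Oᵀ = 1) (i : ℕ) :
    ((O * Matrix.diagonal d * Oᵀ) ^ i).trace = ∑ j, d j ^ i := by
  rw [pow_eq h h', Matrix.trace_mul_comm, ← Matrix.mul_assoc, h, Matrix.one_mul,
    Matrix.trace_diagonal]

end TrPowAux

theorem trace_pow_le {R : Matrix m m ℝ} (hR : R.PosSemidef) {b : ℝ} (hb : 0 ≤ b) {i n : ℕ}
    (hin : i ≤ n) : b ^ i * (R ^ i).trace ≤ (Fintype.card m : ℝ) + b ^ n * (R ^ n).trace := by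
  obtain ⟨O, d, h1, h2, rfl, h4⟩ := spectral_psd hR
  rw [TrPowAux.trace_eq h2 h1, TrPowAux.trace_eq h2 h1, Finset.mul_sum, Finset.mul_sum]
  have h5 : (Fintype.card m : ℝ) = ∑ _j : m, (1 : ℝ) := by simp
  rw [h5, ← Finset.sum_add_distrib]
  refine Finset.sum_le_sum fun j _ => ?_
  rw [← mul_pow, ← mul_pow]
  have ht : 0 ≤ b * d j := mul_nonneg hb (h4 j)
  rcases le_total (b * d j) 1 with h | h
  · have h6 := pow_le_one₀ (n := i) ht h
    have h7 : 0 ≤ (b * d j) ^ n := by positivity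
    linarith
  · have h6 := pow_le_pow_right₀ h hin
    linarith

end MSp
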