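import Pool.Agent.Lib.MSp.DB
import Pool.Agent.Lib.MSp.ECb
import Pool.Agent.Lib.MSp.TrPow
import Pool.Agent.Lib.MSp.InvB

/-!
# Bounds at an admissible state

`DB` contains the elementary facts on the constants (`k_pos`, `b_pos`, `b_sq`, ...).

Proofs.  Let `Good x U K`.  `tau_le`, `le_tau`: `0 ≤ e x` and `e x ≤ ∑ x_i^2 ≤ k`.
The four terms of `F`: put `a = b^q/N tr R^q ≥ 0`, `c = b^p/N tr S^p ≥ 0`, `d = 96/k tr (1-K) ≥ 0`; then
`a + c + d ≤ 2 + e/k ≤ 3`, so each is at most `3`; this gives `trR_q`, `trS_p`, `tr_one_sub_K`.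
`trR_four`: `trace_pow_le` with `i = 4 ≤ q = l + 4` and `card m ≤ N`.  `trS_one`: `i = 1 ≤ p`.
`U_le`: `3b - U = Y + α τ E_K(R)` is a sum of positive semidefinite matrices (`EC_psd`; `α τ ≥ 0`).
`H_le`: `3b - H(x-x0) = (3b - U) + X`.
`neg_H_le`: `3b + H(x - x0) = J (3b - H(x-x0)) Jᵀ` since `J Jᵀ = 1` and `J H(y) Jᵀ = - H(y)` (linearity and
`conjJ`); `psd_conj`.
`R_ge`: `6b - X = (3b - U) + (3b + H(x-x0))` is positive semidefinite; `inv_lower` with `c = 6b`.
-/

set_option autoImplicit false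
set_option linter.unusedSectionVars false

open scoped Matrix Topology
open Filter

namespace MSp

variable {m κ : Type} [Fintype m] [DecidableEq m] [Fintype κ] [DecidableEq κ]

variable (D : Dat m κ) {x : κ → ℝ} {U : Matrix m m ℝ} {K : Matrix κ κ ℝ}

namespace StateBAux

theorem e_le (h : D.Good x U K) : D.e x ≤ D.k := by
  have h1 : ∑ i, x i ^ 2 ≤ D.k := by
    calc ∑ i, x i ^ 2 ≤ ∑ _i : κ, (1 : ℝ) := by
          refine Finset.sum_le_sum fun i _ => ?_
          have := h.hx i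
          rw [← sq_abs]
          have h0 : 0 ≤ |x i| := abs_nonneg _
          nlinarith
      _ = D.k := by simp [Dat.k]
  have h2 : 0 ≤ ∑ i, D.x0 i ^ 2 := Finset.sum_nonneg fun i _ => sq_nonneg _
  unfold Dat.e
  linarith

theorem ek_le (h : D.Good x U K) : D.e x / D.k ≤ 1 := by
  rw [div_le_one D.k_pos]
  exact e_le D h

theorem ek_nonneg (h : D.Good x U K) : 0 ≤ D.e x / D.k := div_nonneg h.he D.k_pos.le

theorem psdR (h : D.Good x U K) : (D.R x U).PosSemidef := (pd_inv h.hX).posSemidef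

theorem psdS (h : D.Good x U K) : (D.S x U K).PosSemidef := (pd_inv h.hY).posSemidef

theorem a_nonneg (h : D.Good x U K) : 0 ≤ D.b ^ D.q / D.N * (D.R x U ^ D.q).trace :=
  mul_nonneg (div_nonneg (pow_nonneg D.b_pos.le _) D.N_pos.le)
    (trace_nonneg (psd_pow (psdR D h) _))

theorem c_nonneg (h : D.Good x U K) : 0 ≤ D.b ^ D.p / D.N * (D.S x U K ^ D.p).trace :=
  mul_nonneg (div_nonneg (pow_nonneg D.b_pos.le _) D.N_pos.le)
    (trace_nonneg (psd_pow (psdS D h) _))

theorem d_nonneg (h : D.Good x U K) : 0 ≤ 96 / D.k * (1 - K).trace :=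
  mul_nonneg (div_nonneg (by norm_num) D.k_pos.le) (trace_nonneg h.hK1)

theorem sum_le (h : D.Good x U K) :
    D.b ^ D.q / D.N * (D.R x U ^ D.q).trace + D.b ^ D.p / D.N * (D.S x U K ^ D.p).trace
      + 96 / D.k * (1 - K).trace ≤ 3 := by
  have h1 := h.hF
  have h2 := ek_le D h
  unfold Dat.F at h1
  unfold Dat.R Dat.S
  linarith

end StateBAux

open StateBAux

theorem tau_le (h : D.Good x U K) : D.tau x ≤ 16 := by
  have h1 := ek_nonneg D h
  have h2 : 8 * D.e x / D.k = 8 * (D.e x / D.k) := by ring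
  unfold Dat.tau
  rw [h2]
  linarith

theorem le_tau (h : D.Good x U K) : 8 ≤ D.tau x := by
  have h1 := ek_le D h
  have h2 : 8 * D.e x / D.k = 8 * (D.e x / D.k) := by ring
  unfold Dat.tau
  rw [h2]
  linarith

theorem trR_q (h : D.Good x U K) : D.b ^ D.q * (D.R x U ^ D.q).trace ≤ 3 * D.N := by
  have h1 : D.b ^ D.q / D.N * (D.R x U ^ D.q).trace ≤ 3 := by
    have := sum_le D h
    have := c_nonneg D h
    have := d_nonneg D h
    linarith
  rw [div_mul_eq_mul_div, div_le_iff₀ D.N_pos] at h1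
  exact h1

theorem trS_p (h : D.Good x U K) : D.b ^ D.p * (D.S x U K ^ D.p).trace ≤ 3 * D.N := by
  have h1 : D.b ^ D.p / D.N * (D.S x U K ^ D.p).trace ≤ 3 := by
    have := sum_le D h
    have := a_nonneg D h
    have := d_nonneg D h
    linarith
  rw [div_mul_eq_mul_div, div_le_iff₀ D.N_pos] at h1
  exact h1

theorem tr_one_sub_K (h : D.Good x U K) : (1 - K).trace ≤ D.k / 32 := by
  have h1 : 96 / D.k * (1 - K).trace ≤ 3 := by
    have := sum_le D h
    have := a_nonneg D h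
    have := c_nonneg D h
    linarith
  rw [div_mul_eq_mul_div, div_le_iff₀ D.k_pos] at h1
  linarith

theorem trR_four (h : D.Good x U K) : D.b ^ 4 * (D.R x U ^ 4).trace ≤ 4 * D.N := by
  have h1 := trace_pow_le (psdR D h) D.b_pos.le (i := 4) (n := D.q) (by unfold Dat.q; omega)
  have h2 := trR_q D h
  have h3 := D.card_le
  linarith

theorem trS_one (h : D.Good x U K) : D.b * (D.S x U K).trace ≤ 4 * D.N := by
  have h1 := trace_pow_le (psdS D h) D.b_pos.le (i := 1) (n := D.p) (by unfold Dat.p; omega)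
  have h2 := trS_p D h
  have h3 := D.card_le
  rw [pow_one, pow_one] at h1
  linarith

theorem U_le (h : D.Good x U K) : ((3 * D.b) • (1 : Matrix m m ℝ) - U).PosSemidef := by
  have h1 : (EC D.A K (D.X x U)⁻¹).PosSemidef := EC_psd D.symA h.hK (psdR D h)
  have h2 : 0 ≤ D.al * D.tau x :=
    mul_nonneg D.al_pos.le (by have := le_tau D h; linarith)
  have h3 := psd_add h.hY.posSemidef (psd_smul h1 h2)
  have h4 : D.Y x U K + (D.al * D.tau x) • EC D.A K (D.X x U)⁻¹
      = (3 * D.b) • (1 : Matrix m m ℝ) - U := by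
    unfold Dat.Y
    abel
  rwa [h4] at h3

theorem H_le (h : D.Good x U K) :
    ((3 * D.b) • (1 : Matrix m m ℝ) - H D.A (x - D.x0)).PosSemidef := by
  have h3 := psd_add (U_le D h) h.hX.posSemidef
  have h4 : ((3 * D.b) • (1 : Matrix m m ℝ) - U) + D.X x U
      = (3 * D.b) • (1 : Matrix m m ℝ) - H D.A (x - D.x0) := by
    unfold Dat.X
    abel
  rwa [h4] at h3

theorem neg_H_le (h : D.Good x U K) :
    ((3 * D.b) • (1 : Matrix m m ℝ) + H D.A (x - D.x0)).PosSemidef := by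
  have h1 := psd_conj (H_le D h) D.J
  have h2 : D.J * H D.A (x - D.x0) * D.Jᵀ = - H D.A (x - D.x0) := by
    unfold H
    rw [Finset.mul_sum, Finset.sum_mul, ← Finset.sum_neg_distrib]
    refine Finset.sum_congr rfl fun i _ => ?_
    rw [Matrix.mul_smul, Matrix.smul_mul, D.conjJ, smul_neg]
  have h3 : D.J * ((3 * D.b) • (1 : Matrix m m ℝ) - H D.A (x - D.x0)) * D.Jᵀ
      = (3 * D.b) • (1 : Matrix m m ℝ) + H D.A (x - D.x0) := by
    rw [Matrix.mul_sub, Matrix.sub_mul, h2, Matrix.mul_smul, Matrix.mul_one, Matrix.smul_mul,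
      D.orthJ]
    abel
  rwa [h3] at h1

theorem R_ge (h : D.Good x U K) :
    (D.R x U - (1 / (6 * D.b)) • (1 : Matrix m m ℝ)).PosSemidef := by
  have h1 := psd_add (U_le D h) (neg_H_le D h)
  have h2 : ((3 * D.b) • (1 : Matrix m m ℝ) - U)
      + ((3 * D.b) • (1 : Matrix m m ℝ) + H D.A (x - D.x0))
      = (6 * D.b) • (1 : Matrix m m ℝ) - D.X x U := by
    have h3 : (6 * D.b) • (1 : Matrix m m ℝ)
        = (3 * D.b) • (1 : Matrix m m ℝ) + (3 * D.b) • (1 : Matrix m m ℝ) := by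
      rw [← add_smul]; congr 1; ring
    rw [h3]
    unfold Dat.X
    abel
  rw [h2] at h1
  have hb := D.b_pos
  exact inv_lower h.hX (by linarith) h1

end MSp
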